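import Pool.Agent.Lib.RY.Top
import Pool.Agent.Lib.RA.T_DIM

/-! Project ra2: dependence of monomials on plaques. -/

open scoped Classical Topology
open Set Metric Filter MvPolynomial

noncomputable section

namespace Pool.Agent.Lib.RA

open Pool.Agent.Lib.SV (E)
open Pool.Agent.Lib.HS32 Pool.Agent.Lib.PN

namespace BDEP

variable {q j : ℕ}

theorem append_mem {c : E (q + j)} {R : ℝ} (hR : 0 < R) {y : E q} {s : E j}
    (hy : y ∈ ball (fx c) R) (hs : s ∈ ball (sx c) R) : (Fin.append y s : E (q + j)) ∈ ball c R := by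
  rw [mem_ball, dist_pi_lt_iff hR] at *
  intro i
  refine Fin.addCases (fun a => ?_) (fun a => ?_) i
  · simpa only [Fin.append_left, fx] using hy a
  · simpa only [Fin.append_right, sx] using hs a

theorem diff_append (s : E j) : Differentiable ℂ fun y : E q => (Fin.append y s : E (q + j)) := by
  refine differentiable_pi.2 fun i => ?_
  refine Fin.addCases (fun a => ?_) (fun a => ?_) i
  · simpa only [Fin.append_left] using differentiable_apply a
  · simpa only [Fin.append_right] using differentiable_const _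

/-- Affine coordinates are holomorphic in charts. -/
theorem hol_af {n : ℕ} {M : Mf n} {ι : Type} [Fintype ι] {f : M.X → ι → ℂ} (hf : PMap M f)
    {e : M.Ch} (he : e ∈ M.C) {z : E n} (hz : z ∈ e.target) {i₀ : ι} (h0 : f (e.symm z) i₀ ≠ 0)
    (l : ι) : HolN (fun w => af f i₀ (e.symm w) l) z := by
  obtain ⟨F, hF⟩ := hf.ex e he z hz
  have h1 : F z i₀ ≠ 0 := by
    obtain ⟨a, ha, h⟩ := hF.ev.self_of_nhds
    rw [h]
    exact mul_ne_zero ha h0
  have h2 : ∀ᶠ w in 𝓝 z, af f i₀ (e.symm w) l = F w l * (F w i₀)⁻¹ :=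
    hF.ev.mono fun w ⟨a, ha, h⟩ => by
      rw [h, ← div_eq_mul_inv]
      exact (mul_div_mul_left _ _ ha).symm
  filter_upwards [h2.eventually_nhds, holN_apply hF.hol l, holN_apply hF.hol i₀,
    (holN_apply hF.hol i₀).self_of_nhds.continuousAt.eventually_ne h1] with w a b c d
  exact (b.fun_mul (c.fun_inv d)).congr_of_eventuallyEq a

end BDEP

open BDEP in
theorem st_DEP : St_DEP := by
  rintro q k j M ι _ f O H i₀ ix e c R hf hb ⟨C, hC⟩
  set m := (C * (q + 1) + 1) ^ q with hm
  refine ⟨m, fun W hW h0 => ?_⟩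
  obtain ⟨s, hs, h1, h2⟩ := hC W hW h0
  refine ⟨s, hs, h1, fun l => ?_⟩
  set d := (q + 1) * m with hd
  have hmem := fun y hy => append_mem hb.r0 (y := y) hy hs
  have hc := hmem _ (mem_ball_self hb.r0)
  obtain ⟨a, a0, ha⟩ := st_DIM q (C * d + 1) ((Fin q → Fin (m + 1)) × Fin (m + 1)) (fx c)
    (fun α y => (∏ b, y b ^ (α.1 b).val) * af f i₀ (e.symm (Fin.append y s)) l ^ α.2.val)
    (fun α => by
      filter_upwards [(diff_append s).continuous.continuousAt.eventually
        (hol_af hf hb.mem (hb.sub hc) (hb.pt _ hc).2.1 l)] with y hy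
      exact DifferentiableAt.fun_mul (by fun_prop) ((hy.comp y (diff_append s y)).fun_pow _))
    (by
      have e1 : C * d + 1 ≤ (C * (q + 1) + 1) * (m + 1) := by rw [hd]; nlinarith
      have e2 := Nat.pow_le_pow_left e1 q
      rw [mul_pow, ← hm] at e2
      simp only [Fintype.card_prod, Fintype.card_pi, Fintype.card_fin, Finset.prod_const,
        Finset.card_univ]
      have e3 : 0 < (m + 1) ^ q := by positivity
      nlinarith)
  set P : MvPolynomial ι ℂ := ∑ α, MvPolynomial.C (a α) * ((∏ b, X (ix b) ^ (α.1 b).val) *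
    X l ^ α.2.val * X i₀ ^ (d - (∑ b, (α.1 b).val + α.2.val))) with hP
  have hom : P.IsHomogeneous d := IsHomogeneous.sum _ _ _ fun α _ => by
    have e1 : ∑ b, (α.1 b).val ≤ q * m := by
      simpa using Finset.sum_le_card_nsmul Finset.univ (fun b => (α.1 b).val) m
        fun b _ => Nat.lt_succ_iff.1 (α.1 b).2
    have e2 := Nat.lt_succ_iff.1 α.2.2
    have e3 : ∑ b, (α.1 b).val + α.2.val ≤ d := by rw [hd]; nlinarith
    have := (((IsHomogeneous.prod Finset.univ (fun b => (X (ix b) ^ (α.1 b).val : MvPolynomial ι ℂ))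
      _ fun b _ => isHomogeneous_X_pow _ _).mul (isHomogeneous_X_pow l α.2.val)).mul
      (isHomogeneous_X_pow i₀ (d - (∑ b, (α.1 b).val + α.2.val)))).C_mul (a α)
    rwa [Nat.add_sub_cancel' e3] at this
  have ev : ∀ y ∈ ball (fx c) R, eval (af f i₀ (e.symm (Fin.append y s))) P =
      ∑ α, a α * ((∏ b, y b ^ (α.1 b).val) * af f i₀ (e.symm (Fin.append y s)) l ^ α.2.val) := by
    intro y hy
    obtain ⟨-, p1, p2, -⟩ := hb.pt _ (hmem y hy)
    have p3 : af f i₀ (e.symm (Fin.append y s)) i₀ = 1 := div_self p1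
    have p4 : ∀ b, af f i₀ (e.symm (Fin.append y s)) (ix b) = y b := fun b => by
      rw [← p2 b, fx, Fin.append_left]
    simp only [hP, map_sum, map_mul, map_prod, map_pow, eval_C, eval_X, p3, p4, one_pow, mul_one]
  refine ⟨a, a0, fun y hy => ?_⟩
  have := h2 d (C * d + 1) P hom (Nat.lt_succ_self _) (ha.congr' (by
    filter_upwards [ball_mem_nhds _ hb.r0] with y hy using (ev y hy).symm) EventuallyEq.rfl) y hy
  rw [ev y hy] at this
  simpa only [mul_assoc] using this

end Pool.Agent.Lib.RA
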