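import Pool.Agent.Lib.RY.Blue0
import Pool.Agent.Lib.RA.T_WRON
import Pool.Agent.Lib.HS85.Frame

/-! The chart adapted to the closures of the leaves. -/

open scoped Classical Topology ContDiff ComplexOrder Matrix
open Set Complex Metric Filter

set_option linter.unusedVariables false

noncomputable section

namespace Pool.Agent.Lib.RA

open Pool.Agent.Lib.SV (E nsq)
open Pool.Agent.Lib.HS32 Pool.Agent.Lib.PN Pool.Agent.Lib.UR.M

namespace EBX65

/-- Selection of coordinates that are independent on the kernel of a surjection. -/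
theorem select {q j : ℕ} {ι : Type} (A : E (q + j) →ₗ[ℂ] ι → ℂ) (S : E (q + j) →ₗ[ℂ] E j)
    (hA : ∀ v, A v = 0 → v = 0) (hS : Function.Surjective S) :
    ∃ ix : Fin q → ι, ∀ v, (∀ a, A v (ix a) = 0) → S v = 0 → v = 0 := by
  have hk : Module.finrank ℂ (LinearMap.ker S) = q := by
    have h1 := LinearMap.finrank_range_add_finrank_ker S
    rw [LinearMap.range_eq_top.2 hS, finrank_top, Module.finrank_fin_fun,
      Module.finrank_fin_fun] at h1
    omega
  let b := Module.finBasisOfFinrankEq ℂ (LinearMap.ker S) hk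
  have hsum : ∀ (c : Fin q → ℂ) (l : ι),
      A ((∑ a, c a • b a : LinearMap.ker S) : E (q + j)) l = ∑ a, c a * A (b a) l := by
    intro c l
    simp only [Submodule.coe_sum, Submodule.coe_smul, map_sum, map_smul, Finset.sum_apply,
      Pi.smul_apply, smul_eq_mul]
  have hex : ∃ ix : Fin q → ι, (Matrix.of fun a a' => A (b a') (ix a)).det ≠ 0 := by
    by_contra hn
    push Not at hn
    obtain ⟨c, hc, h0⟩ := WRONB.exists_ker (fun (l : ι) (a : Fin q) => A (b a) l) hn
    have h1 := hA _ (funext fun l => (hsum c l).trans (h0 l))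
    have h2 : (∑ a, c a • b a : LinearMap.ker S) = 0 := Subtype.ext h1
    exact hc (funext fun a => Fintype.linearIndependent_iff.1 b.linearIndependent c h2 a)
  obtain ⟨ix, hix⟩ := hex
  refine ⟨ix, fun v h1 h2 => ?_⟩
  have h3 := b.sum_repr ⟨v, h2⟩
  have h4 : (Matrix.of fun a a' => A (b a') (ix a)) *ᵥ (fun a => b.repr ⟨v, h2⟩ a) = 0 := by
    funext a
    have := hsum (fun a => b.repr ⟨v, h2⟩ a) (ix a)
    rw [h3, h1] at this
    simp only [Matrix.mulVec, dotProduct, Matrix.of_apply, Pi.zero_apply]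
    rw [this]
    exact Finset.sum_congr rfl fun _ _ => mul_comm _ _
  have h5 := Matrix.eq_zero_of_mulVec_eq_zero hix h4
  have h6 : (⟨v, h2⟩ : LinearMap.ker S) = 0 := by
    rw [← h3]
    exact Finset.sum_eq_zero fun a _ => by rw [congrFun h5 a, Pi.zero_apply, zero_smul]
  exact congrArg Subtype.val h6

/-- The last coordinates as a linear map. -/
def sxL (k j : ℕ) : E (k + j) →L[ℂ] E j :=
  ContinuousLinearMap.pi fun l => ContinuousLinearMap.proj (Fin.natAdd k l)

theorem sxL_surj (k j : ℕ) : Function.Surjective (sxL k j) := fun s =>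
  ⟨Fin.append 0 s, funext fun l => Fin.append_right _ _ l⟩

theorem fderiv_coord {n : ℕ} {ι : Type} [Fintype ι] {A : E n → ι → ℂ} {z : E n}
    (h : DifferentiableAt ℂ A z) (v : E n) (l : ι) :
    fderiv ℂ (fun w => A w l) z v = fderiv ℂ A z v l := by
  rw [fderiv_apply h l]
  rfl

end EBX65

open EBX65 in
theorem st_EBX : St_EBX := by
  intro q k j p d M Λ g f O H x₀ hP hO hx hH hS
  obtain ⟨e₀, he₀, hx₀⟩ := M.cov x₀
  have hz := e₀.map_source hx₀
  have hl := e₀.left_inv hx₀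
  obtain ⟨F, hF⟩ := hP.map.ex e₀ he₀ _ hz
  obtain ⟨i₀, hi⟩ := Function.ne_iff.1 (hF.ne hP.map.ne)
  obtain ⟨hA, hA1⟩ := hF.norm hi
  set A : E (q + j) → Fin (p + (q + j) + 1) → ℂ := fun w => (F w i₀)⁻¹ • F w with hAdef
  set S : E (q + j) → E j := sxL k j ∘ (H ∘ e₀.symm) with hSdef
  have hHh : HolN (H ∘ e₀.symm) (e₀ x₀) := hH e₀ he₀ hx₀
  have hSh : HolN S (e₀ x₀) := hHh.mono fun w hw => (sxL k j).differentiableAt.comp w hw
  have hSs : Function.Surjective (fderiv ℂ S (e₀ x₀)) := by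
    rw [((sxL k j).hasFDerivAt.comp _ hHh.self_of_nhds.hasFDerivAt).fderiv]
    exact (sxL_surj k j).comp (hS e₀ he₀ hx₀)
  obtain ⟨ix, hix⟩ := select (fderiv ℂ A (e₀ x₀)).toLinearMap (fderiv ℂ S (e₀ x₀)).toLinearMap
    (fun v hv => hP.imm e₀ _ A hA 0 v (by rw [zero_smul]; exact hv)) hSs
  set Ψ : E (q + j) → E (q + j) := fun w => Fin.append (fun a => A w (ix a)) (S w) with hΨ
  have e1 : ∀ a, (fun w => Ψ w (Fin.castAdd j a)) = fun w => A w (ix a) := fun a =>
    funext fun w => Fin.append_left _ _ a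
  have e2 : ∀ l, (fun w => Ψ w (Fin.natAdd q l)) = fun w => S w l := fun l =>
    funext fun w => Fin.append_right _ _ l
  have hΨh : HolN Ψ (e₀ x₀) := holN_pi fun i => by
    refine Fin.addCases (fun a => ?_) (fun l => ?_) i
    · rw [e1]
      exact holN_apply hA.hol _
    · rw [e2]
      exact holN_apply hSh _
  have hinj : Function.Injective (fderiv ℂ Ψ (e₀ x₀)) := by
    rw [injective_iff_map_eq_zero]
    intro v hv
    refine hix v (fun a => ?_) (funext fun l => ?_)
    · have := fderiv_coord hΨh.self_of_nhds v (Fin.castAdd j a)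
      rw [e1, hv, fderiv_coord hA.hol.self_of_nhds] at this
      exact this
    · have := fderiv_coord hΨh.self_of_nhds v (Fin.natAdd q l)
      rw [e2, hv, fderiv_coord hSh.self_of_nhds] at this
      exact this
  have hu : IsUnit (fderiv ℂ Ψ (e₀ x₀)) :=
    ContinuousLinearMap.isUnit_iff_bijective.2
      ⟨hinj, LinearMap.surjective_of_injective (f := (fderiv ℂ Ψ (e₀ x₀)).toLinearMap) hinj⟩
  have hOn : ∀ᶠ w in 𝓝 (e₀ x₀), e₀.symm w ∈ O :=
    (e₀.continuousAt_symm hz).eventually (show ∀ᶠ y in 𝓝 (e₀.symm (e₀ x₀)), y ∈ O by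
      rw [hl]; exact hO.mem_nhds hx)
  have hAf : ∀ᶠ w in 𝓝 (e₀ x₀), f (e₀.symm w) i₀ ≠ 0 ∧ A w = af f i₀ (e₀.symm w) := by
    filter_upwards [hA.ev, hA1] with w ⟨a, ha, e⟩ h1
    have h2 : a * f (e₀.symm w) i₀ = 1 := by
      have := congrFun e i₀
      rw [Pi.smul_apply a, smul_eq_mul] at this
      exact this.symm.trans h1
    have h3 : f (e₀.symm w) i₀ ≠ 0 := right_ne_zero_of_mul_eq_one h2
    refine ⟨h3, funext fun l => ?_⟩
    rw [e, Pi.smul_apply, smul_eq_mul, af, eq_div_iff h3, mul_right_comm, h2, one_mul]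
  obtain ⟨ψ, hψ, ψ0, ψs, ψd, ψi, -⟩ := Pool.Agent.HS85.loc_inv hΨh hu (hOn.and hAf)
  have hm : x₀ ∈ (e₀.trans ψ).source := ⟨hx₀, ψ0⟩
  obtain ⟨R, hR, hb⟩ := Metric.isOpen_iff.1 (e₀.trans ψ).open_target _ ((e₀.trans ψ).map_source hm)
  refine ⟨i₀, ix, e₀.trans ψ, _, R, ⟨M.sat e₀ he₀ ψ ψd ψi, hR, hb, fun z hz' => ?_⟩,
    (e₀.trans ψ).left_inv hm⟩
  have h1 : z ∈ ψ.target := (hb hz').1
  obtain ⟨h2, h3, h4⟩ := ψs (ψ.map_target h1)
  have h5 : Ψ (ψ.symm z) = z := by
    rw [← hψ]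
    exact ψ.right_inv h1
  refine ⟨h2, h3, fun a => ?_, funext fun l => ?_⟩
  · have := congrFun (e1 a) (ψ.symm z)
    simp only [h5, h4] at this
    exact this
  · have := congrFun (e2 l) (ψ.symm z)
    simp only [h5] at this
    exact this

end Pool.Agent.Lib.RA
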