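import Pool.Agent.Lib.RY.Blue0
import Pool.Agent.Lib.RA.T_PK
import Pool.Agent.Lib.RA.T_AN

/-! Calculus on the tube. -/

open scoped Classical Topology ContDiff ComplexOrder Matrix
open Set Complex Metric Filter

set_option linter.unusedVariables false

noncomputable section

namespace Pool.Agent.Lib.RA

open Pool.Agent.Lib.SV (E)
open Pool.Agent.Lib.HS32 PK

namespace TVB

variable {n k j : ℕ}

theorem ext2 {s t : E (k + j)} (h1 : ∀ i, s (Fin.castAdd j i) = t (Fin.castAdd j i))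
    (h2 : ∀ l, s (Fin.natAdd k l) = t (Fin.natAdd k l)) : s = t :=
  funext fun i => Fin.addCases h1 h2 i

@[simp] theorem pj_l (t : E (k + j)) (i : Fin k) :
    pj t (Fin.castAdd j i) = ((t (Fin.castAdd j i)).re : ℂ) := by simp [pj, fx]

@[simp] theorem pj_r (t : E (k + j)) (l : Fin j) :
    pj t (Fin.natAdd k l) = t (Fin.natAdd k l) := by simp [pj, sx]

@[simp] theorem io_l (a : Fin k → ℝ) (i : Fin k) : io j a (Fin.castAdd j i) = a i := by
  simp [io, cx]

@[simp] theorem io_r (a : Fin k → ℝ) (l : Fin j) : io j a (Fin.natAdd k l) = 0 := by simp [io]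

theorem pj_tr (t : E (k + j)) (a : Fin k → ℝ) : pj (t + I • io j a) = pj t :=
  ext2 (fun i => by simp) fun l => by simp

theorem pj_add (s t : E (k + j)) : pj (s + t) = pj s + pj t :=
  ext2 (fun i => by simp) fun l => by simp

theorem pj_smul (r : ℝ) (t : E (k + j)) : pj (r • t) = r • pj t :=
  ext2 (fun i => by simp) fun l => by simp

theorem pj_pj (t : E (k + j)) : pj (pj t) = pj t := ext2 (fun i => by simp) fun l => by simp

theorem pj_norm (t : E (k + j)) : ‖pj t‖ ≤ ‖t‖ := by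
  refine (pi_norm_le_iff_of_nonneg (norm_nonneg t)).2 fun i => Fin.addCases (fun i => ?_)
    (fun l => ?_) i
  · rw [pj_l, norm_real, Real.norm_eq_abs]
    exact (abs_re_le_norm _).trans (norm_le_pi_norm t _)
  · rw [pj_r]; exact norm_le_pi_norm t _

theorem split (t : E (k + j)) : t = pj t + I • io j fun i => (t (Fin.castAdd j i)).im :=
  ext2 (fun i => by simp [mul_comm I]) fun l => by simp

theorem star_io (a : Fin k → ℝ) : star (io j a) = io j a :=
  ext2 (fun i => by simp) fun l => by simp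

theorem dot_io (p : E (k + j)) (a : Fin k → ℝ) : p ⬝ᵥ io j a = ∑ i, fx p i * a i := by
  simp [dotProduct, Fin.sum_univ_add, fx]

/-- The projection as a real linear map. -/
def pjL (k j : ℕ) : E (k + j) →L[ℝ] E (k + j) :=
  LinearMap.toContinuousLinearMap ⟨⟨pj, pj_add⟩, pj_smul⟩

/-- The inclusion of the real vectors as a real linear map. -/
def ioL (k j : ℕ) : (Fin k → ℝ) →L[ℝ] E (k + j) :=
  LinearMap.toContinuousLinearMap
    ⟨⟨fun a => io j ((1 / 2 : ℝ) • a), fun a b => ext2 (fun i => by simp [mul_add]) fun l => by simp⟩,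
      fun r a => ext2 (fun i => by simp [mul_left_comm]) fun l => by simp⟩

theorem dg_add (s t : E n) : dg (s + t) = dg s + dg t := by simp [dg]

theorem dg_zero : dg (0 : E n) = 0 := by simp [dg]

theorem norm_dg (t : E n) : ‖dg t‖ = ‖t‖ := by simp [dg, Prod.norm_def]

theorem dg_mem {t : E n} {R : ℝ} : dg t ∈ ball (0 : E n × E n) R ↔ t ∈ ball (0 : E n) R := by
  rw [mem_ball_zero_iff, mem_ball_zero_iff, norm_dg]

/-! Translations. -/

theorem pz_tr (F : E n × E n → ℂ) (τ w : E n × E n) : pz (fun y => F (y + τ)) w = pz F (w + τ) := by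
  funext l; simp only [pz, fderiv_comp_add_right]

theorem pu_tr (F : E n × E n → ℂ) (τ w : E n × E n) : pu (fun y => F (y + τ)) w = pu F (w + τ) := by
  funext l; simp only [pu, fderiv_comp_add_right]

theorem Gm_tr (F : E n × E n → ℂ) (τ w : E n × E n) : Gm (fun y => F (y + τ)) w = Gm F (w + τ) := by
  ext i l
  simp only [Gm, Matrix.of_apply, pz_tr]
  exact congrFun (pu_tr (fun x => pz F x l) τ w) i

theorem dz_per {f : E n → ℂ} {τ : E n} (h : ∀ w, f (w + τ) = f w) (l : Fin n) (z : E n) :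
    dz l f (z + τ) = dz l f z := by
  have e : fderiv ℝ f (z + τ) = fderiv ℝ f z := by
    rw [← fderiv_comp_add_right]; simp only [h]
  simp only [dz, e]

theorem dzb_per {f : E n → ℂ} {τ : E n} (h : ∀ w, f (w + τ) = f w) (l : Fin n) (z : E n) :
    dzb l f (z + τ) = dzb l f z := by
  have e : fderiv ℝ f (z + τ) = fderiv ℝ f z := by
    rw [← fderiv_comp_add_right]; simp only [h]
  simp only [dzb, e]

theorem hess_per {f : E n → ℂ} {τ : E n} (h : ∀ w, f (w + τ) = f w) (z : E n) :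
    hess f (z + τ) = hess f z := by
  ext i l
  exact dzb_per (dz_per h l) i z

theorem dz_cg {f g : E n → ℂ} {z : E n} (e : f =ᶠ[𝓝 z] g) (l : Fin n) : dz l f z = dz l g z := by
  simp only [dz, e.fderiv_eq]

theorem dzb_cg {f g : E n → ℂ} {z : E n} (e : f =ᶠ[𝓝 z] g) (l : Fin n) :
    dzb l f z = dzb l g z := by
  simp only [dzb, e.fderiv_eq]

theorem hess_cg {f g : E n → ℂ} {z : E n} (e : f =ᶠ[𝓝 z] g) : hess f z = hess g z := by
  ext i l
  exact dzb_cg (e.eventuallyEq_nhds.mono fun w hw => dz_cg hw l) i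

section tv

variable {Φ : E (k + j) × E (k + j) → ℂ} {δ c : ℝ} (h : Tv k j Φ δ c)
include h

theorem hn {w : E (k + j) × E (k + j)} (hw : w ∈ ball (0 : E (k + j) × E (k + j)) (2 * δ)) :
    Hn Φ w := hn_of_on isOpen_ball h.hol hw

theorem inv_val (a : Fin k → ℝ) {w : E (k + j) × E (k + j)}
    (hw : w ∈ ball (0 : E (k + j) × E (k + j)) (2 * δ))
    (hw' : w + (I • io j a, -(I • io j a)) ∈ ball (0 : E (k + j) × E (k + j)) (2 * δ)) :
    Φ (w + (I • io j a, -(I • io j a))) = Φ w := by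
  set τ : E (k + j) × E (k + j) := (I • io j a, -(I • io j a)) with hτ
  have hm : ∀ s ∈ Icc (0 : ℝ) 1, w + s • τ ∈ ball (0 : E (k + j) × E (k + j)) (2 * δ) :=
    fun s hs => (convex_ball _ _).add_smul_mem hw hw' hs
  have hd : ∀ s ∈ Icc (0 : ℝ) 1, HasDerivAt (fun s : ℝ => Φ (w + s • τ)) 0 s := by
    intro s hs
    have h1 : HasDerivAt (fun s : ℝ => w + s • τ) τ s := by
      simpa using ((hasDerivAt_id s).smul_const τ).const_add w
    have h2 := ((hn_at (hn h (hm s hs))).hasFDerivAt.restrictScalars ℝ).comp_hasDerivAt s h1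
    have h3 : fderiv ℂ Φ (w + s • τ) τ = 0 := by
      rw [hτ, fd_zu, dotProduct_neg, dotProduct_smul, dotProduct_smul, dot_io, dot_io, ← hτ,
        h.inv _ (hm s hs), add_neg_cancel]
    rw [ContinuousLinearMap.coe_restrictScalars', h3] at h2
    exact h2
  have := constant_of_has_deriv_right_zero
    (fun s hs => (hd s hs).continuousAt.continuousWithinAt)
    (fun s hs => (hd s (Ico_subset_Icc_self hs)).hasDerivWithinAt) 1 (right_mem_Icc.2 zero_le_one)
  simpa using this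

theorem inv_ev {t : E (k + j)} (ht : t ∈ ball (0 : E (k + j)) (2 * δ)) :
    ∃ τ, dg t = dg (pj t) + τ ∧ (fun y => Φ (y + τ)) =ᶠ[𝓝 (dg (pj t))] Φ := by
  set a : Fin k → ℝ := fun i => (t (Fin.castAdd j i)).im
  have e : dg t = dg (pj t) + (I • io j a, -(I • io j a)) := by
    conv_lhs => rw [split t, dg_add]
    simp [dg, star_io, a]
  refine ⟨_, e, ?_⟩
  have h0 : dg (pj t) ∈ ball (0 : E (k + j) × E (k + j)) (2 * δ) :=
    dg_mem.2 (mem_ball_zero_iff.2 ((pj_norm t).trans_lt (mem_ball_zero_iff.1 ht)))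
  have h1 : ∀ᶠ y in 𝓝 (dg (pj t)),
      y + (I • io j a, -(I • io j a)) ∈ ball (0 : E (k + j) × E (k + j)) (2 * δ) :=
    (continuous_add_right _).continuousAt.eventually
      (isOpen_ball.mem_nhds (e ▸ dg_mem.2 ht :
        dg (pj t) + (I • io j a, -(I • io j a)) ∈ ball (0 : E (k + j) × E (k + j)) (2 * δ)))
  filter_upwards [isOpen_ball.mem_nhds h0, h1] with y hy hy' using inv_val h a hy hy'

theorem cj_ev {w : E (k + j) × E (k + j)} (hw : w ∈ ball (0 : E (k + j) × E (k + j)) (2 * δ)) :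
    cj Φ =ᶠ[𝓝 w] Φ := by
  have h0 : (0 : E (k + j)) ∈ ball (0 : E (k + j)) (2 * δ) :=
    mem_ball_self (by linarith [h.d0])
  have := cj_eq_ball (c := 0) (by rw [dg_zero]; exact h.hol) h0
    (by filter_upwards [isOpen_ball.mem_nhds h0] with t ht using h.real t ht)
  rw [dg_zero] at this
  filter_upwards [isOpen_ball.mem_nhds hw] with y hy using this hy

theorem part4 {t : E (k + j)} (ht : t ∈ ball (0 : E (k + j)) (2 * δ)) :
    ph0 Φ t = pt Φ t ∧ Gm Φ (dg t) = Gm Φ (dg (pj t)) ∧ fx (pz Φ (dg t)) = cx (mu0 Φ t) := by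
  obtain ⟨τ, e, he⟩ := inv_ev h ht
  refine ⟨?_, ?_, ?_⟩
  · simp only [ph0, pt, e, ← he.self_of_nhds]
  · rw [e, ← Gm_tr, Gm_congr he]
  · have h1 : pz Φ (dg t) = pz Φ (dg (pj t)) := by rw [e, ← pz_tr, pz_congr he]
    have h2 : pz Φ (dg t) = star (pu Φ (dg t)) := by
      have := pz_sw (y := dg t) (by simpa using hn_at (hn h (dg_mem.2 ht)))
        (cj_ev h (dg_mem.2 ht))
      simpa using this
    funext i
    have h3 := congrFun (h.inv _ (dg_mem.2 ht)) i
    have h4 := congrFun h2 (Fin.castAdd j i)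
    simp only [fx, Pi.star_apply] at h3 h4
    rw [← h3] at h4
    simp only [cx, mu0, ← h1, fx]
    exact (conj_eq_iff_re.1 h4.symm).symm

theorem ph_ev {t : E (k + j)} (ht : t ∈ ball (0 : E (k + j)) (2 * δ)) :
    (fun w => (ph0 Φ w : ℂ)) =ᶠ[𝓝 t] fun w => Φ (dg w) := by
  filter_upwards [isOpen_ball.mem_nhds ht] with w hw
  rw [(part4 h hw).1, pt]
  exact Complex.ext (by simp) (by simp [h.real w hw])

theorem mu_ev {t : E (k + j)} (ht : t ∈ ball (0 : E (k + j)) (2 * δ)) (i : Fin k) :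
    (fun w => (mu0 Φ w i : ℂ)) =ᶠ[𝓝 t] fun w => pz Φ (dg w) (Fin.castAdd j i) := by
  filter_upwards [isOpen_ball.mem_nhds ht] with w hw
  exact (congrFun (part4 h hw).2.2 i).symm

theorem an_comp {F : E (k + j) × E (k + j) → ℂ}
    (hF : DifferentiableOn ℂ F (ball 0 (2 * δ))) {t : E (k + j)} (ht : ‖pj t‖ < 2 * δ) :
    AnalyticAt ℝ (fun w => (F (dg (pj w))).re) t := by
  have h1 : AnalyticAt ℂ F (dg (pj t)) :=
    (st_AN _ _ F).1 _ isOpen_ball hF _ (dg_mem.2 (mem_ball_zero_iff.2 ht))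
  exact (reCLM.analyticAt _).comp (h1.restrictScalars.comp_of_eq
    (((dgL _).comp (pjL k j)).analyticAt t) rfl)

theorem fd_ph {s : E (k + j)} (hs : ‖pj s‖ < 2 * δ) (b : Fin k → ℝ) :
    fderiv ℝ (ph0 Φ) s (io j ((1 / 2 : ℝ) • b)) = mu0 Φ s ⬝ᵥ b := by
  have h0 : pj s ∈ ball (0 : E (k + j)) (2 * δ) := mem_ball_zero_iff.2 hs
  have e1 : fderiv ℝ (ph0 Φ) s = fderiv ℝ (ph0 Φ) (pj s) := by
    conv_lhs => rw [split s, ← fderiv_comp_add_right]
    simp only [ph0, pj_tr]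
    rfl
  have e2 : ph0 Φ =ᶠ[𝓝 (pj s)] fun w => reCLM (Φ (dg w)) := by
    filter_upwards [isOpen_ball.mem_nhds h0] with w hw using (part4 h hw).1
  have hd := hn h (dg_mem.2 h0)
  have e3 := (reCLM.hasFDerivAt.comp (pj s)
    ((cd_dg hd).differentiableAt (by simp)).hasFDerivAt).fderiv
  rw [e1, e2.fderiv_eq, show (fun w => reCLM (Φ (dg w))) = reCLM ∘ fun w => Φ (dg w) from rfl, e3,
    ContinuousLinearMap.comp_apply, fd_dg (hn_at hd), star_io, dot_io, dot_io,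
    ← h.inv _ (dg_mem.2 h0), (part4 h h0).2.2, ← Finset.sum_add_distrib, map_sum, dotProduct]
  refine Finset.sum_congr rfl fun i _ => ?_
  have : mu0 Φ (pj s) i = mu0 Φ s i := by simp only [mu0, pj_pj]
  simp only [cx, this, reCLM_apply, ← ofReal_mul, ← ofReal_add, ofReal_re, Pi.smul_apply,
    smul_eq_mul]
  ring

theorem part5 {t : E (k + j)} (ht : ‖pj t‖ < 2 * δ) :
    AnalyticAt ℝ (ph0 Φ) t ∧ AnalyticAt ℝ (mu0 Φ) t ∧
    hr (ph0 Φ) t = Gm Φ (dg (pj t)) ∧ fx (dv1 (ph0 Φ) t) = cx (mu0 Φ t) ∧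
    (∀ i, dbv (fun w => mu0 Φ w i) t = hr (ph0 Φ) t *ᵥ Pi.single (Fin.castAdd j i) 1) ∧
    ∀ a b : Fin k → ℝ, ‖pj (sh t a)‖ < 2 * δ →
      fderiv ℝ (fun a' => ph0 Φ (sh t a')) a b = mu0 Φ (sh t a) ⬝ᵥ b := by
  have h0 : pj t ∈ ball (0 : E (k + j)) (2 * δ) := mem_ball_zero_iff.2 ht
  have hd := hn h (dg_mem.2 h0)
  set a₀ : Fin k → ℝ := fun i => (t (Fin.castAdd j i)).im
  have es : t = pj t + I • io j a₀ := split t
  have p1 : ∀ w, (ph0 Φ (w + I • io j a₀) : ℂ) = ph0 Φ w := fun w => by simp only [ph0, pj_tr]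
  have p2 : ∀ i w, (mu0 Φ (w + I • io j a₀) i : ℂ) = mu0 Φ w i := fun i w => by
    simp only [mu0, pj_tr]
  have e3 : hr (ph0 Φ) t = Gm Φ (dg (pj t)) := by
    rw [hr]
    conv_lhs => rw [es]
    rw [hess_per p1, hess_cg (ph_ev h h0), hess_dg hd]
  refine ⟨an_comp h h.hol ht, analyticAt_pi_iff.2 fun i => an_comp h
    (on_of_hn fun w hw => hn_pz (hn h hw) _) ht, e3, ?_, fun i => ?_, fun a b hs => ?_⟩
  · funext i
    simp only [fx, dv1]
    conv_lhs => rw [es]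
    rw [dz_per p1, dz_cg (ph_ev h h0), dz_dg (hn_at hd)]
    have := congrFun (part4 h h0).2.2 i
    simpa only [fx, cx, mu0, pj_pj] using this
  · funext l
    simp only [dbv]
    conv_lhs => rw [es]
    rw [dzb_per (p2 i), dzb_cg (mu_ev h h0 i), dzb_dg (hn_at (hn_pz hd _)), pu_pz, e3]
    simp
  · have h1 : HasFDerivAt (fun a' => sh t a') (ioL k j) a := (ioL k j).hasFDerivAt.const_add t
    have h2 : DifferentiableAt ℝ (ph0 Φ) (sh t a) := (an_comp h h.hol hs).differentiableAt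
    rw [show (fun a' => ph0 Φ (sh t a')) = ph0 Φ ∘ fun a' => sh t a' from rfl,
      (h2.hasFDerivAt.comp a h1).fderiv]
    exact fd_ph h hs b

end tv

theorem mulVec_small (A : Mat n) (η : ℝ) (hη : 0 ≤ η) (hA : ∀ i l, ‖A i l‖ ≤ η) (v : E n) :
    ‖A *ᵥ v‖ ≤ n * η * ‖v‖ := by
  refine (pi_norm_le_iff_of_nonneg (by positivity)).2 fun i => ?_
  calc ‖(A *ᵥ v) i‖ ≤ ∑ l, ‖A i l * v l‖ := norm_sum_le Finset.univ fun l => A i l * v l
    _ ≤ ∑ l : Fin n, η * ‖v‖ := Finset.sum_le_sum fun l _ => by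
      rw [norm_mul]; exact mul_le_mul (hA i l) (norm_le_pi_norm v l) (norm_nonneg _) hη
    _ = _ := by simp [mul_assoc]

/-- The mixed Hessian is uniformly close to its value at the centre. -/
theorem near_ev {F : E n × E n → ℂ} {y : E n × E n} (hF : Hn F y) {η : ℝ} (hη : 0 < η) :
    ∃ ρ > 0, ∀ w ∈ ball (0 : E n × E n) ρ, ∀ v, ‖(Gm F (w + y) - Gm F y) *ᵥ v‖ ≤ η * ‖v‖ := by
  have h1 : ∀ᶠ w in 𝓝 y, ∀ i l, ‖Gm F w i l - Gm F y i l‖ ≤ η / (n + 1) := by
    simp only [eventually_all]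
    intro i l
    have := (hn_at (hn_Gm hF i l)).continuousAt.eventually
      (closedBall_mem_nhds _ (by positivity : 0 < η / (n + 1)))
    simpa only [mem_closedBall, dist_eq_norm] using this
  obtain ⟨ρ, hρ, hb⟩ := Metric.mem_nhds_iff.1 h1
  refine ⟨ρ, hρ, fun w hw v => (mulVec_small _ _ (by positivity)
    (hb (by simpa using hw : w + y ∈ ball y ρ)) v).trans ?_⟩
  refine mul_le_mul_of_nonneg_right ?_ (norm_nonneg v)
  rw [mul_div_assoc', div_le_iff₀ (by positivity)]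
  nlinarith

theorem part6 {Φ : E (k + j) × E (k + j) → ℂ} {δ c : ℝ} (h : Tv k j Φ δ c) (t₁ : E (k + j))
    (ε : ℝ) (hp : pj t₁ = t₁) (h1 : ‖t₁‖ < δ) (hε : 0 < ε) : ∃ δ₁, 0 < δ₁ ∧ δ₁ ≤ ε ∧
    ‖t₁‖ + 2 * δ₁ ≤ δ ∧ Tv k j (fun w => Φ (w + dg t₁)) δ₁ (c / 2) ∧
    (∀ t, ph0 (fun w => Φ (w + dg t₁)) t = ph0 Φ (t + t₁) ∧
      mu0 (fun w => Φ (w + dg t₁)) t = mu0 Φ (t + t₁)) ∧
    ∀ N, Fin0 Φ δ N → Fin0 (fun w => Φ (w + dg t₁)) δ₁ N := by
  have hd := h.d0
  have hc := h.c0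
  have m1 : dg t₁ ∈ ball (0 : E (k + j) × E (k + j)) (2 * δ) :=
    dg_mem.2 (mem_ball_zero_iff.2 (by linarith))
  obtain ⟨ρ, hρ, hb⟩ := near_ev (hn h m1) (half_pos hc)
  set δ₁ := min (min ε (ρ / 2)) ((δ - ‖t₁‖) / 2) with hδ₁
  have a0 : 0 < δ₁ := lt_min (lt_min hε (half_pos hρ)) (by linarith)
  have a1 : δ₁ ≤ ε := (min_le_left _ _).trans (min_le_left _ _)
  have a2 : δ₁ ≤ ρ / 2 := (min_le_left _ _).trans (min_le_right _ _)
  have a3 : δ₁ ≤ (δ - ‖t₁‖) / 2 := min_le_right _ _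
  have mw : ∀ w ∈ ball (0 : E (k + j) × E (k + j)) (2 * δ₁),
      w + dg t₁ ∈ ball (0 : E (k + j) × E (k + j)) (2 * δ) := fun w hw => by
    rw [mem_ball_zero_iff] at hw ⊢
    have := norm_add_le w (dg t₁)
    rw [norm_dg] at this
    linarith
  have mt : ∀ t ∈ ball (0 : E (k + j)) (2 * δ₁), t + t₁ ∈ ball (0 : E (k + j)) (2 * δ) :=
    fun t ht => dg_mem.1 (by rw [dg_add]; exact mw _ (dg_mem.2 ht))
  have e : ∀ t, ph0 (fun w => Φ (w + dg t₁)) t = ph0 Φ (t + t₁) ∧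
      mu0 (fun w => Φ (w + dg t₁)) t = mu0 Φ (t + t₁) := fun t =>
    ⟨by simp only [ph0, pt, pj_add, hp, dg_add], by
      funext i; simp only [mu0, pz_tr, pj_add, hp, dg_add]⟩
  refine ⟨δ₁, a0, a1, by linarith, ⟨⟨a0, half_pos hc, fun w hw => ?_, fun t ht => ?_, fun v => ?_,
    fun w hw v => ?_, fun t ht => ?_⟩, fun w hw => ?_⟩, e, fun N hN n y H q1 q2 q3 q4 => ?_⟩
  · exact ((hn_at (hn h (mw w hw))).comp w (differentiableAt_id.add_const _)).differentiableWithinAt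
  · simpa only [dg_add] using h.real _ (mt t ht)
  · rw [Gm_tr, zero_add]
    have b1 := h.lin v
    have b2 := h.near _ m1 v
    have b3 := norm_sub_le (Gm Φ (dg t₁) *ᵥ v) ((Gm Φ (dg t₁) - Gm Φ 0) *ᵥ v)
    rw [← Matrix.sub_mulVec, sub_sub_cancel] at b3
    linarith
  · rw [Gm_tr, Gm_tr, zero_add]
    exact hb w (ball_subset_ball (by linarith) hw) v
  · rw [Gm_tr, ← dg_add]
    have b1 := (h.lo _ (mt t ht)).add (Matrix.PosSemidef.one.smul
      (show (0 : ℂ) ≤ ((c / 2 : ℝ) : ℂ) from zero_le_real.2 (half_pos hc).le))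
    have b2 : (c : ℂ) = ((c / 2 : ℝ) : ℂ) + ((c / 2 : ℝ) : ℂ) := by push_cast; ring
    rwa [b2, add_smul, ← sub_sub, sub_add_cancel] at b1
  · rw [pz_tr, pu_tr]; exact h.inv _ (mw w hw)
  · have e1 : ∀ i, ph0 (fun w => Φ (w + dg t₁)) ∘ H i = ph0 Φ ∘ fun z => H i z + t₁ :=
      fun i => funext fun z => (e _).1
    obtain ⟨i, i', hi, a, ha⟩ := hN n y (fun i z => H i z + t₁)
      (fun i => (q1 i).mono fun w hw => hw.add_const _)
      (fun i => by
        rw [pj_add, hp]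
        exact (norm_add_le _ _).trans (by linarith [q2 i]))
      (fun i => by rw [fderiv_add_const]; exact q3 i)
      (fun i i' => (q4 i i').mono fun z hz => by
        rw [← e1, ← e1, ← (e _).2, ← (e _).2]; exact hz)
    refine ⟨i, i', hi, a, ha.mono fun z hz => add_right_cancel (b := t₁) ?_⟩
    rw [add_right_comm]; exact hz

end TVB

theorem st_TV : St_TV := fun k j Φ δ c h =>
  ⟨TVB.pj_tr, TVB.pj_norm, fun t => ⟨_, TVB.split t⟩, fun t ht => TVB.part4 h ht,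
    fun t ht => TVB.part5 h ht, TVB.part6 h⟩

end Pool.Agent.Lib.RA
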