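import Pool.Agent.Lib.RY.B_CH2
import Pool.Agent.Lib.RY.K_At

/-! Project ra2: weakly admissible germs. -/

open scoped Classical Topology ContDiff ComplexOrder Matrix
open Set MeasureTheory Complex Metric Filter

set_option linter.unusedVariables false

noncomputable section

namespace Pool.Agent.Lib.RA

open Pool.Agent.Lib.SV (E nsq)
open Pool.Agent.Lib.HS32

namespace BWAD

open KA

theorem cont_pj {k j : ℕ} : Continuous (pj : E (k + j) → E (k + j)) :=
  continuous_pi fun i => Fin.addCases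
    (fun a => by
      simp only [pj, fx, Fin.append_left]
      exact continuous_ofReal.comp (continuous_re.comp (continuous_apply _)))
    (fun l => by
      simp only [pj, sx, Fin.append_right]
      exact continuous_apply _) i

theorem pull_ker {n r : ℕ} {P : Mat r} (hP : P.PosDef) (J : Matrix (Fin r) (Fin n) ℂ) (v : E n) :
    (Jᴴ * P * J) *ᵥ v = 0 ↔ J *ᵥ v = 0 := by
  refine ⟨fun h => ?_, fun h => by rw [← Matrix.mulVec_mulVec, h, Matrix.mulVec_zero]⟩
  by_contra h0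
  have a := hP.dotProduct_mulVec_pos h0
  rw [Matrix.star_mulVec, ← Matrix.dotProduct_mulVec, Matrix.mulVec_mulVec, Matrix.mulVec_mulVec,
    h, dotProduct_zero] at a
  exact lt_irrefl _ a

theorem pull_rank {n r : ℕ} {P : Mat r} (hP : P.PosDef) (J : Matrix (Fin r) (Fin n) ℂ) :
    (Jᴴ * P * J).rank = J.rank := by
  have a := LinearMap.finrank_range_add_finrank_ker (Jᴴ * P * J).mulVecLin
  have b := LinearMap.finrank_range_add_finrank_ker J.mulVecLin
  have q : LinearMap.ker (Jᴴ * P * J).mulVecLin = LinearMap.ker J.mulVecLin :=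
    Submodule.ext fun v => pull_ker hP J v
  rw [q] at a
  exact Nat.add_right_cancel (a.trans b.symm)

theorem pd_of_lo {r : ℕ} {P : Mat r} {c : ℝ} (hc : 0 < c)
    (h : (P - (c : ℂ) • (1 : Mat r)).PosSemidef) : P.PosDef := by
  have a := (Mf.pd_rsmul (Matrix.PosDef.one (n := Fin r) (R := ℂ)) hc).add_posSemidef h
  rwa [show c • (1 : Mat r) = (c : ℂ) • (1 : Mat r) from rfl, add_sub_cancel] at a

variable {n k j : ℕ} {M : Mf n} {Φ : E (k + j) × E (k + j) → ℂ} {δ c : ℝ}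
  {H : M.X → E (k + j)} {x : M.X}

theorem ev_val (h : HolAt M H x) {s : ℝ} (hv : ‖pj (H x)‖ < s) : ∀ᶠ y in 𝓝 x, ‖pj (H y)‖ < s :=
  ((cont_pj.continuousAt.comp (holAt_cont h)).norm).eventually_lt continuousAt_const hv

/-- The Hessian of a pull-back. -/
theorem hs_pull {r : ℕ} {H : M.X → E r} {ψ : E r → ℝ} (h : HolAt M H x)
    (hψ : ContDiffAt ℝ ∞ ψ (H x)) : EqAt M (M.hs (ψ ∘ H)) (pb M H (hr ψ (H x))) x :=
  fun e he hx => by
    have a := BCH2.hess_comp (h e he hx) (f := fun t => (ψ t : ℂ))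
      (by simpa only [Function.comp, e.left_inv hx] using cd_ofReal hψ)
    simp only [Function.comp_apply, e.left_inv hx] at a
    exact a

theorem point (hTV : St_TV) (hT : Tv k j Φ δ c) {η : M.Fam (Mat n)} (h : HolAt M H x)
    (hv : ‖pj (H x)‖ < 2 * δ) (q : EqAt M (M.hs (ph0 Φ ∘ H)) η x) :
    At M x fun e z => η e z = pb M H (hr (ph0 Φ) (H x)) e z ∧
      (η e z - (c : ℂ) • pb M H 1 e z).PosSemidef ∧
      (∀ v, η e z *ᵥ v = 0 ↔ fderiv ℂ (H ∘ e.symm) z v = 0) ∧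
      (η e z).rank = (jr (H ∘ e.symm) z).rank := fun e he hx => by
  obtain ⟨a1, -, a2, -⟩ := (hTV k j Φ δ c hT).2.2.2.2.1 _ hv
  have lo := hT.lo _ (mem_ball_zero_iff.2 hv)
  rw [← a2] at lo
  have b : η e (e x) = pb M H (hr (ph0 Φ) (H x)) e (e x) :=
    (q e he hx).symm.trans (hs_pull h a1.contDiffAt e he hx)
  have pd := pd_of_lo hT.c0 lo
  refine ⟨b, ?_, fun v => ?_, ?_⟩
  · have := lo.conjTranspose_mul_mul_same (jr (H ∘ e.symm) (e x))
    rw [b]
    simpa only [pb, Matrix.mul_sub, Matrix.sub_mul, Matrix.mul_smul, Matrix.smul_mul] using this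
  · rw [b, BCH2.fderiv_mulVec]
    exact pull_ker pd _ v
  · rw [b]
    exact pull_rank pd _

theorem iso_tr (hTV : St_TV) (hT : Tv k j Φ δ c) {η : M.Fam (Mat n)} {H' : M.X → E (k + j)}
    (h : Iso M η (ph0 Φ) H x) (t : Tr H H' x) :
    Iso M η (ph0 Φ) H' x ∧ ∀ᶠ y in 𝓝 x, pj (H' y) = pj (H y) := by
  obtain ⟨a, ha⟩ := t
  have p : ∀ᶠ y in 𝓝 x, pj (H' y) = pj (H y) :=
    ha.mono fun y hy => by rw [hy, (hTV k j Φ δ c hT).1]
  refine ⟨⟨holAt_congr (f := fun y => H y + I • io j a) (fun e he hx => ?_) ha, ?_⟩, p⟩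
  · exact (h.1 e he hx).mono fun w hw => hw.add_const _
  · filter_upwards [h.2, p.eventually_nhds] with y h1 h2 e he hy
    exact (hs_congr (h2.mono fun y' hy' => by simp only [Function.comp, ph0, hy']) e he hy).trans
      (h1 e he hy)

/-- Propagation of the identity for the Hessian on a ball. -/
theorem iso_ball {r : ℕ} {H : M.X → E r} {ψ : E r → ℝ} {φ : M.Fam ℝ} (hw : WtP M φ)
    {e : M.Ch} (he : e ∈ M.C) {c : E n} {R : ℝ} (hs : ball c R ⊆ e.target)
    (ha : ∀ z ∈ ball c R, AnalyticAt ℝ (φ e) z)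
    (hH : DifferentiableOn ℂ (H ∘ e.symm) (ball c R))
    (hψ : ∀ z ∈ ball c R, AnalyticAt ℝ ψ (H (e.symm z))) {z z' : E n} (hz : z ∈ ball c R)
    (h : Iso M (M.hw φ) ψ H (e.symm z)) (hz' : z' ∈ ball c R) :
    Iso M (M.hw φ) ψ H (e.symm z') := by
  have hol : ∀ w ∈ ball c R, HolAt M H (e.symm w) := fun w hw' =>
    holAt_of' he (hs hw') (holN_of_on isOpen_ball hH hw')
  have an : ∀ w ∈ ball c R, AnAt M (ψ ∘ H) (e.symm w) := fun w hw' =>
    anAt_comp (hψ w hw') (anAt_of_hol (hol w hw'))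
  have q := at_ev h.2 he (e.map_target (hs hz))
  rw [e.right_inv (hs hz)] at q
  refine ⟨hol z' hz', (ev_iff' (hs hz')).2 ?_⟩
  filter_upwards [isOpen_ball.mem_nhds hz'] with w hw'
  refine eqAt_hs (smAt_of_an (an w hw')) (ten_hw hw) he (e.map_target (hs hw')) ?_
  rw [e.right_inv (hs hw')]
  exact hr_ball (fun w hw' => at_tgt he (hs hw') (an w hw')) ha hz q hw'

end BWAD

open BWAD KA in
theorem st_WAD (hTV : St_TV) : St_WAD := by
  intro n k j M φ μ Φ δ c hw ha hT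
  have T5 := (hTV k j Φ δ c hT).2.2.2.2.1
  have P2 : ∀ H x, Iso M (M.hw φ) (ph0 Φ) H x → ‖pj (H x)‖ < 2 * δ →
      (Subm M H x ↔ x ∈ X0 M (M.hw φ) (k + j)) := fun H x h hv => by
    have p := point hTV hT h.1 hv h.2.self_of_nhds
    have q : x ∈ X0 M (M.hw φ) (k + j) ↔
        Function.Surjective (fderiv ℂ (H ∘ (M.ch x).symm) (M.ch x x)) := by
      rw [BCH2.surj_iff, ← (at_ch p).2.2.2]
      rfl
    exact ⟨fun s => q.2 (at_ch s), fun s => subm_of h.1 (Mf.ch_mem x) (Mf.mem_ch x) (q.1 s)⟩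
  refine ⟨fun hμ => ⟨fun H x h => h, fun H H' x h t => ?_,
    fun e he a R hs H hH hv z hz h z' hz' => ⟨?_, hv z' hz', ?_⟩⟩, fun H x h hv => ⟨P2 H x h hv, ?_,
      fun e he hx => ?_⟩, fun N hN y hy H hH => ?_⟩
  · obtain ⟨t1, t2⟩ := iso_tr hTV hT h.iso t
    refine ⟨t1, by rw [t2.self_of_nhds]; exact h.val, ?_⟩
    filter_upwards [h.mom, t2] with y h1 h2 i
    rw [h1 i, mu0, mu0, h2]
  · exact iso_ball hw he hs (fun w hw' => ha e he w (hs hw')) hH
      (fun w hw' => (T5 _ (hv w hw')).1) hz h.iso hz'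
  · rw [ev_iff' (hs hz')]
    filter_upwards [isOpen_ball.mem_nhds hz'] with w hw' i
    refine eq_ball (g := μ i ∘ e.symm) (g' := fun w => mu0 Φ (H (e.symm w)) i)
      (fun w hw' => at_tgt he (hs hw') (hμ i _)) (fun w hw' => ?_) hz
      (((ev_iff' (hs hz)).1 h.mom).mono fun w hw' => hw' i) hw'
    exact analyticAt_pi_iff.1 (AnalyticAt.comp (g := mu0 Φ) (f := H ∘ e.symm) (T5 _ (hv w hw')).2.1
      (an_of_hol (holN_of_on isOpen_ball hH hw'))) i
  · filter_upwards [holAt_ev h.1, ev_val h.1 hv, h.2] with y h1 h2 h3 e he hy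
    rw [(point hTV hT h1 h2 h3 e he hy).2.2.2]
    exact Matrix.rank_le_height _
  · obtain ⟨p1, p2, p3, -⟩ := point hTV hT h.1 hv h.2.self_of_nhds e he hx
    exact ⟨p1, p2, p3⟩
  · have he := Mf.ch_mem y
    have hx := Mf.mem_ch y
    obtain ⟨i, i', hi, a, t⟩ := hN n (M.ch y y) (fun i => H i ∘ (M.ch y).symm)
      (fun i => at_ch (hH i).1.iso.1)
      (fun i => by simpa only [Function.comp, Mf.ch_symm] using (hH i).2)
      (fun i => at_ch ((P2 _ _ (hH i).1.iso (hH i).1.val).2 hy)) fun i i' => by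
        filter_upwards [at_ev (hH i).1.iso.2 he hx, at_ev (hH i').1.iso.2 he hx,
          (ev_iff hx).1 (hH i).1.mom, (ev_iff hx).1 (hH i').1.mom] with w h1 h2 h3 h4
        exact ⟨h1.trans h2.symm, funext fun l => (h3 l).symm.trans (h4 l)⟩
    exact ⟨i, i', hi, a, (ev_iff hx).2 t⟩

end Pool.Agent.Lib.RA
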