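import Pool.Agent.Lib.RY.Blue0
import Pool.Agent.Lib.SV.Ext85

/-! Project ra2: generic points, holomorphic germs on a manifold, extension. -/

open scoped Classical Topology
open Set Filter Metric

noncomputable section

namespace Pool.Agent.Lib.RA

open Pool.Agent.Lib.SV (E)
open Pool.Agent.Lib.HS32

/-- The filter of the sets with dense interior. -/
def Ff (X : Type) [TopologicalSpace X] : Filter X where
  sets := {S | Dense (interior S)}
  univ_sets := by simp
  sets_of_superset := fun h hs => Dense.mono (interior_mono hs) h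
  inter_sets := fun {a b} ha hb => by
    rw [mem_ofPred_eq, interior_inter]
    exact Dense.inter_of_isOpen_left ha hb isOpen_interior

/-- Generic points near `x`. -/
abbrev Gn {X : Type} [TopologicalSpace X] (x : X) : Filter X := 𝓝 x ⊓ Ff X

section top

variable {X : Type} [TopologicalSpace X] {p : X → Prop} {x : X}

theorem mem_Ff {S : Set X} : S ∈ Ff X ↔ Dense (interior S) := Iff.rfl

theorem ev_Ff : (∀ᶠ y in Ff X, p y) ↔ ∀ x, ∃ᶠ y in 𝓝 x, ∀ᶠ z in 𝓝 y, p z :=
  forall_congr' fun x => by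
    rw [mem_closure_iff_frequently]
    exact frequently_congr (Eventually.of_forall fun y => mem_interior_iff_mem_nhds)

theorem Ff_nhds (h : ∀ᶠ y in Ff X, p y) : ∀ᶠ y in Ff X, ∀ᶠ z in 𝓝 y, p z :=
  ev_Ff.2 fun x => (ev_Ff.1 h x).mono fun _ hy => hy.eventually_nhds

theorem ev_Gn : (∀ᶠ y in Gn x, p y) ↔ ∀ᶠ y in 𝓝 x, ∃ᶠ z in 𝓝 y, ∀ᶠ w in 𝓝 z, p w := by
  constructor
  · intro h
    obtain ⟨U, hU, S, hS, e⟩ := mem_inf_iff.1 h
    filter_upwards [eventually_mem_nhds_iff.2 hU] with y hy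
    refine ((ev_Ff.1 hS y).and_eventually (eventually_mem_nhds_iff.2 hy)).mono fun z hz => ?_
    filter_upwards [hz.1, hz.2] with w a b
    exact (e.symm.subset ⟨b, a⟩ : w ∈ {y | p y})
  · intro h
    obtain ⟨U, hU, ho, hx⟩ := eventually_nhds_iff.1 h
    refine mem_inf_iff.2 ⟨U ∪ {y | p y}, mem_of_superset (ho.mem_nhds hx) subset_union_left,
      {y | y ∈ U → p y}, ev_Ff.2 fun y => ?_, ?_⟩
    · by_cases hy : ∃ᶠ z in 𝓝 y, z ∈ U
      · refine (frequently_frequently_nhds.1 (hy.mono fun z hz => hU z hz)).mono fun z hz => ?_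
        exact hz.mono fun w a _ => a
      · exact ((not_frequently.1 hy).eventually_nhds.mono fun z hz =>
          hz.mono fun w a b => absurd b a).frequently
    · ext y
      exact ⟨fun a => ⟨Or.inr a, fun _ => a⟩, fun a => a.1.elim a.2 id⟩

theorem Gn_of_nhds (h : ∀ᶠ y in 𝓝 x, p y) : ∀ᶠ y in Gn x, p y := h.filter_mono inf_le_left

theorem Gn_of_Ff (h : ∀ᶠ y in Ff X, p y) (x : X) : ∀ᶠ y in Gn x, p y := h.filter_mono inf_le_right

theorem Gn_near (h : ∀ᶠ y in Gn x, p y) : ∀ᶠ y in 𝓝 x, ∀ᶠ z in Gn y, p z :=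
  (ev_Gn.1 h).eventually_nhds.mono fun _ hy => ev_Gn.2 hy

theorem Gn_freq (h : ∀ᶠ y in Gn x, p y) : ∃ᶠ y in 𝓝 x, ∀ᶠ z in 𝓝 y, p z :=
  (ev_Gn.1 h).self_of_nhds

theorem Gn_nhds (h : ∀ᶠ y in Gn x, p y) : ∀ᶠ y in Gn x, ∀ᶠ z in 𝓝 y, p z :=
  ev_Gn.2 ((ev_Gn.1 h).mono fun _ hy => hy.mono fun _ hz => hz.eventually_nhds)

theorem Ff_of_Gn (h : ∀ x : X, ∀ᶠ y in Gn x, p y) : ∀ᶠ y in Ff X, p y :=
  ev_Ff.2 fun x => Gn_freq (h x)

instance Gn_neBot (x : X) : (Gn x).NeBot :=
  eventually_false_iff_eq_bot.not.1 (fun h => by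
    obtain ⟨_, hy⟩ := (Gn_freq h).exists
    exact hy.self_of_nhds) |> neBot_iff.2

instance Ff_neBot [h : Nonempty X] : (Ff X).NeBot := (Gn_neBot h.some).mono inf_le_right

theorem eq_of_Gn {F : Type} [TopologicalSpace F] [T2Space F] {f g : X → F} (hf : ContinuousAt f x)
    (hg : ContinuousAt g x) (e : f =ᶠ[Gn x] g) : f x = g x :=
  tendsto_nhds_unique_of_eventuallyEq (hf.tendsto.mono_left inf_le_left)
    (hg.tendsto.mono_left inf_le_left) e

theorem le_of_Gn {f g : X → ℝ} (hf : ContinuousAt f x) (hg : ContinuousAt g x)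
    (e : ∀ᶠ y in Gn x, f y ≤ g y) : f x ≤ g x :=
  le_of_tendsto_of_tendsto (hf.tendsto.mono_left inf_le_left) (hg.tendsto.mono_left inf_le_left) e

end top

section hol

variable {n : ℕ} {F : Type} [NormedAddCommGroup F] [NormedSpace ℂ F]

variable {M : Mf n} {f g : M.X → F} {a b : M.X → ℂ} {x : M.X} {e : M.Ch}

theorem ev_ch {p : M.X → Prop} (hx : x ∈ e.source) :
    (∀ᶠ y in 𝓝 x, p y) ↔ ∀ᶠ w in 𝓝 (e x), p (e.symm w) := by
  rw [← e.symm_map_nhds_eq hx, eventually_map]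

theorem fr_ch {p : M.X → Prop} (hx : x ∈ e.source) :
    (∃ᶠ y in 𝓝 x, p y) ↔ ∃ᶠ w in 𝓝 (e x), p (e.symm w) := by
  rw [← e.symm_map_nhds_eq hx, frequently_map]

theorem ev_ch' {p : E n → Prop} (hx : x ∈ e.source) (h : ∀ᶠ w in 𝓝 (e x), p w) :
    ∀ᶠ y in 𝓝 x, p (e y) := (e.continuousAt hx).eventually h

theorem holAt_of_ch (he : e ∈ M.C) (hx : x ∈ e.source) (h : HolN (f ∘ e.symm) (e x)) :
    HolAt M f x := fun e' he' hx' => by
  obtain ⟨h1, -, -, h2, -⟩ := (mTR n M).2.1 e he e' he' x hx hx'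
  have h3 : ∀ᶠ w in 𝓝 (e' x), DifferentiableAt ℂ (f ∘ e.symm) (e (e'.symm w)) :=
    (ev_ch hx').1 (ev_ch' hx h)
  filter_upwards [h1, h2.eventually_nhds, h3] with w a b c
  refine (c.comp w a).congr_of_eventuallyEq (b.mono fun v hv => ?_)
  simp only [Function.comp, hv.2.2.2.2.1]

/-- A holomorphic function of the coordinates. -/
theorem holAt_comp_ch {G : E n → F} (he : e ∈ M.C) (hx : x ∈ e.source) (h : HolN G (e x)) :
    HolAt M (fun y => G (e y)) x := holAt_of_ch he hx <| by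
  filter_upwards [h, eventually_mem_nhds_iff.2 (e.open_target.mem_nhds (e.map_source hx))]
    with w a b
  refine a.congr_of_eventuallyEq (mem_of_superset b fun v hv => ?_)
  simp only [mem_ofPred_eq, Function.comp, e.right_inv hv]

theorem HolAt.ch (h : HolAt M f x) : HolN (f ∘ (M.ch x).symm) (M.ch x x) :=
  h _ (Mf.ch_mem x) (Mf.mem_ch x)

theorem HolAt.near (h : HolAt M f x) : ∀ᶠ y in 𝓝 x, HolAt M f y := by
  filter_upwards [ev_ch' (Mf.mem_ch x) h.ch.eventually_nhds,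
    (M.ch x).open_source.mem_nhds (Mf.mem_ch x)] with y a b using holAt_of_ch (Mf.ch_mem x) b a

theorem HolAt.congr (h : HolAt M f x) (e : g =ᶠ[𝓝 x] f) : HolAt M g x := fun _ hc hx => by
  filter_upwards [h _ hc hx, ((ev_ch hx).1 e).eventually_nhds] with w a b using
    a.congr_of_eventuallyEq b

theorem HolAt.eq_of_Gn (hf : HolAt M f x) (hg : HolAt M g x) (e : f =ᶠ[Gn x] g) : f =ᶠ[𝓝 x] g := by
  filter_upwards [hf.near, hg.near, Gn_near e] with y a b c using RA.eq_of_Gn a.cont b.cont c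

theorem holAt_const (c : F) : HolAt M (fun _ => c) x := fun _ _ _ =>
  Eventually.of_forall fun _ => differentiableAt_const c

theorem HolAt.comp {F' : Type} [NormedAddCommGroup F'] [NormedSpace ℂ F'] {φ : F → F'}
    (h : HolAt M f x) (hφ : ∀ᶠ v in 𝓝 (f x), DifferentiableAt ℂ φ v) :
    HolAt M (fun y => φ (f y)) x := fun c hc hx => by
  filter_upwards [h c hc hx, (ev_ch hx).1 (h.cont.eventually hφ)] with w a b
  exact DifferentiableAt.comp (g := φ) (f := f ∘ c.symm) w b a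

theorem HolAt.prodMk {F' : Type} [NormedAddCommGroup F'] [NormedSpace ℂ F'] {g : M.X → F'}
    (hf : HolAt M f x) (hg : HolAt M g x) : HolAt M (fun y => (f y, g y)) x := fun c hc hx => by
  filter_upwards [hf c hc hx, hg c hc hx] with w a b using a.prodMk b

theorem HolAt.add (hf : HolAt M f x) (hg : HolAt M g x) : HolAt M (fun y => f y + g y) x :=
  fun c hc hx => by filter_upwards [hf c hc hx, hg c hc hx] with w a b using a.add b

theorem HolAt.sub (hf : HolAt M f x) (hg : HolAt M g x) : HolAt M (fun y => f y - g y) x :=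
  fun c hc hx => by filter_upwards [hf c hc hx, hg c hc hx] with w a b using a.sub b

theorem HolAt.neg (hf : HolAt M f x) : HolAt M (fun y => -f y) x :=
  fun c hc hx => by filter_upwards [hf c hc hx] with w a using a.neg

theorem HolAt.smul (ha : HolAt M a x) (hf : HolAt M f x) : HolAt M (fun y => a y • f y) x :=
  fun c hc hx => by filter_upwards [ha c hc hx, hf c hc hx] with w a b using a.smul b

theorem HolAt.mul (ha : HolAt M a x) (hb : HolAt M b x) : HolAt M (fun y => a y * b y) x := ha.smul hb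

theorem HolAt.pow (ha : HolAt M a x) (m : ℕ) : HolAt M (fun y => a y ^ m) x :=
  ha.comp (φ := fun v : ℂ => v ^ m) (Eventually.of_forall fun _ => differentiableAt_pow m)

theorem HolAt.inv (ha : HolAt M a x) (h0 : a x ≠ 0) : HolAt M (fun y => (a y)⁻¹) x :=
  ha.comp (φ := fun v : ℂ => v⁻¹) ((eventually_ne_nhds h0).mono fun _ h => differentiableAt_inv h)

theorem HolAt.div (ha : HolAt M a x) (hb : HolAt M b x) (h0 : b x ≠ 0) :
    HolAt M (fun y => a y / b y) x := by
  simpa only [div_eq_mul_inv] using ha.mul (hb.inv h0)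

theorem holAt_sum {ι : Type} {s : Finset ι} {f : ι → M.X → F} (h : ∀ i ∈ s, HolAt M (f i) x) :
    HolAt M (fun y => ∑ i ∈ s, f i y) x := by
  induction s using Finset.induction_on with
  | empty => simpa using holAt_const 0
  | insert i s hi ih =>
    simp only [Finset.sum_insert hi]
    exact (h i (Finset.mem_insert_self _ _)).add
      (ih fun j hj => h j (Finset.mem_insert_of_mem hj))

theorem holAt_prod {ι : Type} {s : Finset ι} {f : ι → M.X → ℂ} (h : ∀ i ∈ s, HolAt M (f i) x) :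
    HolAt M (fun y => ∏ i ∈ s, f i y) x := by
  induction s using Finset.induction_on with
  | empty => simpa using holAt_const 1
  | insert i s hi ih =>
    simp only [Finset.prod_insert hi]
    exact (h i (Finset.mem_insert_self _ _)).mul
      (ih fun j hj => h j (Finset.mem_insert_of_mem hj))

theorem holAt_pi {ι : Type} [Fintype ι] {f : M.X → ι → F} :
    HolAt M f x ↔ ∀ i, HolAt M (fun y => f y i) x :=
  ⟨fun h i c hc hx => (h c hc hx).mono fun _ a => differentiableAt_pi.1 a i,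
    fun h c hc hx => (eventually_all.2 fun i => h i c hc hx).mono fun _ a =>
      differentiableAt_pi.2 a⟩

/-- The identity theorem near a point. -/
theorem HolAt.zero_of_freq [CompleteSpace F] (h : HolAt M f x) (h0 : ∃ᶠ y in 𝓝 x, f =ᶠ[𝓝 y] 0) :
    f =ᶠ[𝓝 x] 0 := by
  have hx := Mf.mem_ch x
  refine (ev_ch hx).2 (SV.H85.eventually_zero_of_frequently h.ch ?_)
  refine (((fr_ch hx).1 h0).and_eventually ((M.ch x).open_target.mem_nhds (Mf.ch_tgt x))).mono
    fun w hw => ?_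
  have := (ev_ch ((M.ch x).map_target hw.2)).1 hw.1
  rwa [(M.ch x).right_inv hw.2] at this

theorem HolAt.ne_Gn [CompleteSpace F] (h : HolAt M f x) (h0 : ∃ᶠ y in 𝓝 x, f y ≠ 0) :
    ∀ᶠ y in Gn x, f y ≠ 0 := by
  refine ev_Gn.2 (by_contra fun hc => h0 ((h.zero_of_freq ?_).mono fun y a b => b a))
  refine ((not_eventually.1 hc).and_eventually h.near.eventually_nhds).mono fun y hy => ?_
  filter_upwards [not_frequently.1 hy.1, hy.2] with z a b
  exact by_contra fun c => a (b.cont.eventually_ne c)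

theorem freq_of_Gn {X : Type} [TopologicalSpace X] {p : X → Prop} {x : X}
    (h : ∀ᶠ y in Gn x, p y) : ∃ᶠ y in 𝓝 x, p y := (Gn_freq h).mono fun _ a => a.self_of_nhds

theorem HolAt.nz_near [CompleteSpace F] (h : HolAt M f x) (h0 : ∃ᶠ y in 𝓝 x, f y ≠ 0) :
    ∀ᶠ y in 𝓝 x, ∃ᶠ z in 𝓝 y, f z ≠ 0 := (Gn_near (h.ne_Gn h0)).mono fun _ => freq_of_Gn

theorem HolAt.nz_mul (ha : HolAt M a x) (hb : HolAt M b x) (h : ∃ᶠ y in 𝓝 x, a y ≠ 0)
    (h' : ∃ᶠ y in 𝓝 x, b y ≠ 0) : ∃ᶠ y in 𝓝 x, a y * b y ≠ 0 :=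
  freq_of_Gn (((ha.ne_Gn h).and (hb.ne_Gn h')).mono fun _ c => mul_ne_zero c.1 c.2)

/-- The identity theorem on a connected open set. -/
theorem holAt_eqOn_zero [CompleteSpace F] {O : Set M.X} (hc : IsPreconnected O)
    (hf : ∀ y ∈ O, HolAt M f y) (hx : x ∈ O) (h0 : f =ᶠ[𝓝 x] 0) : ∀ y ∈ O, f =ᶠ[𝓝 y] 0 := by
  refine hc.subset_of_closure_inter_subset (u := {y | f =ᶠ[𝓝 y] 0}) isOpen_setOfPred_eventually_nhds
    ⟨x, hx, h0⟩ fun y hy => (hf y hy.2).zero_of_freq (mem_closure_iff_frequently.1 hy.1)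

/-- The extension theorem of Riemann. -/
theorem holAt_rex {δ : M.X → ℂ} {C : ℝ} (hδ : HolAt M δ x) (h0 : ∃ᶠ y in 𝓝 x, δ y ≠ 0)
    (ha : ∀ᶠ y in 𝓝 x, δ y ≠ 0 → HolAt M a y ∧ ‖a y‖ ≤ C) :
    ∃ u : M.X → ℂ, HolAt M u x ∧ ∀ᶠ y in 𝓝 x, δ y ≠ 0 → u y = a y := by
  have hx := Mf.mem_ch x
  have he := Mf.ch_mem x
  generalize M.ch x = e at hx he
  obtain ⟨r, r0, hr⟩ := Metric.eventually_nhds_iff_ball.1 ((hδ e he hx).and
    (((ev_ch hx).1 ha).and (e.open_target.mem_nhds (e.map_source hx))))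
  obtain ⟨G, hG⟩ := SV.H85.ext_local MeasureTheory.volume (f := a ∘ e.symm) (j := δ ∘ e.symm)
    isOpen_ball (fun w hw => (hr w hw).1.differentiableWithinAt)
    (fun w hw => by
      have h1 := ((hr w hw.1).2.1 hw.2).1 e he (e.map_target (hr w hw.1).2.2)
      rw [e.right_inv (hr w hw.1).2.2] at h1
      exact h1.self_of_nhds.differentiableWithinAt)
    (by
      refine ne_top_of_le_ne_top ?_ (MeasureTheory.setLIntegral_mono
        (g := fun _ => ENNReal.ofReal (C ^ 2)) measurable_const fun w hw =>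
          ENNReal.ofReal_le_ofReal (pow_le_pow_left₀ (norm_nonneg _) ?_ 2))
      · rw [MeasureTheory.setLIntegral_const]
        exact ENNReal.mul_ne_top ENNReal.ofReal_ne_top (ne_top_of_le_ne_top
          (MeasureTheory.measure_ball_lt_top (x := e x) (r := r)).ne
          (MeasureTheory.measure_mono fun w hw => hw.1))
      · exact ((hr w hw.1).2.1 hw.2).2)
    (mem_ball_self r0) (not_eventually.2 ((fr_ch hx).1 h0))
  refine ⟨fun y => G (e y), holAt_comp_ch he hx (hG.mono fun _ h => h.1), ?_⟩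
  filter_upwards [ev_ch' hx hG, e.open_source.mem_nhds hx] with y h1 h2 h3
  have := h1.2 (by simpa only [Function.comp, e.left_inv h2] using h3)
  simpa only [Function.comp, e.left_inv h2] using this

end hol

end Pool.Agent.Lib.RA
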