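import Pool.Agent.Lib.RY.G71
import Pool.Agent.Lib.RY.Gen

/-! Project ra2, row G1: the proper map to the local model. -/

open scoped Classical Topology ContDiff ComplexOrder Matrix
open Set Complex Metric Filter

set_option linter.unusedVariables false

noncomputable section

namespace Pool.Agent.Lib.RA

open Pool.Agent.Lib.SV (E)
open Pool.Agent.Lib.HS32

namespace G71

variable {n r : ℕ} {M : Mf n} {L : M.Co} {G : M.Fam (Mat n)} {φ : M.Fam ℝ} {m : ℕ} {s : M.Fam ℂ}
  {W : Set M.X} {e : M.Ch} {x : M.X} {T H : M.X → E r} {Φ : E r × E r → ℂ} {δ c : ℝ}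

/-- The data. -/
structure Dt (L : M.Co) (G : M.Fam (Mat n)) (φ : M.Fam ℝ) (m : ℕ) (s : M.Fam ℂ) (W : Set M.X)
    (T : M.X → E r) (Φ : E r × E r → ℂ) (δ c : ℝ) : Prop where
  su : Su M G φ r
  wc : M.WtC L φ
  m0 : 0 < m
  sec : MerSec M L m s W
  op : IsOpen W
  den : Dense W
  con : ∀ e ∈ M.C, ∀ c R, ball c R ⊆ e.target → IsPreconnected (ball c R ∩ e.symm ⁻¹' W)
  rex : ∀ (f : M.X → ℂ) (x : M.X) (C : ℝ), (∀ᶠ y in 𝓝 x, y ∈ W → HolAt M f y ∧ ‖f y‖ ≤ C) →
    ∃ f', HolAt M f' x ∧ ∀ᶠ y in 𝓝 x, y ∈ W → f' y = f y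
  hol : ∀ x ∈ W, HolAt M T x
  tv : Tv0 Φ δ c

/-- The germs that extend the basic functions. -/
structure QQ (φ : M.Fam ℝ) (m : ℕ) (s : M.Fam ℂ) (W : Set M.X) (T : M.X → E r)
    (Φ : E r × E r → ℂ) (δ : ℝ) (H : M.X → E r) (x : M.X) : Prop where
  hol : HolAt M H x
  val : ‖H x‖ < 2 * δ
  eq : ∀ᶠ y in 𝓝 x, y ∈ W → H y = T y ∧ M.ev (uc φ m s) y = pt Φ (H y)

theorem QQ.near (h : QQ φ m s W T Φ δ H x) : ∀ᶠ y in 𝓝 x, QQ φ m s W T Φ δ H y := by
  filter_upwards [h.hol.near, h.hol.cont.norm.eventually_lt_const h.val, h.eq.eventually_nhds]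
    with y a b d using ⟨a, b, d⟩

theorem QQ.lim (hW : Dense W) (h : QQ φ m s W T Φ δ H x) :
    (fun y => limUnder (𝓝[W] y) T) =ᶠ[𝓝 x] H ∧
      QQ φ m s W T Φ δ (fun y => limUnder (𝓝[W] y) T) x := by
  have a : (fun y => limUnder (𝓝[W] y) T) =ᶠ[𝓝 x] H := h.near.mono fun y hy =>
    lim_eq hW hy.hol.cont (hy.eq.mono fun _ b d => (b d).1)
  refine ⟨a, h.hol.congr a, (congrArg norm a.self_of_nhds).trans_lt h.val, ?_⟩
  filter_upwards [a, h.eq] with y b d hy
  rw [b]; exact d hy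

theorem QQ.an (D : Dt L G φ m s W T Φ δ c) (h : QQ φ m s W T Φ δ H x) (he : e ∈ M.C)
    (hx : x ∈ e.source) : AnalyticAt ℝ (pt Φ) ((H ∘ e.symm) (e x)) := by
  rw [Function.comp_apply, e.left_inv hx]
  exact (pt_an D.tv h.val).1

theorem QQ.iso (D : Dt L G φ m s W T Φ δ c) (h : QQ φ m s W T Φ δ H x) (he : e ∈ M.C)
    (hx : x ∈ e.source) : hr (pt Φ ∘ (H ∘ e.symm)) (e x) = hr (φ e) (e x) := by
  have c1 : ∀ u : E n → ℝ, AnalyticAt ℝ u (e x) → ContinuousAt (fun y => hr u (e y)) x :=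
    fun u hu => (smM_hess (cd_ofReal hu.contDiffAt)).continuousAt.comp (e.continuousAt hx)
  refine eq_dense (x := x) D.den (c1 _ ((h.an D he hx).comp (KA.an_of_hol (h.hol e he hx))))
    (c1 _ (D.su.an.at he hx)) ?_
  filter_upwards [h.eq.eventually_nhds, e.open_source.mem_nhds hx] with y a b hy
  rw [← (uc_an (m := m) (D.su.an.at he b) (D.sec.hol y hy e he b)).2,
    ← KA.hr_congr (uu_ev D.wc D.m0 D.sec D.op he b hy)]
  refine KA.hr_congr (KA.eq_chart (f := pt Φ ∘ H) ?_ b)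
  filter_upwards [a, D.op.mem_nhds hy] with w a b using (a b).2.symm

theorem QQ.lo (D : Dt L G φ m s W T Φ δ c) (h : QQ φ m s W T Φ δ H x) :
    At M x fun e z => (M.hw φ e z - (c : ℂ) • pb M H 1 e z).PosSemidef := by
  intro e he hx
  have a := (D.tv.lo _ (mem_ball_zero_iff.2 h.val)).conjTranspose_mul_mul_same
    (jr (H ∘ e.symm) (e x))
  rw [KA.hw_eq, ← h.iso D he hx, hr_comp (h.hol e he hx) (h.an D he hx), Function.comp_apply,
    e.left_inv hx, (pt_an D.tv h.val).2, pb]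
  rwa [Matrix.mul_sub, Matrix.sub_mul, Matrix.mul_smul, Matrix.smul_mul] at a

theorem QQ.ext (D : Dt L G φ m s W T Φ δ c) (h : QQ φ m s W T Φ δ H x) (he : e ∈ M.C)
    (hx : x ∈ e.source) : ∃ a, HolAt M a x ∧ a x ≠ 0 ∧ (∀ᶠ y in 𝓝 x, y ∈ W → a y = s e (e y)) ∧
      ∀ᶠ y in 𝓝 x, limUnder (𝓝[W] y) (fun y => s e (e y)) = a y := by
  have hc : ContinuousAt (fun y => Real.exp (m * (φ e (e y) - pt Φ (H y)))) x :=
    (continuousAt_const.mul (((D.su.an.at he hx).continuousAt.comp (e.continuousAt hx)).sub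
      ((pt_an D.tv h.val).1.continuousAt.comp h.hol.cont))).rexp
  have hN : ∀ᶠ y in 𝓝 x, y ∈ W → HolAt M (fun y => s e (e y)) y ∧
      normSq (s e (e y)) = Real.exp (m * (φ e (e y) - pt Φ (H y))) := by
    filter_upwards [h.eq, e.open_source.mem_nhds hx] with y a b hy
    have h1 := D.sec.hol y hy e he b
    have h5 : (m : ℝ) ≠ 0 := Nat.cast_ne_zero.2 D.m0.ne'
    refine ⟨holAt_comp_ch he b h1.1, ?_⟩
    rw [← (a hy).2, uu_ch D.wc D.m0 D.sec he b hy, uc, sub_sub_cancel, mul_inv_cancel_left₀ h5,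
      Real.exp_log (normSq_pos.2 h1.2)]
  obtain ⟨a, ha, h2⟩ := D.rex (fun y => s e (e y)) x _ (by
    filter_upwards [hN, hc.eventually_lt_const (lt_add_one _)] with y a b hy
    exact ⟨(a hy).1, Real.sqrt_le_sqrt ((a hy).2.trans_lt b).le⟩)
  refine ⟨a, ha, normSq_pos.1 ?_, h2, ?_⟩
  · exact (Real.exp_pos _).trans_eq (eq_dense D.den (continuous_normSq.continuousAt.comp ha.cont) hc
      ((h2.and hN).mono fun y b hy => (congrArg normSq (b.1 hy)).trans (b.2 hy).2)).symm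
  · filter_upwards [ha.near, h2.eventually_nhds] with y b d using lim_eq D.den b.cont d

theorem closed (D : Dt L G φ m s W T Φ δ c) :
    IsClosed {x | QQ φ m s W T Φ δ (fun y => limUnder (𝓝[W] y) T) x ∧
      ‖limUnder (𝓝[W] x) T‖ ≤ δ} := by
  refine isClosed_of_closure_subset fun x hx => ?_
  rw [mem_closure_iff_frequently] at hx
  suffices h : ∃ H, QQ φ m s W T Φ δ H x by
    obtain ⟨H, h⟩ := h
    have h2 := (h.lim D.den).2
    exact ⟨h2, isClosed_Iic.mem_of_frequently_of_tendsto (hx.mono fun _ a => a.2)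
      h2.hol.cont.norm⟩
  obtain ⟨e, he, hm⟩ := M.cov x
  obtain ⟨R₁, R1, F, p1, p2⟩ := st_POL.1 n _ _ (D.su.an.at he hm)
  obtain ⟨R, R0, hb⟩ := nhds_basis_closedBall.mem_iff.1
    (inter_mem (e.open_target.mem_nhds (e.map_source hm)) (ball_mem_nhds _ R1))
  have hT := KA.ten_hw D.su.wt
  obtain ⟨L, L0, hL⟩ := BBD.up (isCompact_closedBall (e x) R) fun z hz =>
    BBD.sn_cont (hT.sm e he z (hb hz).1)
  have hR : ball (e x) R ⊆ ball (e x) R₁ := fun z hz => (hb (ball_subset_closedBall hz)).2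
  have d0 := D.tv.d0
  obtain ⟨r₀, r0, hE⟩ := st_EXT n r Φ δ c L (δ / 4) D.tv L0 (by positivity)
  have s0 : 0 < min r₀ (R / 2) := by positivity
  obtain ⟨y, ⟨q, v⟩, hy, hyb⟩ := (hx.and_eventually ((e.open_source.eventually_mem hm).and
    ((e.continuousAt hm).eventually (ball_mem_nhds _ s0)))).exists
  set H : M.X → E r := fun y => limUnder (𝓝[W] y) T with hH
  have sub : ball (e y) (min r₀ (R / 2)) ⊆ ball (e x) R := ball_subset_ball' (by
    have := mem_ball.1 hyb
    have := min_le_right r₀ (R / 2)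
    linarith)
  have st : ball (e y) (min r₀ (R / 2)) ⊆ e.target := fun z hz =>
    (hb (ball_subset_closedBall (sub hz))).1
  have v' : ‖(H ∘ e.symm) (e y)‖ ≤ δ := by rwa [Function.comp_apply, e.left_inv hy]
  obtain ⟨H', a1, a2, a3⟩ := hE (φ e) F (e x) R (H ∘ e.symm) (e y) _
    ⟨p1.mono fun w hw => PK.mem_ball_dg.2 ⟨hR (PK.mem_ball_dg.1 hw).1,
      PK.star_mem_ball'.1 (hR (PK.star_mem_ball'.2 (PK.mem_ball_dg.1 hw).2))⟩,
      fun z hz => p2 z (hR hz)⟩
    (fun z hz w => (le_abs_self _).trans ((BBD.nq_abs _ w).trans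
      (mul_le_mul_of_nonneg_right (hL z (ball_subset_closedBall hz)) (sq_nonneg _))))
    s0 (min_le_left _ _) sub (q.hol e he hy) (by linarith) (by
      filter_upwards [(KA.ev_iff hy).1 q.near, e.open_target.mem_nhds (e.map_source hy)] with w a b
      have := a.iso D he (e.map_target b)
      rwa [e.right_inv b] at this) (by
      refine (((fr_ch hy).1 (mem_closure_iff_frequently.1 (D.su.den y))).and_eventually
        (e.open_target.mem_nhds (e.map_source hy))).mono fun w a => ?_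
      have := KA.rank_ev hT he (e.map_target a.2)
      rw [e.right_inv a.2] at this
      exact this.symm.trans a.1)
  have vb : ∀ z ∈ ball (e y) (min r₀ (R / 2)), ‖H' z‖ < 2 * δ := fun z hz => by
    linarith [norm_sub_norm_le (H' z) ((H ∘ e.symm) (e y)), (a3 z hz).1]
  obtain ⟨y', w1, w2, w3, w4, w5⟩ := ((mem_closure_iff_frequently.1 (D.den y)).and_eventually
    ((e.open_source.eventually_mem hy).and (((e.continuousAt hy).eventually (ball_mem_nhds _ s0)).and
      ((ev_ch' hy a2.eventually_nhds).and q.eq.eventually_nhds)))).exists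
  have key := AnalyticOnNhd.eqOn_of_preconnected_of_eventuallyEq (𝕜 := ℝ)
    (f := fun w => (H' w, pt Φ (H' w))) (g := fun w => (T (e.symm w), M.ev (uc φ m s) (e.symm w)))
    (fun w hw => by
      have a := KA.an_of_hol (KA.holN_of_on isOpen_ball a1 hw.1)
      exact a.prod ((pt_an D.tv (vb w hw.1)).1.comp a))
    (fun w hw => by
      have b := e.map_target (st hw.1)
      have a := (KA.an_of_hol (D.hol _ hw.2 e he b)).prod
        ((uc_an (m := m) (D.su.an.at he b) (D.sec.hol _ hw.2 e he b)).1.congr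
          (uu_ev D.wc D.m0 D.sec D.op he b hw.2).symm)
      rwa [e.right_inv (st hw.1)] at a)
    (D.con e he _ _ st) (z₀ := e y') ⟨w3, by rwa [mem_preimage, e.left_inv w2]⟩ (by
      filter_upwards [w4, (KA.ev_iff w2).1 w5, (KA.ev_iff w2).1 (D.op.eventually_mem w1)]
        with w a b d
      rw [a, Function.comp_apply, (b d).2, (b d).1])
  have xb : e x ∈ ball (e y) (min r₀ (R / 2)) := mem_ball_comm.1 hyb
  refine ⟨fun y => H' (e y), holAt_comp_ch he hm (KA.holN_of_on isOpen_ball a1 xb), vb _ xb, ?_⟩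
  filter_upwards [e.open_source.mem_nhds hm,
    (e.continuousAt hm).eventually (isOpen_ball.mem_nhds xb)] with w a b d
  have := key (x := e w) ⟨b, by rwa [mem_preimage, e.left_inv a]⟩
  simp only [e.left_inv a, Prod.mk.injEq] at this
  exact ⟨this.1, this.2.symm⟩

end G71

open G71 in
theorem st_G1 (hM : St_MER) : St_G1 := by
  intro n r m M _ L G φ x τ W s hS hL hB
  obtain ⟨den, -, con, -, -, -, rex⟩ := (hM n M).2.1.2 W hB.cot
  obtain ⟨e, he, hx⟩ := M.cov x
  have op := hB.cot.1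
  have hol : ∀ y ∈ W, HolAt M (fun y => τ y - τ x) y := fun y hy =>
    (hB.hol y hy).sub (holAt_const _)
  have fd : ∀ (e : M.Ch) z, fderiv ℂ ((fun y => τ y - τ x) ∘ e.symm) z = fderiv ℂ (τ ∘ e.symm) z :=
    fun e z => fderiv_sub_const (f := τ ∘ e.symm) _
  have u := fun y hy hW => uc_an (m := m) (hS.an.at (x := y) he hy) (hB.sec.hol y hW e he hy)
  have m5 : (m : ℝ) ≠ 0 := Nat.cast_ne_zero.2 hB.m0.ne'
  obtain ⟨Φ, δ, c, tv, h⟩ := loc (u x hx hB.mem).1 (hol x hB.mem e he hx)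
    (by simp [e.left_inv hx]) (by rw [fd]; exact hB.sub e he hx)
    (by rw [(u x hx hB.mem).2]; simpa [KA.hw_eq] using hS.psd.at he hx)
    (by rw [(u x hx hB.mem).2]; exact (KA.rank_ev (KA.ten_hw hS.wt) he hx).symm.trans hB.rk) (by
      filter_upwards [KA.at_ev hB.kt he hx, KA.at_ev hB.ks he hx,
        (KA.ev_iff hx).1 (op.eventually_mem hB.mem), e.open_target.mem_nhds (e.map_source hx)]
        with w a b d t
      have := u _ (e.map_target t) d
      rw [e.right_inv t] at this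
      rw [this.2, fd]
      refine ⟨hS.le e he w t, fun v hv => ⟨a v hv, ?_⟩⟩
      have e1 : (fun w => Real.log (normSq (s e w)) - m * φ e w) =
          fun w => -m * uc φ m s e w := by
        funext w
        rw [uc]
        field_simp
        ring
      have e2 : dv1 (fun w => -m * uc φ m s e w) w = (-m : ℂ) • dv1 (uc φ m s e) w := by
        funext i
        simp only [dv1, ofReal_mul, ofReal_neg, ofReal_natCast, Pi.smul_apply, smul_eq_mul]
        exact dz_const_mul _ (cd_diff (cd_ofReal this.1.contDiffAt))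
      have e3 := b v hv
      rw [e1, e2, smul_dotProduct, smul_eq_mul, mul_eq_zero] at e3
      exact e3.resolve_left (neg_ne_zero.2 (Nat.cast_ne_zero.2 hB.m0.ne')))
  have D : Dt L G φ m s W (fun y => τ y - τ x) Φ δ c :=
    ⟨hS, hL, hB.m0, hB.sec, op, den, con, rex, hol, tv⟩
  have q : QQ φ m s W (fun y => τ y - τ x) Φ δ (fun y => τ y - τ x) x :=
    ⟨hol x hB.mem, by simpa using tv.d0, by
      filter_upwards [ev_ch' hx h, e.open_source.mem_nhds hx] with y a b d
      rw [uu_ch hL hB.m0 hB.sec he b d, a, Function.comp_apply, e.left_inv b]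
      exact ⟨rfl, rfl⟩⟩
  obtain ⟨q1, q2⟩ := q.lim den
  refine ⟨{y | QQ φ m s W (fun y => τ y - τ x) Φ δ
    (fun y => limUnder (𝓝[W] y) fun y => τ y - τ x) y}, _, δ, c,
    fun e z => limUnder (𝓝[W] (e.symm z)) fun y => s e (e y), hB.m0, tv.d0, tv.c0,
    isOpen_iff_mem_nhds.2 fun y hy => hy.near, q2, q1.self_of_nhds.trans (sub_self _),
    fun y hy => hy.hol, fun e' he' hx' => ?_, closed D, fun y hy => hy.lo D,
    fun a ha b hb y h1 h2 hy => ?_, fun y hy a ha h1 => ?_⟩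
  · beta_reduce
    rw [(KA.eq_chart q1 hx').fderiv_eq (𝕜 := ℂ), fd]
    exact hB.sub e' he' hx'
  · obtain ⟨f, f1, -, f2, f3⟩ := hy.ext D ha h1
    obtain ⟨g, g1, -, g2, g3⟩ := hy.ext D hb h2
    simp only [a.left_inv h1, b.left_inv h2]
    rw [f3.self_of_nhds, g3.self_of_nhds]
    refine eq_dense (g := fun y => f y * L.c a b y ^ m) den g1.cont (f1.cont.mul
      ((((L.hol a ha b hb y h1 h2).self_of_nhds.continuousAt.comp (b.continuousAt h2)).congr
        ((b.open_source.eventually_mem h2).mono fun w hw => by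
          simp only [Function.comp_apply, b.left_inv hw])).pow m)) ?_
    filter_upwards [f2, g2, a.open_source.mem_nhds h1, b.open_source.mem_nhds h2]
      with w p1 p2 p3 p4 hw
    rw [p1 hw, p2 hw]
    exact hB.sec.cmp a ha b hb w p3 p4 hw
  · obtain ⟨f, f1, f0, -, f3⟩ := hy.ext D ha h1
    refine ⟨KA.holN_congr (f1 a ha h1) ((KA.ev_iff h1).1 f3), ?_⟩
    simp only [a.left_inv h1]
    rwa [f3.self_of_nhds]

end Pool.Agent.Lib.RA
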