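import Pool.Agent.Lib.RY.Gen
import Pool.Agent.Lib.RA.T_CONN

/-! Project ra2, row MER: thin sets, meromorphic functions, growth conditions. -/

open scoped Classical Topology
open Set Filter Metric

set_option linter.unusedVariables false

noncomputable section

namespace Pool.Agent.Lib.RA

open Pool.Agent.Lib.SV (E)
open Pool.Agent.Lib.HS32 Pool.Agent.Lib.PN

namespace M86

/-- A dense subset of a connected set that is locally connected in the strong sense. -/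
theorem preconn_of_local {X : Type} [TopologicalSpace X] {A B : Set X} (hB : IsPreconnected B)
    (hA : A ⊆ B) (h : ∀ z ∈ B, z ∈ closure A ∧ ∃ N ∈ 𝓝 z, IsPreconnected (A ∩ N)) :
    IsPreconnected A := by
  intro U V hU hV hs ⟨a, ha, haU⟩ ⟨b, hb, hbV⟩
  by_contra hne
  obtain ⟨z, hz, h1, h2⟩ := hB {z | ∀ᶠ w in 𝓝 z, w ∈ A → w ∈ U} {z | ∀ᶠ w in 𝓝 z, w ∈ A → w ∈ V}
    isOpen_setOfPred_eventually_nhds isOpen_setOfPred_eventually_nhds
    (fun z hz => by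
      obtain ⟨-, N, hN, hc⟩ := h z hz
      by_cases h3 : ((A ∩ N) ∩ U).Nonempty
      · by_cases h4 : ((A ∩ N) ∩ V).Nonempty
        · obtain ⟨w, h5, h6⟩ := hc U V hU hV (inter_subset_left.trans hs) h3 h4
          exact absurd ⟨w, h5.1, h6⟩ hne
        · exact Or.inl (mem_of_superset hN fun w h5 h6 =>
            (hs h6).resolve_right fun h7 => h4 ⟨w, ⟨h6, h5⟩, h7⟩)
      · exact Or.inr (mem_of_superset hN fun w h5 h6 =>
          (hs h6).resolve_left fun h7 => h3 ⟨w, ⟨h6, h5⟩, h7⟩))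
    ⟨a, hA ha, mem_of_superset (hU.mem_nhds haU) fun w h5 _ => h5⟩
    ⟨b, hA hb, mem_of_superset (hV.mem_nhds hbV) fun w h5 _ => h5⟩
  obtain ⟨w, h3, h4⟩ :=
    ((mem_closure_iff_frequently.1 (h z hz).1).and_eventually (Eventually.and h1 h2)).exists
  exact hne ⟨w, h3, h4.1 h3, h4.2 h3⟩

variable {n : ℕ} {M : Mf n} {O O' W W' : Set M.X} {δ δ' a f g : M.X → ℂ} {x : M.X}

/-! ### Denominators -/

theorem dv_one : Dv M univ fun _ => 1 :=
  ⟨isOpen_univ, fun _ _ => holAt_const 1,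
    fun _ _ => (Eventually.of_forall fun _ => one_ne_zero).frequently, fun _ _ => by simp⟩

theorem dv_mono (h : Dv M O δ) (ho : IsOpen O') (hs : O' ⊆ O) : Dv M O' δ :=
  ⟨ho, fun y hy => h.hol y (hs hy), fun y hy => h.ne y (hs hy), fun y hy => h.le y (hs hy)⟩

theorem dv_mul (h : Dv M O δ) (h' : Dv M O' δ') : Dv M (O ∩ O') fun y => δ y * δ' y :=
  ⟨h.op.inter h'.op, fun y hy => (h.hol y hy.1).mul (h'.hol y hy.2),
    fun y hy => (h.hol y hy.1).nz_mul (h'.hol y hy.2) (h.ne y hy.1) (h'.ne y hy.2),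
    fun y hy => by
      rw [norm_mul]
      exact mul_le_one₀ (h.le y hy.1) (norm_nonneg _) (h'.le y hy.2)⟩

theorem dv_pow (h : Dv M O δ) (m : ℕ) : Dv M O fun y => δ y ^ m :=
  ⟨h.op, fun y hy => (h.hol y hy).pow m, fun y hy => (h.ne y hy).mono fun _ => pow_ne_zero m,
    fun y hy => by
      rw [norm_pow]
      exact pow_le_one₀ (norm_nonneg _) (h.le y hy)⟩

theorem dv_gn (h : Dv M O δ) (hx : x ∈ O) : ∀ᶠ y in Gn x, y ∈ O ∧ δ y ≠ 0 :=
  (Gn_of_nhds (h.op.mem_nhds hx)).and ((h.hol x hx).ne_Gn (h.ne x hx))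

theorem dv_near (h : Dv M O δ) (hx : x ∈ O) (h0 : δ x ≠ 0) : ∀ᶠ y in 𝓝 x, y ∈ O ∧ δ y ≠ 0 :=
  Eventually.and (h.op.mem_nhds hx) ((h.hol x hx).cont.eventually_ne h0)

/-- A holomorphic germ that is not zero gives a denominator. -/
theorem dv_of_hol (h : HolAt M a x) (h0 : ∃ᶠ y in 𝓝 x, a y ≠ 0) {U : Set M.X} (hU : U ∈ 𝓝 x) :
    ∃ (O : Set M.X) (C : ℝ), x ∈ O ∧ O ⊆ U ∧ 1 ≤ C ∧ Dv M O fun y => a y / C := by
  have h1 : ∀ᶠ y in 𝓝 x, ‖a y‖ < ‖a x‖ + 1 := h.cont.norm.eventually (gt_mem_nhds (lt_add_one _))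
  obtain ⟨O, h2, h3, h4⟩ := eventually_nhds_iff.1
    (h.near.and ((h.nz_near h0).and (h1.and hU)))
  have h5 : (0 : ℝ) < ‖a x‖ + 1 := by positivity
  have h6 : ((‖a x‖ + 1 : ℝ) : ℂ) ≠ 0 := Complex.ofReal_ne_zero.2 h5.ne'
  refine ⟨O, ‖a x‖ + 1, h4, fun y hy => (h2 y hy).2.2.2, by simp, h3,
    fun y hy => (h2 y hy).1.div (holAt_const _) h6,
    fun y hy => (h2 y hy).2.1.mono fun _ hz => div_ne_zero hz h6, fun y hy => ?_⟩
  rw [norm_div, Complex.norm_real, Real.norm_of_nonneg h5.le, div_le_one h5]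
  exact (h2 y hy).2.2.1.le

theorem dv_fin {ι : Type} [Finite ι] {p : ι → M.X → ℂ → Prop}
    (hp : ∀ i y s t, p i y s → t ≠ 0 → ‖t‖ ≤ ‖s‖ → p i y t)
    (h : ∀ i, ∃ O δ, x ∈ O ∧ Dv M O δ ∧ ∀ y ∈ O, δ y ≠ 0 → p i y (δ y)) :
    ∃ O δ, x ∈ O ∧ Dv M O δ ∧ ∀ y ∈ O, δ y ≠ 0 → ∀ i, p i y (δ y) := by
  induction ι using Finite.induction_empty_option with
  | of_equiv e ih =>
    obtain ⟨O, δ, h1, h2, h3⟩ := ih (p := fun i => p (e i)) (fun i => hp _) fun i => h _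
    exact ⟨O, δ, h1, h2, fun y hy h0 i => by simpa using h3 y hy h0 (e.symm i)⟩
  | h_empty => exact ⟨_, _, mem_univ x, dv_one, fun _ _ _ i => i.elim⟩
  | h_option ih =>
    obtain ⟨O, δ, h1, h2, h3⟩ := ih (p := fun i => p (some i)) (fun i => hp _) fun i => h _
    obtain ⟨O', δ', h4, h5, h6⟩ := h none
    refine ⟨_, _, mem_inter h1 h4, dv_mul h2 h5, fun y hy h0 i => ?_⟩
    cases i with
    | none =>
      refine hp _ _ _ _ (h6 y hy.2 (right_ne_zero_of_mul h0)) h0 ?_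
      rw [norm_mul]
      exact mul_le_of_le_one_left (norm_nonneg _) (h2.le y hy.1)
    | some i =>
      refine hp _ _ _ _ (h3 y hy.1 (left_ne_zero_of_mul h0) i) h0 ?_
      rw [norm_mul]
      exact mul_le_of_le_one_right (norm_nonneg _) (h5.le y hy.2)

/-! ### Sets with thin complement -/

theorem cot_univ : Cothin M univ :=
  ⟨isOpen_univ, fun x => ⟨_, _, mem_univ x, dv_one, fun _ _ _ => mem_univ _⟩⟩

theorem cot_gn (h : Cothin M W) (x : M.X) : ∀ᶠ y in Gn x, y ∈ W := by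
  obtain ⟨O, δ, h1, h2, h3⟩ := h.2 x
  exact (dv_gn h2 h1).mono fun y hy => h3 y hy.1 hy.2

theorem cot_dense (h : Cothin M W) : Dense W := fun x =>
  mem_closure_iff_frequently.2 (freq_of_Gn (cot_gn h x))

theorem cot_inter (h : Cothin M W) (h' : Cothin M W') : Cothin M (W ∩ W') :=
  ⟨h.1.inter h'.1, fun x => by
    obtain ⟨O, δ, h1, h2, h3⟩ := h.2 x
    obtain ⟨O', δ', h4, h5, h6⟩ := h'.2 x
    exact ⟨_, _, mem_inter h1 h4, dv_mul h2 h5, fun y hy h0 =>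
      ⟨h3 y hy.1 (left_ne_zero_of_mul h0), h6 y hy.2 (right_ne_zero_of_mul h0)⟩⟩⟩

theorem cot_mono (h : Cothin M W) (ho : IsOpen W') (hs : W ⊆ W') : Cothin M W' :=
  ⟨ho, fun x => by
    obtain ⟨O, δ, h1, h2, h3⟩ := h.2 x
    exact ⟨O, δ, h1, h2, fun y hy h0 => hs (h3 y hy h0)⟩⟩

theorem cot_iInter {ι : Type} [Finite ι] {W : ι → Set M.X} (h : ∀ i, Cothin M (W i)) :
    Cothin M (⋂ i, W i) :=
  ⟨isOpen_iInter_of_finite fun i => (h i).1, fun x => by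
    obtain ⟨O, δ, h1, h2, h3⟩ := dv_fin (x := x) (p := fun i y _ => y ∈ W i)
      (fun _ _ _ _ a _ _ => a) fun i => (h i).2 x
    exact ⟨O, δ, h1, h2, fun y hy h0 => mem_iInter.2 (h3 y hy h0)⟩⟩

/-- In a chart: every connected open set stays connected. -/
theorem cot_preconn_ch (h : Cothin M W) {e : M.Ch} (he : e ∈ M.C) {B : Set (E n)} (ho : IsOpen B)
    (hc : IsPreconnected B) (hs : B ⊆ e.target) : IsPreconnected (B ∩ e.symm ⁻¹' W) := by
  refine preconn_of_local hc inter_subset_left fun z hz => ?_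
  have hx := e.map_target (hs hz)
  have hz' := e.right_inv (hs hz)
  obtain ⟨O, δ, h1, h2, h3⟩ := h.2 (e.symm z)
  have h4 := h2.hol _ h1 e he hx
  have h5 := (fr_ch hx).1 (h2.ne _ h1)
  have h6 := (ev_ch (p := fun y => y ∈ O) hx).1 (h2.op.mem_nhds h1)
  rw [hz'] at h4 h5 h6
  refine ⟨mem_closure_iff_frequently.2 ((h5.and_eventually (h6.and (ho.mem_nhds hz))).mono
    fun w hw => ⟨hw.2.2, h3 _ hw.2.1 hw.1⟩), ?_⟩
  obtain ⟨r, r0, hr⟩ := Metric.eventually_nhds_iff_ball.1 (h4.and (h6.and (ho.mem_nhds hz)))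
  obtain ⟨-, h7, h8⟩ := st_CONN (E n) (ball z r) (δ ∘ e.symm) isOpen_ball
    (convex_ball z r).isPreconnected (fun w hw => (hr w hw).1.differentiableWithinAt)
    (by
      obtain ⟨w, h7, h8⟩ := (h5.and_eventually (ball_mem_nhds z r0)).exists
      exact ⟨w, h8, h7⟩)
  refine ⟨ball z r, ball_mem_nhds z r0, h7.subset_closure
    (fun w hw => ⟨⟨(hr w hw.1).2.2, h3 _ (hr w hw.1).2.1 hw.2⟩, hw.1⟩) fun w hw => ?_⟩
  exact mem_closure_iff_frequently.2 (((h8 w hw.2).and_eventually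
    (isOpen_ball.mem_nhds hw.2)).mono fun v hv => ⟨hv.2, hv.1⟩)

/-- On the manifold: every connected open set stays connected. -/
theorem cot_preconn (h : Cothin M W) (ho : IsOpen O) (hc : IsPreconnected O) :
    IsPreconnected (O ∩ W) := by
  refine preconn_of_local hc inter_subset_left fun x hx => ⟨mem_closure_iff_frequently.2
    (freq_of_Gn ((Gn_of_nhds (ho.mem_nhds hx)).and (cot_gn h x))), ?_⟩
  obtain ⟨e, he, hx'⟩ := M.cov x
  obtain ⟨r, r0, hr⟩ := Metric.eventually_nhds_iff_ball.1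
    (((ev_ch (p := fun y => y ∈ O) hx').1 (ho.mem_nhds hx)).and
      (e.open_target.mem_nhds (e.map_source hx')))
  have h1 := (cot_preconn_ch h he isOpen_ball (convex_ball (e x) r).isPreconnected
    fun w hw => (hr w hw).2).image e.symm
      (e.continuousOn_symm.mono fun w hw => (hr w hw.1).2)
  refine ⟨e.source ∩ e ⁻¹' ball (e x) r, inter_mem (e.open_source.mem_nhds hx')
    (e.continuousAt hx' (ball_mem_nhds _ r0)), ?_⟩
  convert h1 using 1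
  ext y
  constructor
  · rintro ⟨⟨h2, h3⟩, h4, h5⟩
    exact ⟨e y, ⟨h5, by simpa [e.left_inv h4] using h3⟩, e.left_inv h4⟩
  · rintro ⟨w, ⟨h2, h3⟩, rfl⟩
    exact ⟨⟨(hr w h2).1, h3⟩, e.map_target (hr w h2).2, by simpa [e.right_inv (hr w h2).2] using h2⟩

/-- The extension theorem of Riemann across a thin set. -/
theorem cot_rex (h : Cothin M W) {C : ℝ} (hf : ∀ᶠ y in 𝓝 x, y ∈ W → HolAt M f y ∧ ‖f y‖ ≤ C) :
    ∃ f', HolAt M f' x ∧ ∀ᶠ y in 𝓝 x, y ∈ W → f' y = f y := by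
  obtain ⟨O, δ, h1, h2, h3⟩ := h.2 x
  obtain ⟨u, h4, h5⟩ := holAt_rex (a := f) (C := C) (h2.hol x h1) (h2.ne x h1)
    (by filter_upwards [hf, h2.op.mem_nhds h1] with y a b c using a (h3 y b c))
  refine ⟨u, h4, ?_⟩
  filter_upwards [h4.near, h5.eventually_nhds, hf, h2.op.mem_nhds h1] with y a b c d hy
  exact eq_of_Gn a.cont (c hy).1.cont
    (((Gn_of_nhds b).and (dv_gn h2 d)).mono fun z hz => hz.1 hz.2.2)

/-! ### Meromorphic functions -/

theorem mer_of_hol (h : ∀ x, HolAt M f x) : Mer M f := fun x =>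
  ⟨_, _, f, mem_univ x, dv_one, fun y _ => h y, fun _ _ _ => (div_one _).symm⟩

theorem mer_const (c : ℂ) : Mer M fun _ => c := mer_of_hol fun _ => holAt_const c

/-- A criterion with an unnormalised denominator. -/
theorem mer_of_near (h : ∀ x, ∃ a b, HolAt M a x ∧ HolAt M b x ∧ (∃ᶠ y in 𝓝 x, b y ≠ 0) ∧
    ∀ᶠ y in 𝓝 x, b y ≠ 0 → f y = a y / b y) : Mer M f := fun x => by
  obtain ⟨a, b, h1, h2, h3, h4⟩ := h x
  obtain ⟨O, C, h5, h6, h7, h8⟩ := dv_of_hol h2 h3 (h1.near.and h4)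
  have h9 : (C : ℂ) ≠ 0 := Complex.ofReal_ne_zero.2 (by linarith)
  refine ⟨O, _, fun y => a y / C, h5, h8, fun y hy => (h6 hy).1.div (holAt_const _) h9,
    fun y hy h0 => ?_⟩
  rw [(h6 hy).2 (div_ne_zero_iff.1 h0).1, div_div_div_cancel_right₀ h9]

/-- A fraction whose denominator vanishes off `W`. -/
theorem mer_rep (hf : Mer M f) (h : Cothin M W) (x : M.X) : ∃ O δ a, x ∈ O ∧ Dv M O δ ∧
    (∀ y ∈ O, HolAt M a y) ∧ ∀ y ∈ O, δ y ≠ 0 → y ∈ W ∧ f y = a y / δ y := by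
  obtain ⟨O, δ, a, h1, h2, h3, h4⟩ := hf x
  obtain ⟨O', δ', h5, h6, h7⟩ := h.2 x
  refine ⟨_, _, fun y => a y * δ' y, mem_inter h1 h5, dv_mul h2 h6,
    fun y hy => (h3 y hy.1).mul (h6.hol y hy.2), fun y hy h0 =>
      ⟨h7 y hy.2 (right_ne_zero_of_mul h0), ?_⟩⟩
  rw [h4 y hy.1 (left_ne_zero_of_mul h0), mul_div_mul_right _ _ (right_ne_zero_of_mul h0)]

theorem mer_congr (hf : Mer M f) (h : Cothin M W) (e : ∀ x ∈ W, g x = f x) : Mer M g := fun x => by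
  obtain ⟨O, δ, a, h1, h2, h3, h4⟩ := mer_rep hf h x
  exact ⟨O, δ, a, h1, h2, h3, fun y hy h0 => (e y (h4 y hy h0).1).trans (h4 y hy h0).2⟩

theorem mer_add (hf : Mer M f) (hg : Mer M g) : Mer M fun x => f x + g x := fun x => by
  obtain ⟨O, δ, a, h1, h2, h3, h4⟩ := hf x
  obtain ⟨O', δ', a', h5, h6, h7, h8⟩ := hg x
  refine ⟨_, _, fun y => a y * δ' y + δ y * a' y, mem_inter h1 h5, dv_mul h2 h6, fun y hy =>
    ((h3 y hy.1).mul (h6.hol y hy.2)).add ((h2.hol y hy.1).mul (h7 y hy.2)), fun y hy h0 => ?_⟩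
  simp only [h4 y hy.1 (left_ne_zero_of_mul h0), h8 y hy.2 (right_ne_zero_of_mul h0),
    div_add_div _ _ (left_ne_zero_of_mul h0) (right_ne_zero_of_mul h0)]

theorem mer_mul (hf : Mer M f) (hg : Mer M g) : Mer M fun x => f x * g x := fun x => by
  obtain ⟨O, δ, a, h1, h2, h3, h4⟩ := hf x
  obtain ⟨O', δ', a', h5, h6, h7, h8⟩ := hg x
  refine ⟨_, _, fun y => a y * a' y, mem_inter h1 h5, dv_mul h2 h6, fun y hy =>
    (h3 y hy.1).mul (h7 y hy.2), fun y hy h0 => ?_⟩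
  simp only [h4 y hy.1 (left_ne_zero_of_mul h0), h8 y hy.2 (right_ne_zero_of_mul h0),
    div_mul_div_comm]

theorem mer_neg (hf : Mer M f) : Mer M fun x => -f x := by
  simpa using mer_mul (mer_const (-1)) hf

theorem mer_sub (hf : Mer M f) (hg : Mer M g) : Mer M fun x => f x - g x := by
  simpa only [sub_eq_add_neg] using mer_add hf (mer_neg hg)

theorem mer_sum {ι : Type} {s : Finset ι} {f : ι → M.X → ℂ} (h : ∀ i ∈ s, Mer M (f i)) :
    Mer M fun x => ∑ i ∈ s, f i x := by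
  induction s using Finset.induction_on with
  | empty => simpa using mer_const 0
  | insert i s hi ih =>
    simp only [Finset.sum_insert hi]
    exact mer_add (h i (Finset.mem_insert_self _ _))
      (ih fun j hj => h j (Finset.mem_insert_of_mem hj))

theorem mer_prod {ι : Type} {s : Finset ι} {f : ι → M.X → ℂ} (h : ∀ i ∈ s, Mer M (f i)) :
    Mer M fun x => ∏ i ∈ s, f i x := by
  induction s using Finset.induction_on with
  | empty => simpa using mer_const 1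
  | insert i s hi ih =>
    simp only [Finset.prod_insert hi]
    exact mer_mul (h i (Finset.mem_insert_self _ _))
      (ih fun j hj => h j (Finset.mem_insert_of_mem hj))

theorem mer_pow (hf : Mer M f) (m : ℕ) : Mer M fun x => f x ^ m := by
  simpa using mer_prod (s := Finset.range m) (f := fun _ => f) fun _ _ => hf

/-- The inverse, with the value zero where the function vanishes. -/
theorem mer_inv (hf : Mer M f) : Mer M fun x => (f x)⁻¹ := mer_of_near fun x => by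
  obtain ⟨O, δ, a, h1, h2, h3, h4⟩ := hf x
  have h5 := h2.op.mem_nhds h1
  by_cases h : ∃ᶠ y in 𝓝 x, a y ≠ 0
  · refine ⟨fun y => δ y * δ y, fun y => a y * δ y, (h2.hol x h1).mul (h2.hol x h1),
      (h3 x h1).mul (h2.hol x h1), (h3 x h1).nz_mul (h2.hol x h1) h (h2.ne x h1), ?_⟩
    filter_upwards [h5] with y hy h0
    rw [h4 y hy (right_ne_zero_of_mul h0), inv_div,
      mul_div_mul_right _ _ (right_ne_zero_of_mul h0)]
  · refine ⟨fun _ => 0, δ, holAt_const 0, h2.hol x h1, h2.ne x h1, ?_⟩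
    filter_upwards [h5, not_frequently.1 h] with y hy h6 h0
    rw [h4 y hy h0, not_not.1 h6]
    simp

theorem mer_div (hf : Mer M f) (hg : Mer M g) : Mer M fun x => f x / g x := by
  simpa only [div_eq_mul_inv] using mer_mul hf (mer_inv hg)

theorem mer_zpow (hf : Mer M f) (m : ℤ) : Mer M fun x => f x ^ m := by
  cases m with
  | ofNat m => simpa using mer_pow hf m
  | negSucc m => simpa only [zpow_negSucc] using mer_inv (mer_pow hf (m + 1))

/-- The regular set. -/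
theorem mer_reg (hf : Mer M f) : Cothin M {x | HolAt M f x} :=
  ⟨isOpen_iff_mem_nhds.2 fun _ hx => HolAt.near hx, fun x => by
    obtain ⟨O, δ, a, h1, h2, h3, h4⟩ := hf x
    exact ⟨O, δ, h1, h2, fun y hy h0 => ((h3 y hy).div (h2.hol y hy) h0).congr
      ((dv_near h2 hy h0).mono fun z hz => h4 z hz.1 hz.2)⟩⟩

/-- The identity theorem for meromorphic functions. -/
theorem mer_zero [M.Cpt] (hf : Mer M f) (h0 : ∀ᶠ y in Gn x, f y = 0) (z : M.X) :
    ∀ᶠ y in Gn z, f y = 0 := by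
  refine (isPreconnected_univ.subset_of_closure_inter_subset
    (u := {z | ∀ᶠ y in Gn z, f y = 0}) (isOpen_iff_mem_nhds.2 fun _ hz => Gn_near hz)
    ⟨x, mem_univ x, h0⟩ fun z hz => ?_) (mem_univ z)
  obtain ⟨O, δ, a, h1, h2, h3, h4⟩ := hf z
  have h5 : a =ᶠ[𝓝 z] 0 := by
    refine (h3 z h1).zero_of_freq (((mem_closure_iff_frequently.1 hz.1).and_eventually
      (h2.op.mem_nhds h1)).mono fun y hy => (h3 y hy.2).eq_of_Gn (holAt_const 0) ?_)
    filter_upwards [hy.1, dv_gn h2 hy.2] with w h6 h7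
    exact (div_eq_zero_iff.1 ((h4 w h7.1 h7.2).symm.trans h6)).resolve_right h7.2
  filter_upwards [Gn_of_nhds h5, dv_gn h2 h1] with w h6 h7
  rw [h4 w h7.1 h7.2, h6]
  simp

/-- A fraction whose numerator is controlled by the denominator. -/
theorem mer_rep_ne [M.Cpt] (hf : Mer M f) (h : Cothin M W) (h0 : ∃ᶠ y in Gn x, f y ≠ 0) (z : M.X) :
    ∃ (O : Set M.X) (δ : M.X → ℂ) (C : ℝ), z ∈ O ∧ Dv M O δ ∧ 1 ≤ C ∧ ∀ y ∈ O, δ y ≠ 0 →
      y ∈ W ∧ ‖f y‖ * ‖δ y‖ ≤ C ∧ ‖δ y‖ ≤ ‖f y‖ := by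
  obtain ⟨O, δ, a, h1, h2, h3, h4⟩ := mer_rep hf h z
  have h5 : ∃ᶠ y in 𝓝 z, a y ≠ 0 := fun h5 => by
    refine h0 ((mer_zero (x := z) hf ?_ x).mono fun y a b => b a)
    filter_upwards [Gn_of_nhds h5, dv_gn h2 h1] with w h6 h7
    rw [(h4 w h7.1 h7.2).2, not_not.1 h6, zero_div]
  obtain ⟨O', C, h6, -, h7, h8⟩ := dv_of_hol (h3 z h1) h5 univ_mem
  refine ⟨_, _, C, mem_inter h1 h6, dv_mul h2 h8, h7, fun y hy h9 => ?_⟩
  have a1 := left_ne_zero_of_mul h9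
  have a2 := h2.le y hy.1
  have a3 := h8.le y hy.2
  have a4 := norm_pos_iff.2 a1
  have a5 : 0 < C := by linarith
  rw [norm_div, Complex.norm_real, Real.norm_of_nonneg a5.le, div_le_one a5] at a3
  refine ⟨(h4 y hy.1 a1).1, ?_, ?_⟩
  · rw [(h4 y hy.1 a1).2, norm_mul, norm_div, ← mul_assoc, div_mul_cancel₀ _ a4.ne']
    exact (mul_le_of_le_one_right (norm_nonneg _) (h8.le y hy.2)).trans a3
  · rw [(h4 y hy.1 a1).2, norm_mul, norm_div, norm_div, Complex.norm_real,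
      Real.norm_of_nonneg a5.le]
    refine (mul_le_of_le_one_left (by positivity) a2).trans
      ((div_le_self (norm_nonneg _) h7).trans ?_)
    exact le_div_self (norm_nonneg _) a4 a2

theorem freq_of_ne (hx : HolAt M f x) (h0 : f x ≠ 0) : ∃ᶠ y in Gn x, f y ≠ 0 :=
  (Gn_of_nhds (hx.cont.eventually_ne h0)).frequently

theorem isOpen_ne (h : IsOpen W) (hf : ∀ x ∈ W, HolAt M f x) : IsOpen {x | x ∈ W ∧ f x ≠ 0} :=
  isOpen_iff_mem_nhds.2 fun x hx =>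
    Eventually.and (h.mem_nhds hx.1) ((hf x hx.1).cont.eventually_ne hx.2)

theorem ne_of_le (h0 : δ x ≠ 0) (h : ‖δ x‖ ≤ ‖f x‖) : f x ≠ 0 :=
  norm_pos_iff.1 ((norm_pos_iff.2 h0).trans_le h)

theorem mer_cot_ne [M.Cpt] (hf : Mer M f) (h : Cothin M W) (hh : ∀ x ∈ W, HolAt M f x)
    (hx : x ∈ W) (h0 : f x ≠ 0) : Cothin M {x | x ∈ W ∧ f x ≠ 0} :=
  ⟨isOpen_ne h.1 hh, fun z => by
    obtain ⟨O, δ, C, h1, h2, -, h3⟩ := mer_rep_ne hf h (freq_of_ne (hh x hx) h0) z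
    exact ⟨O, δ, h1, h2, fun y hy a => ⟨(h3 y hy a).1, ne_of_le a (h3 y hy a).2.2⟩⟩⟩

/-! ### Polynomial growth -/

section tame

variable {F F' : Type} [NormedAddCommGroup F] [NormedAddCommGroup F'] {u : M.X → F} {v : M.X → F'}

theorem tame_mono (h : Tame M W u) (hs : W ⊆ W') : Tame M W' u := fun x => by
  obtain ⟨O, δ, C, m, h1, h2, h3⟩ := h x
  exact ⟨O, δ, C, m, h1, h2, fun y hy h0 => ⟨hs (h3 y hy h0).1, (h3 y hy h0).2⟩⟩

theorem tame_step {a C : ℝ} {s t : ℂ} {m m' : ℕ} (ha : 0 ≤ a) (h : a * ‖s‖ ^ m ≤ C) (hs : ‖s‖ ≤ 1)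
    (ht : ‖t‖ ≤ ‖s‖) (hm : m ≤ m') : a * ‖t‖ ^ m' ≤ C :=
  (mul_le_mul_of_nonneg_left ((pow_le_pow_left₀ (norm_nonneg _) ht _).trans
    (pow_le_pow_of_le_one (norm_nonneg _) hs hm)) ha).trans h

/-- Two tame maps have a common denominator. -/
theorem tame_two (h : Tame M W u) (h' : Tame M W' v) (x : M.X) :
    ∃ (O : Set M.X) (δ : M.X → ℂ) (C : ℝ) (m : ℕ), x ∈ O ∧ Dv M O δ ∧ 0 ≤ C ∧ ∀ y ∈ O, δ y ≠ 0 →
      y ∈ W ∩ W' ∧ ‖u y‖ * ‖δ y‖ ^ m ≤ C ∧ ‖v y‖ * ‖δ y‖ ^ m ≤ C := by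
  obtain ⟨O, δ, C, m, h1, h2, h3⟩ := h x
  obtain ⟨O', δ', C', m', h4, h5, h6⟩ := h' x
  refine ⟨_, _, max 0 (max C C'), max m m', mem_inter h1 h4, dv_mul h2 h5, le_max_left _ _,
    fun y hy h0 => ?_⟩
  have a := h3 y hy.1 (left_ne_zero_of_mul h0)
  have b := h6 y hy.2 (right_ne_zero_of_mul h0)
  refine ⟨⟨a.1, b.1⟩, (tame_step (norm_nonneg _) a.2 (h2.le y hy.1) ?_ (le_max_left _ _)).trans
    (le_max_of_le_right (le_max_left _ _)), (tame_step (norm_nonneg _) b.2 (h5.le y hy.2) ?_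
      (le_max_right _ _)).trans (le_max_of_le_right (le_max_right _ _))⟩
  · rw [norm_mul]
    exact mul_le_of_le_one_right (norm_nonneg _) (h5.le y hy.2)
  · rw [norm_mul]
    exact mul_le_of_le_one_left (norm_nonneg _) (h2.le y hy.1)

theorem tame_const (h : Cothin M W) (c : F) : Tame M W fun _ => c := fun x => by
  obtain ⟨O, δ, h1, h2, h3⟩ := h.2 x
  exact ⟨O, δ, ‖c‖, 0, h1, h2, fun y hy h0 => ⟨h3 y hy h0, by simp⟩⟩

theorem tame_prodMk (h : Tame M W u) (h' : Tame M W' v) :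
    Tame M (W ∩ W') fun x => (u x, v x) := fun x => by
  obtain ⟨O, δ, C, m, h1, h2, -, h3⟩ := tame_two h h' x
  refine ⟨O, δ, C, m, h1, h2, fun y hy h0 => ⟨(h3 y hy h0).1, ?_⟩⟩
  rw [Prod.norm_def, max_mul_of_nonneg _ _ (by positivity)]
  exact max_le (h3 y hy h0).2.1 (h3 y hy h0).2.2

theorem tame_inter (h : Tame M W u) (h' : Cothin M W') : Tame M (W ∩ W') u := fun x => by
  obtain ⟨O, δ, C, m, h1, h2, -, h3⟩ := tame_two h (tame_const h' (0 : F)) x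
  exact ⟨O, δ, C, m, h1, h2, fun y hy h0 => ⟨(h3 y hy h0).1, (h3 y hy h0).2.1⟩⟩

/-- A polynomial bound by a tame map. -/
theorem tame_of_le (h : Tame M W u) {C : ℝ} {k : ℕ} (hv : ∀ x ∈ W, ‖v x‖ ≤ C * (1 + ‖u x‖) ^ k) :
    Tame M W v := fun x => by
  obtain ⟨O, δ, C', m, h1, h2, h3⟩ := h x
  refine ⟨O, δ, |C| * (1 + C') ^ k, m * k, h1, h2, fun y hy h0 => ⟨(h3 y hy h0).1, ?_⟩⟩
  have a : (1 + ‖u y‖) * ‖δ y‖ ^ m ≤ 1 + C' := by
    rw [add_mul, one_mul]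
    exact add_le_add (pow_le_one₀ (norm_nonneg _) (h2.le y hy)) (h3 y hy h0).2
  calc ‖v y‖ * ‖δ y‖ ^ (m * k) ≤ |C| * (1 + ‖u y‖) ^ k * ‖δ y‖ ^ (m * k) :=
        mul_le_mul_of_nonneg_right ((hv y (h3 y hy h0).1).trans
          (mul_le_mul_of_nonneg_right (le_abs_self C) (by positivity))) (by positivity)
    _ = |C| * ((1 + ‖u y‖) * ‖δ y‖ ^ m) ^ k := by rw [mul_pow, pow_mul, mul_assoc]
    _ ≤ _ := mul_le_mul_of_nonneg_left (pow_le_pow_left₀ (by positivity) a k) (abs_nonneg C)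

theorem tame_pi {ι : Type} [Fintype ι] {u : ι → M.X → F} (hW : Cothin M W)
    (h : ∀ i, Tame M W (u i)) : Tame M W fun x i => u i x := fun x => by
  choose O δ C m h1 h2 h3 using fun i => h i x
  obtain ⟨O', δ', h4, h5, h6⟩ := dv_fin (x := x)
    (p := fun i y s => ‖s‖ ≤ 1 ∧ ‖u i y‖ * ‖s‖ ^ m i ≤ C i)
    (fun i y s t a _ b => ⟨b.trans a.1, tame_step (norm_nonneg _) a.2 a.1 b le_rfl⟩)
    fun i => ⟨O i, δ i, h1 i, h2 i, fun y hy h0 => ⟨(h2 i).le y hy, (h3 i y hy h0).2⟩⟩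
  obtain ⟨O₁, δ₁, h7, h8, h9⟩ := hW.2 x
  refine ⟨_, _, ∑ i, |C i|, ∑ i, m i, mem_inter h4 h7, dv_mul h5 h8, fun y hy h0 =>
    ⟨h9 y hy.2 (right_ne_zero_of_mul h0), ?_⟩⟩
  rw [← le_div_iff₀ (pow_pos (norm_pos_iff.2 h0) _), pi_norm_le_iff_of_nonneg (by positivity)]
  intro i
  rw [le_div_iff₀ (pow_pos (norm_pos_iff.2 h0) _)]
  have a := h6 y hy.1 (left_ne_zero_of_mul h0) i
  refine (tame_step (norm_nonneg _) a.2 a.1 ?_ (Finset.single_le_sum (f := m)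
    (fun _ _ => Nat.zero_le _) (Finset.mem_univ i))).trans ((le_abs_self _).trans
      (Finset.single_le_sum (f := fun i => |C i|) (fun _ _ => abs_nonneg _) (Finset.mem_univ i)))
  rw [norm_mul]
  exact mul_le_of_le_one_right (norm_nonneg _) (h8.le y hy.2)

end tame

theorem mer_tame (hf : Mer M f) (h : Cothin M W) : Tame M W f := fun x => by
  obtain ⟨O, δ, a, h1, h2, h3, h4⟩ := mer_rep hf h x
  obtain ⟨O', h5, h6, h7⟩ := eventually_nhds_iff.1 (Eventually.and (h2.op.mem_nhds h1)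
    ((h3 x h1).cont.norm.eventually (gt_mem_nhds (lt_add_one _))))
  refine ⟨O', δ, ‖a x‖ + 1, 1, h7, dv_mono h2 h6 fun y hy => (h5 y hy).1, fun y hy h0 =>
    ⟨(h4 y (h5 y hy).1 h0).1, ?_⟩⟩
  rw [(h4 y (h5 y hy).1 h0).2, pow_one, norm_div, div_mul_cancel₀ _ (norm_ne_zero_iff.2 h0)]
  exact (h5 y hy).2.le

theorem mer_of_tame (hf : ∀ x ∈ W, HolAt M f x) (h : Tame M W f) : Mer M f :=
  mer_of_near fun x => by
    obtain ⟨O, δ, C, m, h1, h2, h3⟩ := h x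
    obtain ⟨u, h4, h5⟩ := holAt_rex (a := fun y => f y * δ y ^ m) (C := C) (h2.hol x h1)
      (h2.ne x h1) (by
        filter_upwards [h2.op.mem_nhds h1] with y hy h0
        refine ⟨(hf y (h3 y hy h0).1).mul ((h2.hol y hy).pow m), ?_⟩
        rw [norm_mul, norm_pow]
        exact (h3 y hy h0).2)
    have h6 := dv_pow h2 (m + 1)
    refine ⟨fun y => u y * δ y, _, h4.mul (h2.hol x h1), h6.hol x h1, h6.ne x h1,
      h5.mono fun y hy h0 => ?_⟩
    have h7 : δ y ≠ 0 := fun e => h0 (by simp [e])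
    simp only [hy h7]
    rw [eq_div_iff h0, pow_succ, mul_assoc]

theorem mer_tame_inv [M.Cpt] (hf : Mer M f) (h : Cothin M W) (h0 : ∃ᶠ y in Gn x, f y ≠ 0) :
    Tame M {x | x ∈ W ∧ f x ≠ 0} fun x => (f x)⁻¹ := fun z => by
  obtain ⟨O, δ, C, h1, h2, -, h3⟩ := mer_rep_ne hf h h0 z
  refine ⟨O, δ, 1, 1, h1, h2, fun y hy a => ⟨⟨(h3 y hy a).1, ne_of_le a (h3 y hy a).2.2⟩, ?_⟩⟩
  rw [pow_one, norm_inv]
  exact inv_mul_le_one_of_le₀ (h3 y hy a).2.2 (norm_nonneg _)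

/-! ### Logarithmic growth -/

section logt

variable {g g' : M.X → ℝ}

theorem log_le (h : Dv M O δ) (hx : x ∈ O) : Real.log ‖δ x‖ ≤ 0 :=
  Real.log_nonpos (norm_nonneg _) (h.le x hx)

theorem logT_mono (h : LogT M W g) (hs : W ⊆ W') : LogT M W' g := fun x => by
  obtain ⟨O, δ, C, h1, h2, h3⟩ := h x
  exact ⟨O, δ, C, h1, h2, fun y hy h0 => ⟨hs (h3 y hy h0).1, (h3 y hy h0).2⟩⟩

/-- Two functions of logarithmic growth have a common denominator. -/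
theorem logT_two (h : LogT M W g) (h' : LogT M W' g') (x : M.X) :
    ∃ (O : Set M.X) (δ : M.X → ℂ) (C : ℝ), x ∈ O ∧ Dv M O δ ∧ ∀ y ∈ O, δ y ≠ 0 →
      y ∈ W ∩ W' ∧ |g y| + |g' y| ≤ C * (1 - Real.log ‖δ y‖) := by
  obtain ⟨O, δ, C, h1, h2, h3⟩ := h x
  obtain ⟨O', δ', C', h4, h5, h6⟩ := h' x
  refine ⟨_, _, |C| + |C'|, mem_inter h1 h4, dv_mul h2 h5, fun y hy h0 => ?_⟩
  have a := h3 y hy.1 (left_ne_zero_of_mul h0)
  have b := h6 y hy.2 (right_ne_zero_of_mul h0)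
  refine ⟨⟨a.1, b.1⟩, ?_⟩
  rw [norm_mul, Real.log_mul (norm_ne_zero_iff.2 (left_ne_zero_of_mul h0))
    (norm_ne_zero_iff.2 (right_ne_zero_of_mul h0))]
  have c := log_le h2 hy.1
  have d := log_le h5 hy.2
  nlinarith [a.2, b.2, le_abs_self C, le_abs_self C', abs_nonneg C, abs_nonneg C']

theorem logT_add (h : LogT M W g) (h' : LogT M W' g') : LogT M (W ∩ W') fun x => g x + g' x :=
  fun x => by
    obtain ⟨O, δ, C, h1, h2, h3⟩ := logT_two h h' x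
    exact ⟨O, δ, C, h1, h2, fun y hy h0 => ⟨(h3 y hy h0).1, (abs_add_le _ _).trans (h3 y hy h0).2⟩⟩

/-- A linear bound by a function of logarithmic growth. -/
theorem logT_of_le (h : LogT M W g) {C : ℝ} (hg : ∀ x ∈ W, |g' x| ≤ C * (1 + |g x|)) :
    LogT M W g' := fun x => by
  obtain ⟨O, δ, C', h1, h2, h3⟩ := h x
  refine ⟨O, δ, |C| * (1 + C'), h1, h2, fun y hy h0 => ⟨(h3 y hy h0).1, ?_⟩⟩
  have a := (h3 y hy h0).2
  have c := log_le h2 hy
  refine (hg y (h3 y hy h0).1).trans ((mul_le_mul_of_nonneg_right (le_abs_self C)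
    (by positivity)).trans ?_)
  rw [mul_assoc]
  exact mul_le_mul_of_nonneg_left (by linarith) (abs_nonneg C)

theorem logT_smul (h : LogT M W g) (a : ℝ) : LogT M W fun x => a * g x :=
  logT_of_le h (C := |a|) fun x _ => by
    rw [abs_mul]
    exact mul_le_mul_of_nonneg_left (by linarith) (abs_nonneg a)

theorem logT_const (h : Cothin M W) (c : ℝ) : LogT M W fun _ => c := fun x => by
  obtain ⟨O, δ, h1, h2, h3⟩ := h.2 x
  refine ⟨O, δ, |c|, h1, h2, fun y hy h0 => ⟨h3 y hy h0, ?_⟩⟩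
  have := log_le h2 hy
  exact le_mul_of_one_le_right (abs_nonneg c) (by linarith)

theorem logT_inter (h : LogT M W g) (h' : Cothin M W') : LogT M (W ∩ W') g := by
  simpa using logT_add h (logT_const h' 0)

theorem logT_congr (h : LogT M W g) (e : ∀ x ∈ W, g' x = g x) : LogT M W g' :=
  logT_of_le h (C := 1) fun x hx => by
    rw [e x hx]
    linarith

theorem logT_sum {ι : Type} {s : Finset ι} {g : ι → M.X → ℝ} (hW : Cothin M W)
    (h : ∀ i ∈ s, LogT M W (g i)) : LogT M W fun x => ∑ i ∈ s, g i x := by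
  induction s using Finset.induction_on with
  | empty => simpa using logT_const hW 0
  | insert i s hi ih =>
    simp only [Finset.sum_insert hi]
    simpa using logT_add (h i (Finset.mem_insert_self _ _))
      (ih fun j hj => h j (Finset.mem_insert_of_mem hj))

theorem logT_tame {F : Type} [NormedAddCommGroup F] {u : M.X → F} (h : Tame M W u) :
    LogT M W fun x => Real.log (1 + ‖u x‖) := fun x => by
  obtain ⟨O, δ, C, m, h1, h2, h3⟩ := h x
  refine ⟨O, δ, |Real.log (1 + C)| + m, h1, h2, fun y hy h0 => ⟨(h3 y hy h0).1, ?_⟩⟩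
  have a : (1 + ‖u y‖) * ‖δ y‖ ^ m ≤ 1 + C := by
    rw [add_mul, one_mul]
    exact add_le_add (pow_le_one₀ (norm_nonneg _) (h2.le y hy)) (h3 y hy h0).2
  have b := norm_pos_iff.2 h0
  have c := Real.log_le_log (by positivity) a
  rw [Real.log_mul (by positivity) (by positivity), Real.log_pow] at c
  rw [abs_of_nonneg (Real.log_nonneg (by simp))]
  have d := log_le h2 hy
  nlinarith [le_abs_self (Real.log (1 + C)), abs_nonneg (Real.log (1 + C)), Nat.cast_nonneg (α := ℝ) m]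

theorem logT_of_tame {F : Type} [NormedAddCommGroup F] {u : M.X → F} (h : Tame M W u) {C : ℝ}
    (hg : ∀ x ∈ W, |g x| ≤ C * (1 + Real.log (1 + ‖u x‖))) : LogT M W g :=
  logT_of_le (logT_tame h) (C := C) fun x hx => by
    rw [abs_of_nonneg (Real.log_nonneg (by simp) : 0 ≤ Real.log (1 + ‖u x‖))]
    exact hg x hx

theorem mer_logT [M.Cpt] (hf : Mer M f) (h : Cothin M W) (h0 : ∃ᶠ y in Gn x, f y ≠ 0) :
    LogT M {x | x ∈ W ∧ f x ≠ 0} fun x => Real.log (Complex.normSq (f x)) := fun z => by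
  obtain ⟨O, δ, C, h1, h2, hC, h3⟩ := mer_rep_ne hf h h0 z
  refine ⟨O, δ, 2 * (1 + Real.log C), h1, h2, fun y hy a => ?_⟩
  obtain ⟨b1, b2, b3⟩ := h3 y hy a
  have b4 := ne_of_le a b3
  have b5 := norm_pos_iff.2 a
  have b6 := norm_pos_iff.2 b4
  have c1 := Real.log_le_log (by positivity) b2
  have c2 := Real.log_le_log b5 b3
  have c3 := log_le h2 hy
  have c4 := Real.log_nonneg hC
  rw [Real.log_mul b6.ne' b5.ne'] at c1
  refine ⟨⟨b1, b4⟩, ?_⟩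
  simp only [Complex.normSq_eq_norm_sq, Real.log_pow, Nat.cast_ofNat]
  rw [abs_le]
  constructor <;> nlinarith

end logt

/-! ### Affine coordinates -/

section af

variable {ι : Type} [Fintype ι] {f : M.X → ι → ℂ} {i₀ : ι}

/-- A holomorphic lift on the manifold. -/
theorem pm_lift (h : PMap M f) (x : M.X) :
    ∃ F, HolAt M F x ∧ ∀ᶠ y in 𝓝 x, ∃ a : ℂ, a ≠ 0 ∧ F y = a • f y := by
  obtain ⟨e, he, hx⟩ := M.cov x
  obtain ⟨F, hF⟩ := h.ex e he _ (e.map_source hx)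
  refine ⟨fun y => F (e y), holAt_comp_ch he hx hF.hol, ?_⟩
  filter_upwards [ev_ch' hx hF.ev, e.open_source.mem_nhds hx] with y h1 h2
  rwa [e.left_inv h2] at h1

theorem pm_lift' (h : PMap M f) (i₀ : ι) (x : M.X) : ∃ F : M.X → ι → ℂ, HolAt M F x ∧
    ∀ᶠ y in 𝓝 x, (F y i₀ ≠ 0 ↔ f y i₀ ≠ 0) ∧ ∀ l, af f i₀ y l = F y l / F y i₀ := by
  obtain ⟨F, h1, h2⟩ := pm_lift h x
  refine ⟨F, h1, h2.mono ?_⟩
  rintro y ⟨a, h3, h4⟩
  simp [h4, h3, af, mul_div_mul_left]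

theorem pm_open (h : PMap M f) (i₀ : ι) : IsOpen {x | f x i₀ ≠ 0} :=
  isOpen_iff_mem_nhds.2 fun x hx => by
    obtain ⟨F, h1, h2⟩ := pm_lift' h i₀ x
    filter_upwards [h2, (holAt_pi.1 h1 i₀).cont.eventually_ne (h2.self_of_nhds.1.2 hx)]
      with y a b using a.1.1 b

theorem pm_hol (h : PMap M f) (hx : f x i₀ ≠ 0) : HolAt M (af f i₀) x := by
  obtain ⟨F, h1, h2⟩ := pm_lift' h i₀ x
  exact holAt_pi.2 fun l => ((holAt_pi.1 h1 l).div (holAt_pi.1 h1 i₀)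
    (h2.self_of_nhds.1.2 hx)).congr (h2.mono fun y hy => hy.2 l)

theorem pm_freq [M.Cpt] (h : PMap M f) (hx : f x i₀ ≠ 0) (z : M.X) : ∃ᶠ y in 𝓝 z, f y i₀ ≠ 0 := by
  intro h0
  refine absurd hx (Eventually.self_of_nhds (p := fun y => ¬ f y i₀ ≠ 0)
    ((isPreconnected_univ.subset_of_closure_inter_subset (u := {z | ∀ᶠ y in 𝓝 z, ¬ f y i₀ ≠ 0})
      isOpen_setOfPred_eventually_nhds ⟨z, mem_univ z, h0⟩ fun w hw => ?_) (mem_univ x)))
  obtain ⟨F, h1, h2⟩ := pm_lift' h i₀ w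
  have h3 := (holAt_pi.1 h1 i₀).zero_of_freq (((mem_closure_iff_frequently.1 hw.1).and_eventually
    h2.eventually_nhds).mono fun y hy => by
      filter_upwards [hy.1, hy.2] with v a b using not_not.1 fun c => a (b.1.1 c))
  filter_upwards [h2, h3] with y a b c using a.1.2 c b

theorem pm_cot [M.Cpt] (h : PMap M f) (hx : f x i₀ ≠ 0) : Cothin M {x | f x i₀ ≠ 0} :=
  ⟨pm_open h i₀, fun z => by
    obtain ⟨F, h1, h2⟩ := pm_lift' h i₀ z
    obtain ⟨O, C, h3, h4, -, h5⟩ := dv_of_hol (holAt_pi.1 h1 i₀)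
      (((pm_freq h hx z).and_eventually h2).mono fun y hy => hy.2.1.2 hy.1) h2
    exact ⟨O, _, h3, h5, fun y hy h0 => (h4 hy).1.1 (div_ne_zero_iff.1 h0).1⟩⟩

theorem pm_mer [M.Cpt] (h : PMap M f) (hx : f x i₀ ≠ 0) (l : ι) : Mer M fun x => af f i₀ x l :=
  mer_of_near fun z => by
    obtain ⟨F, h1, h2⟩ := pm_lift' h i₀ z
    exact ⟨_, _, holAt_pi.1 h1 l, holAt_pi.1 h1 i₀,
      ((pm_freq h hx z).and_eventually h2).mono fun y hy => hy.2.1.2 hy.1,
      h2.mono fun y hy _ => hy.2 l⟩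

end af

end M86

open M86 in
theorem st_MER : St_MER := fun n M =>
  ⟨fun _ _ _ _ => dv_mul,
    ⟨cot_univ, fun W h => ⟨cot_dense h, fun _ => cot_inter h,
      fun e he c R => cot_preconn_ch h he isOpen_ball (convex_ball c R).isPreconnected,
      fun _ => mer_of_tame, fun _ hf => mer_tame hf h,
      fun f hf hh _ ⟨x, hx, h0⟩ => ⟨mer_cot_ne hf h hh hx h0,
        mer_tame_inv hf h (freq_of_ne (hh x hx) h0), mer_logT hf h (freq_of_ne (hh x hx) h0)⟩,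
      fun _ _ _ => cot_rex h⟩⟩,
    fun _ => mer_of_hol, fun _ _ hf hg => ⟨mer_add hf hg, mer_mul hf hg, mer_neg hf⟩,
    fun _ hf => ⟨_, mer_reg hf, fun _ hx => hx⟩,
    fun _ _ _ _ _ h ⟨_, hx⟩ => ⟨pm_cot h hx, pm_mer h hx, fun _ => pm_hol h⟩,
    fun _ _ _ _ a h h' => ⟨logT_add h h', logT_smul h a⟩,
    fun _ _ _ _ _ _ h => logT_of_tame h⟩

end Pool.Agent.Lib.RA
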