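import Pool.Agent.Lib.RY.T_PHK

/-! The potential on the complex tube. -/

open scoped Classical Topology ContDiff ComplexOrder Matrix
open Set MeasureTheory Complex Metric Filter

set_option linter.unusedVariables false

noncomputable section

namespace Pool.Agent.Lib.RA

open Pool.Agent.Lib.SV (E nsq)
open Pool.Agent.Lib.HS32 Pool.Agent.Lib.PN

namespace PHK

open PK

section mf

variable {n k j : ℕ} {M : Mf n} {x : M.X}

theorem hs_congr {u u' : M.X → ℝ} (h : u =ᶠ[𝓝 x] u') : EqAt M (M.hs u) (M.hs u') x :=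
  fun e he hx => hess_congr (((e.tendsto_symm hx).eventually h).mono fun z hz =>
    congrArg ofReal hz)

theorem hs_add {u u' : M.X → ℝ} (h : SmAt M u x) (h' : SmAt M u' x) :
    EqAt M (M.hs fun y => u y + u' y) (M.hs u + M.hs u') x := fun e he hx => by
  have := hess_add (cd_ofReal (h e he hx)) (cd_ofReal (h' e he hx))
  simp only [← ofReal_add] at this
  exact this

theorem hol_ev {r : ℕ} {H : M.X → E r} (h : HolAt M H x) : ∀ᶠ y in 𝓝 x, HolAt M H y := by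
  obtain ⟨e, he, hx⟩ := M.cov x
  filter_upwards [e.open_source.mem_nhds hx,
    (e.continuousAt hx).eventually (h e he hx).eventually_nhds] with y hy h1 e' he' hy'
  have hO : IsOpen (e'.target ∩ e'.symm ⁻¹' e.source) := e'.symm.isOpen_inter_preimage e.open_source
  have hm : e' y ∈ e'.target ∩ e'.symm ⁻¹' e.source :=
    ⟨e'.map_source hy', by simpa [e'.left_inv hy'] using hy⟩
  have h2 : Hn (e ∘ e'.symm) (e' y) := hn_of_on hO (M.hol e he e' he') hm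
  have h3 : Hn (H ∘ e.symm) ((e ∘ e'.symm) (e' y)) := by
    rw [Function.comp_apply, e'.left_inv hy']; exact h1
  refine hn_congr (hn_comp h3 h2) ?_
  filter_upwards [hO.mem_nhds hm] with z hz
  simp [e.left_inv hz.2]

theorem sm_comp {r : ℕ} {H : M.X → E r} {ψ : E r → ℝ} (h : HolAt M H x)
    (hψ : AnalyticAt ℝ ψ (H x)) : SmAt M (ψ ∘ H) x := fun e he hx => by
  have h1 : ContDiffAt ℝ ∞ (H ∘ e.symm) (e x) := (hn_cd (h e he hx)).restrict_scalars ℝ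
  have h2 : ContDiffAt ℝ ∞ ψ ((H ∘ e.symm) (e x)) := by
    simpa [e.left_inv hx] using hψ.contDiffAt
  exact h2.comp _ h1

theorem hol_sh {H : M.X → E (k + j)} (h : HolAt M H x) (ξ : Fin k → ℝ) :
    HolAt M (fun y => sh (H y) ξ) x := fun e he hx =>
  (h e he hx).mono fun z hz => hz.add_const _

variable {ρ : (Fin k → ℝ) → M.X → ℝ} {ξ : Fin k → ℝ}

theorem an_rho (h : JA M ρ ξ x) : AnalyticAt ℝ (fun a => ρ a x) ξ := by
  obtain ⟨e, he, hx⟩ := M.cov x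
  have := (h e he hx).comp_of_eq (f := fun a : Fin k → ℝ => (a, e x))
    (analyticAt_id.prod analyticAt_const) rfl
  simpa [Function.comp_def, e.left_inv hx] using this

theorem sm_rho (h : JA M ρ ξ x) : SmAt M (ρ ξ) x := fun e he hx =>
  ((h e he hx).comp_of_eq (f := fun z : E n => (ξ, z))
    (analyticAt_const.prod analyticAt_id) rfl).contDiffAt

theorem fam_pt {ψ : E (k + j) → ℝ} {H : M.X → E (k + j)} (h : Fam1 M ρ ψ ξ H x) :
    ∀ᶠ y in 𝓝 x, ∀ᶠ a in 𝓝 (0 : Fin k → ℝ),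
      ρ (ξ + a) y - ρ ξ y = ψ (sh (H y) a) - ψ (H y) := by
  have : ∀ᶠ w : M.X × (Fin k → ℝ) in 𝓝 (x, 0),
      ρ (ξ + w.2) w.1 - ρ ξ w.1 = ψ (sh (H w.1) w.2) - ψ (H w.1) :=
    (continuous_swap.tendsto (x, (0 : Fin k → ℝ))).eventually h
  have h1 : ∀ᶠ y in 𝓝 x, ∀ᶠ w : M.X × (Fin k → ℝ) in 𝓝 (y, 0),
      ρ (ξ + w.2) w.1 - ρ ξ w.1 = ψ (sh (H w.1) w.2) - ψ (H w.1) :=
    ((Continuous.prodMk_left (0 : Fin k → ℝ)).tendsto x).eventually this.eventually_nhds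
  exact h1.mono fun y hy => ((Continuous.prodMk_right y).tendsto 0).eventually hy

end mf

section main

variable {n k j : ℕ} {M : Mf n} {φ : M.Fam ℝ} {μ : Fin k → M.X → ℝ} {V : M.Cov}
  {ρ : (Fin k → ℝ) → M.X → ℝ} {x₀ : M.X} {Φ : E (k + j) × E (k + j) → ℂ} {δ c : ℝ} {O : Set M.X}
  {H : M.X → E (k + j)} {σ : E (k + j) → M.X}

/-- The base point as a linear map. -/
def apL (k j : ℕ) : E (k + j) →L[ℝ] E (k + j) :=
  LinearMap.toContinuousLinearMap ⟨⟨fun t => Fin.append 0 (sx t), fun a b =>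
    ext_fs (by simp) (by simp)⟩, fun r a => ext_fs (by simp) (by simp)⟩

/-- The real parameter as a linear map. -/
def r2L (k j : ℕ) : E (k + j) →L[ℝ] (Fin k → ℝ) :=
  LinearMap.toContinuousLinearMap ⟨⟨fun t => r2 (fx t), fun a b => by
    funext i; simp [r2, mul_add]⟩, fun r a => by funext i; simp [r2]; ring⟩

theorem phh_an (hF : Flow M j φ μ V ρ) (hB : Box M φ μ x₀ Φ δ c O H σ) (t : E (k + j))
    (ht : ‖sx t‖ < 2 * δ) : AnalyticAt ℝ (phh Φ ρ σ) t := by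
  have h0 : ‖apL k j t‖ < 2 * δ := (norm_ap _).trans_lt ht
  obtain ⟨-, -, h1, h2⟩ := hB.sec _ (mem_ball_zero_iff.2 h0)
  obtain ⟨e, he, hx⟩ := M.cov (σ (apL k j t))
  have a1 : AnalyticAt ℝ (fun w => ph0 Φ (apL k j w)) t :=
    (an_ph0 hB.tv ((norm_pj _).trans_lt h0)).comp ((apL k j).analyticAt t)
  have a2 : AnalyticAt ℝ (fun w => (r2L k j w, e (σ (apL k j w)))) t :=
    ((r2L k j).analyticAt t).prod
      (((ANB.analyticAt (h2 e he hx)).restrictScalars (𝕜 := ℝ)).comp ((apL k j).analyticAt t))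
  refine a1.add (((hF.ja _ _ e he hx).comp_of_eq a2 rfl).congr ?_)
  filter_upwards [(h1.comp (apL k j).continuous.continuousAt).eventually
    (e.open_source.mem_nhds hx)] with w hw
  exact congrArg (ρ _) (e.left_inv hw)

theorem cvx_set (t : E (k + j)) (r : ℝ) : Convex ℝ {a : Fin k → ℝ | ‖pj (sh t a)‖ < r} := by
  have := ((convex_ball (0 : E (k + j)) r).translate_preimage_right (pj t)).linear_preimage
    (ioL k j).toLinearMap
  have e : {a : Fin k → ℝ | ‖pj (sh t a)‖ < r} =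
      (ioL k j).toLinearMap ⁻¹' ((fun x => pj t + x) ⁻¹' ball 0 r) := by
    ext a
    rw [mem_ofPred_eq, pj_sh, ← mem_ball_zero_iff]
    rfl
  rwa [e]

theorem rho_box (hF : Flow M j φ μ V ρ) (hB : Box M φ μ x₀ Φ δ c O H σ) {y : M.X} (hy : y ∈ O)
    {a : Fin k → ℝ} (ha : ‖pj (sh (H y) a)‖ < 2 * δ) :
    ρ a y = ph0 Φ (sh (H y) a) - ph0 Φ (H y) := by
  refine AnalyticOnNhd.eqOn_of_preconnected_of_eventuallyEq (𝕜 := ℝ) (f := fun a => ρ a y)
    (g := fun a => ph0 Φ (sh (H y) a) - ph0 Φ (H y)) (fun a _ => an_rho (hF.ja a y))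
    (fun a ha => ((an_ph0 hB.tv ha).comp (an_sh _ a)).sub analyticAt_const)
    (cvx_set (H y) (2 * δ)).isPreconnected (z₀ := 0)
    (show ‖pj (sh (H y) 0)‖ < 2 * δ by simpa using (hB.adm y hy).val) ?_ ha
  filter_upwards [(fam_pt (hF.box x₀ Φ δ c O H σ hB y hy)).self_of_nhds] with a ha
  simpa [hF.z0] using ha

theorem phh_eq (hF : Flow M j φ μ V ρ) (hB : Box M φ μ x₀ Φ δ c O H σ) (t : E (k + j))
    (ht : ‖pj t‖ < 2 * δ) : phh Φ ρ σ t = ph0 Φ t := by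
  have h0 : ‖(Fin.append (0 : E k) (sx t) : E (k + j))‖ < 2 * δ :=
    (norm_ap _).trans_lt (lt_of_le_of_lt (by simpa using norm_sx (pj t)) ht)
  obtain ⟨h1, h2, -⟩ := hB.sec _ (mem_ball_zero_iff.2 h0)
  have := rho_box hF hB h1 (a := r2 (fx t)) (by rwa [h2, sh_r2, pj_pj])
  rw [h2, sh_r2] at this
  rw [phh, this]
  simp [ph0]

theorem ev_pj (t : E (k + j)) {r : ℝ} (ht : ‖pj t‖ < r) :
    ∀ᶠ a in 𝓝 (0 : Fin k → ℝ), ‖pj (sh t a)‖ < r :=
  (cont_pj.continuousAt.comp (an_sh t 0).continuousAt).norm.eventually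
    (gt_mem_nhds (by simpa using ht))

/-- The family identity for all parameters. -/
theorem fam_all (hF : Flow M j φ μ V ρ) (hB : Box M φ μ x₀ Φ δ c O H σ) {ξ : Fin k → ℝ}
    {y : M.X} {t : E (k + j)} (ht : ‖pj t‖ < 2 * δ)
    (h : ∀ᶠ a in 𝓝 (0 : Fin k → ℝ), ρ (ξ + a) y - ρ ξ y = ph0 Φ (sh t a) - ph0 Φ t)
    (a : Fin k → ℝ) : ρ (ξ + a) y - ρ ξ y = phh Φ ρ σ (sh t a) - phh Φ ρ σ t := by
  have h0 : ‖sx t‖ < 2 * δ := lt_of_le_of_lt (by simpa using norm_sx (pj t)) ht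
  refine AnalyticOnNhd.eqOn_of_preconnected_of_eventuallyEq (𝕜 := ℝ)
    (f := fun a => ρ (ξ + a) y - ρ ξ y) (g := fun a => phh Φ ρ σ (sh t a) - phh Φ ρ σ t)
    (fun a _ => ((an_rho (hF.ja (ξ + a) y)).comp_of_eq (analyticAt_const.add analyticAt_id)
      rfl).sub analyticAt_const)
    (fun a _ => ((phh_an hF hB _ (by simpa using h0)).comp (an_sh _ a)).sub analyticAt_const)
    isPreconnected_univ (z₀ := 0) (mem_univ _) ?_ (mem_univ a)
  filter_upwards [h, ev_pj t ht] with a h1 h2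
  rw [h1, phh_eq hF hB _ h2, phh_eq hF hB _ ht]

theorem phh_dn (hF : Flow M j φ μ V ρ) (hB : Box M φ μ x₀ Φ δ c O H σ) (K : M.X → E (k + j))
    (x : M.X) (ξ : Fin k → ℝ) (h : Adm M φ ρ Φ δ ξ K x) :
    AdmE M φ ρ (phh Φ ρ σ) δ (fun y => sh (K y) (-ξ)) x := by
  have hv : ∀ᶠ y in 𝓝 x, ‖pj (K y)‖ < 2 * δ :=
    (cont_pj.continuousAt.comp h.iso.1.cont).norm.eventually (gt_mem_nhds h.val)
  have hs : ∀ {y}, ‖pj (K y)‖ < 2 * δ → ‖sx (sh (K y) (-ξ))‖ < 2 * δ := fun hy =>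
    lt_of_le_of_lt (by simpa using norm_sx (pj _)) hy
  have h1 : ∀ᶠ y in 𝓝 x, ∀ a,
      ρ (ξ + a) y - ρ ξ y = phh Φ ρ σ (sh (K y) a) - phh Φ ρ σ (K y) := by
    filter_upwards [hv, fam_pt h.fam] with y h1 h2 using fam_all hF hB h1 h2
  have h2 : ∀ᶠ y in 𝓝 x, (ph0 Φ ∘ K) y = (phh Φ ρ σ ∘ fun y => sh (K y) (-ξ)) y + ρ ξ y := by
    filter_upwards [hv, h1] with y h1 h2
    have := h2 (-ξ)
    rw [add_neg_cancel, hF.z0, phh_eq hF hB _ h1] at this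
    simp only [Function.comp]
    linarith
  refine ⟨⟨hol_sh h.iso.1 _, ?_⟩, hs h.val, h1.mono fun y hy a => ?_⟩
  · filter_upwards [hv, h2.eventually_nhds, h.iso.2, hol_ev h.iso.1] with y a1 a2 a3 a4 e he hy
    have b1 := hs_add (sm_comp (hol_sh a4 (-ξ)) (phh_an hF hB _ (hs a1))) (sm_rho (hF.ja ξ y))
      e he hy
    have b2 := hs_congr a2 e he hy
    have b3 := a3 e he hy
    simp only [Pi.add_apply] at b1 b2 b3
    exact add_right_cancel (b1.symm.trans (b2.symm.trans b3))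
  · have b1 := hy (-ξ)
    have b2 := hy (-ξ + a)
    rw [add_neg_cancel, hF.z0] at b1
    rw [add_neg_cancel_left] at b2
    rw [sh_sh]
    linarith

theorem phh_up (hF : Flow M j φ μ V ρ) (hB : Box M φ μ x₀ Φ δ c O H σ) (K : M.X → E (k + j))
    (x : M.X) (ξ : Fin k → ℝ) (h : AdmE M φ ρ (phh Φ ρ σ) δ K x)
    (hx : ‖pj (sh (K x) ξ)‖ < 2 * δ) : Adm M φ ρ Φ δ ξ (fun y => sh (K y) ξ) x := by
  have hc := (hol_sh h.iso.1 ξ).cont
  have hv : ∀ᶠ y in 𝓝 x, ‖pj (sh (K y) ξ)‖ < 2 * δ :=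
    (cont_pj.continuousAt.comp hc).norm.eventually (gt_mem_nhds hx)
  have h2 : ∀ᶠ y in 𝓝 x, (ph0 Φ ∘ fun y => sh (K y) ξ) y = (phh Φ ρ σ ∘ K) y + ρ ξ y := by
    filter_upwards [hv, h.fam] with y h1 h2
    simp only [Function.comp]
    rw [h2 ξ, phh_eq hF hB _ h1]
    ring
  refine ⟨⟨hol_sh h.iso.1 _, ?_⟩, hx, ?_⟩
  · filter_upwards [hv, h2.eventually_nhds, h.iso.2, hol_ev h.iso.1] with y a1 a2 a3 a4 e he hy
    have b1 := hs_add (sm_comp a4 (phh_an hF hB _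
      (lt_of_le_of_lt (by simpa using norm_sx (pj (sh (K y) ξ))) a1))) (sm_rho (hF.ja ξ y)) e he hy
    have b2 := hs_congr a2 e he hy
    have b3 := a3 e he hy
    simp only [Pi.add_apply] at b1 b2 b3 ⊢
    rw [b2, b1, b3]
  · have c1 : ContinuousAt (fun w : (Fin k → ℝ) × M.X => ‖pj (sh (sh (K w.2) ξ) w.1)‖) (0, x) :=
      (cont_pj.continuousAt.comp (cont_sh.continuousAt.comp
        ((hc.comp_of_eq continuousAt_snd rfl).prodMk continuousAt_fst))).norm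
    filter_upwards [c1.eventually (gt_mem_nhds (show _ < 2 * δ by simpa using hx)),
      (continuous_snd.tendsto ((0 : Fin k → ℝ), x)).eventually (hv.and h.fam)] with w a1 a2
    rw [← phh_eq hF hB _ a1, ← phh_eq hF hB _ a2.1, a2.2, a2.2, sh_sh]
    ring

theorem phh_box (hF : Flow M j φ μ V ρ) (hB : Box M φ μ x₀ Φ δ c O H σ) (x : M.X) (hx : x ∈ O) :
    AdmE M φ ρ (phh Φ ρ σ) δ H x := by
  have := phh_dn hF hB H x 0 ⟨⟨(hB.adm x hx).iso.1, ?_⟩, (hB.adm x hx).val,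
    hF.box x₀ Φ δ c O H σ hB x hx⟩
  · simpa using this
  · have e0 : M.hs (ρ 0) = 0 := by
      funext e z
      simp [Mf.hs, show M.lc (ρ 0) e = fun _ => 0 from funext fun _ => by simp [Mf.lc, hF.z0]]
    rw [e0, add_zero]
    exact (hB.adm x hx).iso.2

theorem dot_le (u b : Fin k → ℝ) : u ⬝ᵥ b ≤ k * ‖u‖ * ‖b‖ := by
  calc _ ≤ ∑ _i : Fin k, ‖u‖ * ‖b‖ := Finset.sum_le_sum fun i _ =>
        (le_abs_self _).trans (by
          rw [abs_mul]
          exact mul_le_mul (norm_le_pi_norm u i) (norm_le_pi_norm b i) (abs_nonneg _)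
            (norm_nonneg _))
    _ = _ := by simp [mul_assoc]

theorem phh_coe (hF : Flow M j φ μ V ρ) (hB : Box M φ μ x₀ Φ δ c O H σ) :
    ∃ δ', 0 < δ' ∧ δ' ≤ δ / 2 ∧ ∀ t : E (k + j), ‖sx t‖ ≤ δ' → δ ≤ ‖r2 (fx t)‖ →
      phh Φ ρ σ (Fin.append 0 (sx t)) + c * δ / 4 * ‖r2 (fx t)‖ ≤
        phh Φ ρ σ t - mu0 Φ 0 ⬝ᵥ r2 (fx t) := by
  have d0 := hB.tv.d0
  have c0 := hB.tv.c0
  have hc : ContinuousAt (fun w => k * ‖mu0 Φ 0 - mu0 Φ w‖) 0 :=
    continuousAt_const.mul (continuousAt_const.sub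
      (an_mu0 hB.tv (by simpa using d0)).continuousAt).norm
  obtain ⟨r, r0, hr⟩ := Metric.eventually_nhds_iff_ball.1
    (hc.eventually (gt_mem_nhds (show _ < c * δ / 4 by simp; positivity)))
  refine ⟨min (r / 2) (δ / 2), by positivity, min_le_right _ _, fun t h1 h2 => ?_⟩
  set s : E (k + j) := Fin.append 0 (sx t) with hs
  set ξ := r2 (fx t)
  have n0 : ‖s‖ ≤ min (r / 2) (δ / 2) := (norm_ap _).trans h1
  have n1 : ‖s‖ ≤ δ / 2 := n0.trans (min_le_right _ _)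
  have n2 := hr s (mem_ball_zero_iff.2 (by linarith [min_le_left (r / 2) (δ / 2)]))
  obtain ⟨a1, a2, -⟩ := hB.sec s (mem_ball_zero_iff.2 (by linarith))
  have x0 : 0 < ‖ξ‖ := d0.trans_le h2
  set l : ℝ := δ / ‖ξ‖ with hl
  have l0 : 0 < l := by positivity
  have l1 : l ≤ 1 := (div_le_one x0).2 h2
  have l2 : l * ‖ξ‖ = δ := div_mul_cancel₀ _ x0.ne'
  have nb : ‖l • ξ‖ = δ := by rw [norm_smul, Real.norm_of_nonneg l0.le, l2]
  have hin : ∀ τ ∈ Icc (0 : ℝ) 1, ‖pj (sh s (τ • l • ξ))‖ < 2 * δ := fun τ hτ => by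
    refine (norm_pj _).trans_lt ((norm_add_le _ _).trans_lt ?_)
    have := norm_io (j := j) ((1 / 2 : ℝ) • τ • l • ξ)
    rw [norm_smul, norm_smul, nb, Real.norm_of_nonneg hτ.1, Real.norm_of_nonneg (by norm_num)]
      at this
    nlinarith [hτ.2]
  have s1 := strong hB.tv hin
  have s2 := rho_box hF hB a1 (a := l • ξ) (by simpa [a2] using hin 1 (by simp))
  have s3 := (hF.cvx (σ s)).2 (mem_univ ξ) (mem_univ 0) l0.le (sub_nonneg.2 l1) (by ring)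
  have s4 := dot_le (mu0 Φ 0 - mu0 Φ s) (l • ξ)
  rw [a2] at s2
  rw [nb] at s1 s4
  rw [sub_dotProduct] at s4
  simp only [smul_zero, add_zero, hF.z0, smul_eq_mul, dotProduct_smul] at s1 s3 s4
  have e1 : phh Φ ρ σ s = ph0 Φ s := by
    have : r2 (0 : E k) = 0 := by funext i; simp [r2]
    simp [phh, hs, this, hF.z0]
  have e2 : phh Φ ρ σ t = ph0 Φ s + ρ ξ (σ s) := rfl
  rw [e1, e2]
  have s5 : l * (c * δ / 4 * ‖ξ‖) ≤ l * (ρ ξ (σ s) - mu0 Φ 0 ⬝ᵥ ξ) := by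
    have : l * (c * δ / 4 * ‖ξ‖) = c * δ / 4 * δ := by rw [← l2]; ring
    nlinarith
  linarith [le_of_mul_le_mul_left s5 l0]

end main

end PHK

open PHK in
theorem st_PHH : St_PHH := fun n k j M _ G φ μ V ρ x₀ Φ δ c O H σ _ hF hB => by
  obtain ⟨δ', h1, h2, h3⟩ := phh_coe hF hB
  have d0 := hB.tv.d0
  have c0 := hB.tv.c0
  refine ⟨δ', c * δ / 4, phh_an hF hB, phh_eq hF hB, fun t a => ?_, phh_box hF hB, phh_up hF hB,
    phh_dn hF hB, h1, h2, by positivity, h3⟩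
  have e : r2 (fx (t + I • io j a)) = r2 (fx t) := by funext i; simp [r2]
  simp only [phh, e, sx_add, sx_smul, sx_io, smul_zero, add_zero]

end Pool.Agent.Lib.RA
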