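import Pool.Agent.Lib.RY.B_R0

/-! Project ra2, row RN: the data for peak sections when the curvature has maximal rank. -/

open scoped Classical Topology ContDiff ComplexOrder Matrix
open Set Complex Metric Filter

set_option linter.unusedVariables false

noncomputable section

namespace Pool.Agent.Lib.RA

open Pool.Agent.Lib.SV (E)
open Pool.Agent.Lib.HS32

namespace R71

variable {n : ℕ} {M : Mf n} {e e' : M.Ch} {x : M.X}

theorem det_of_rank {A : Mat n} (h : A.rank = n) : A.det ≠ 0 := by
  have : LinearMap.range A.mulVecLin = ⊤ :=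
    Submodule.eq_top_of_finrank_eq (by simpa [Matrix.rank] using h)
  exact ((Matrix.isUnit_iff_isUnit_det A).1
    (Matrix.mulVec_surjective_iff_isUnit.1 (LinearMap.range_eq_top.1 this))).ne_zero

theorem jr_chart (a : E n) (x : M.X) : jr ((fun y => e y - a) ∘ e'.symm) (e' x) = M.J e e' x := by
  ext i l
  exact congrArg (fun L : E n →L[ℂ] E n => L (Pi.single l 1) i)
    (fderiv_sub_const (𝕜 := ℂ) (f := e ∘ e'.symm) (x := e' x) a)

end R71

open R71 in
theorem st_RN : St_RN := by
  intro n M _ L G φ hS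
  obtain ⟨x, hx⟩ := hS.den.nonempty
  have he := Mf.ch_mem x
  have hm := Mf.mem_ch x
  have hd : (M.hw φ (M.ch x) (M.ch x x)).det ≠ 0 := det_of_rank hx
  generalize M.ch x = e at he hm hd
  have hT := (hS.wt.clo).toForm.toTen
  obtain ⟨δ, d0, hb⟩ := nhds_basis_closedBall.mem_iff.1
    (((hT.sm.at he hm).ev_det hd).and (e.open_target.mem_nhds (e.map_source hm)))
  obtain ⟨D, D0, hD⟩ := BBD.cmp (isCompact_closedBall (e x) δ) (H := M.hw φ e) (T := fun _ => 1)
    (fun z hz => hT.sm e he z (hb hz).2) (fun z hz => by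
      have := hS.psd e he z (hb hz).2
      simp only [Pi.zero_apply, sub_zero] at this
      exact this.posDef_iff_det_ne_zero.2 (hb hz).1)
    (fun z _ => smM_const 1) fun z _ => Matrix.isHermitian_one
  have tr := fun e' he' y hy hy' => (mTR n M).2.1 e he e' he' y hy hy'
  refine ⟨x, e.source ∩ e ⁻¹' ball (e x) δ, fun y => e y - e x, δ / 2, D⁻¹,
    fun e' z => L.c e e' (e'.symm z), one_pos, by positivity, by positivity,
    e.isOpen_inter_preimage isOpen_ball, ⟨hm, mem_ball_self d0⟩, sub_self _,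
    fun y hy e' he' hy' => (tr e' he' y hy.1 hy').1.mono fun w hw => hw.sub_const _,
    fun e' he' hx' v => ?_, ?_, fun y hy e' he' hy' => ?_, fun a ha b hb' y h1 h2 hy => ?_,
    fun y hy e' he' hy' => ⟨?_, ?_⟩⟩
  · obtain ⟨h1, -, h2, -⟩ := tr e' he' x hm hx'
    refine ⟨M.J e' e x *ᵥ v, ?_⟩
    have := fderiv_sub_const (𝕜 := ℂ) (f := e ∘ e'.symm) (x := e' x) (e x)
    change fderiv ℂ (fun w => (e ∘ e'.symm) w - e x) (e' x) _ = v
    rw [this, (mCHN n _ _ h1).2.2.2.2.2.1]
    change M.J e e' x *ᵥ _ = v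
    rw [Matrix.mulVec_mulVec, h2, Matrix.one_mulVec]
  · have hs : closedBall (e x) (δ / 2) ⊆ e.target := fun z hz =>
      (hb (closedBall_subset_closedBall (by linarith) hz)).2
    have hc := ((isCompact_closedBall (e x) (δ / 2)).image_of_continuousOn
      (e.continuousOn_symm.mono hs)).isClosed
    convert hc using 1
    ext y
    constructor
    · rintro ⟨⟨h1, -⟩, h2⟩
      exact ⟨e y, mem_closedBall_iff_norm.2 h2, e.left_inv h1⟩
    · rintro ⟨z, hz, rfl⟩
      have h1 := e.right_inv (hs hz)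
      exact ⟨⟨e.map_target (hs hz), by
        rw [mem_preimage, h1]; exact closedBall_subset_ball (by linarith) hz⟩, by
        simp only [h1]; exact mem_closedBall_iff_norm.1 hz⟩
  · have h1 := (Mf.psd_rsmul (hD D le_rfl _ (ball_subset_closedBall hy.2)).1
      (inv_pos.2 D0).le).conjTranspose_mul_mul_same (M.J e e' y)
    have h2 := hT.cmp e he e' he' y hy.1 hy'
    beta_reduce at h2 ⊢
    rw [h2, pb, jr_chart]
    convert h1 using 1
    rw [smul_sub, smul_smul, inv_mul_cancel₀ D0.ne', one_smul, mul_sub, sub_mul, Matrix.mul_smul,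
      Matrix.smul_mul]
    rfl
  · beta_reduce
    rw [a.left_inv h1, b.left_inv h2, L.mul e he a ha y hy.1 h1 b hb' h2, pow_one]
  · exact L.hol e he e' he' y hy.1 hy'
  · beta_reduce
    rw [e'.left_inv hy']
    exact L.ne e he e' he' y hy.1 hy'

end Pool.Agent.Lib.RA
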