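import Pool.Agent.Lib.RY.Blue0
import Pool.Agent.Lib.RA.T_NUL
import Pool.Agent.Lib.HS32.MAll

/-! The rank of an analytic field of matrices. -/

open scoped Classical Topology ContDiff ComplexOrder Matrix
open Set MeasureTheory Complex Metric Filter

set_option linter.unusedVariables false

noncomputable section

namespace Pool.Agent.Lib.RA

open Pool.Agent.Lib.SV (E nsq)
open Pool.Agent.Lib.HS32

namespace RK

variable {n r : ℕ}

/-- The rank in terms of generalised minors. -/
theorem le_rank_iff (A : Mat n) (r : ℕ) : r ≤ A.rank ↔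
    ∃ (P : Matrix (Fin r) (Fin n) ℂ) (Q : Matrix (Fin n) (Fin r) ℂ), (P * A * Q).det ≠ 0 := by
  constructor
  · intro h
    obtain ⟨V, U, e, -, -, he⟩ := Matrix.exists_rank_normal_form A
    set s : Fin r → Fin n := fun i => e.symm (Sum.inl (Fin.castLE h i)) with hs
    refine ⟨V.submatrix s id, U.submatrix id s, ?_⟩
    have : V.submatrix s id * A * U.submatrix id s = 1 := by
      have h1 : V.submatrix s id * A * U.submatrix id s = (V * A * U).submatrix s s := by
        ext i j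
        simp [Matrix.mul_apply]
      rw [h1, he]
      ext i j
      simp [hs, Matrix.one_apply]
    rw [this, Matrix.det_one]
    exact one_ne_zero
  · rintro ⟨P, Q, h⟩
    have := Matrix.rank_of_det_ne_zero h
    rw [Fintype.card_fin] at this
    rw [← this]
    exact (Matrix.rank_mul_le_left _ _).trans (Matrix.rank_mul_le_right _ _)

theorem an_fd {f : E n → ℂ} {z : E n} (h : AnalyticAt ℝ f z) (v : E n) :
    AnalyticAt ℝ (fun w => fderiv ℝ f w v) z :=
  ((ContinuousLinearMap.apply ℝ ℂ v).analyticAt _).comp h.fderiv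

theorem an_dz {f : E n → ℂ} {z : E n} (h : AnalyticAt ℝ f z) (j : Fin n) :
    AnalyticAt ℝ (dz j f) z :=
  ((an_fd h _).sub (analyticAt_const.mul (an_fd h _))).mul (analyticAt_const (v := (2 : ℂ)⁻¹))

theorem an_dzb {f : E n → ℂ} {z : E n} (h : AnalyticAt ℝ f z) (j : Fin n) :
    AnalyticAt ℝ (dzb j f) z :=
  ((an_fd h _).add (analyticAt_const.mul (an_fd h _))).mul (analyticAt_const (v := (2 : ℂ)⁻¹))

theorem an_hess {f : E n → ℝ} {z : E n} (h : AnalyticAt ℝ f z) (i j : Fin n) :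
    AnalyticAt ℝ (fun w => hess (fun w => (f w : ℂ)) w i j) z :=
  an_dzb (an_dz ((ofRealCLM.analyticAt _).comp h) j) i

theorem an_det {V : Type} [NormedAddCommGroup V] [NormedSpace ℝ V] {ι : Type} [Fintype ι]
    [DecidableEq ι] {T : V → Matrix ι ι ℂ} {z : V} (h : ∀ i j, AnalyticAt ℝ (fun w => T w i j) z) :
    AnalyticAt ℝ (fun w => (T w).det) z := by
  simp only [Matrix.det_apply']
  exact Finset.analyticAt_fun_sum _ fun σ _ =>
    analyticAt_const.mul (Finset.analyticAt_fun_prod _ fun a _ => h _ _)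

theorem an_minor {V : Type} [NormedAddCommGroup V] [NormedSpace ℝ V] {T : V → Mat n} {z : V}
    (h : ∀ i j, AnalyticAt ℝ (fun w => T w i j) z) (P : Matrix (Fin r) (Fin n) ℂ)
    (Q : Matrix (Fin n) (Fin r) ℂ) : AnalyticAt ℝ (fun w => (P * T w * Q).det) z :=
  an_det fun i j => by
    simp only [Matrix.mul_apply]
    exact Finset.analyticAt_fun_sum _ fun a _ => (Finset.analyticAt_fun_sum _ fun b _ =>
      analyticAt_const.mul (h _ _)).mul analyticAt_const

/-- A lower bound for the rank is an open condition. -/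
theorem ev_le {V : Type} [TopologicalSpace V] {T : V → Mat n} {z : V} (h : ContinuousAt T z)
    (hr : r ≤ (T z).rank) : ∀ᶠ w in 𝓝 z, r ≤ (T w).rank := by
  obtain ⟨P, Q, h0⟩ := (le_rank_iff _ r).1 hr
  have hc : Continuous fun A : Mat n => (P * A * Q).det :=
    ((continuous_const.matrix_mul continuous_id).matrix_mul continuous_const).matrix_det
  exact ((hc.continuousAt.comp h).eventually_ne h0).mono fun w hw => (le_rank_iff _ r).2 ⟨P, Q, hw⟩

/-- A lower bound for the rank at one point holds almost everywhere and on a dense set. -/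
theorem ae_le {T : E n → Mat n} {O : Set (E n)} (hO : IsOpen O) (hc : IsPreconnected O)
    (h : ∀ z ∈ O, ∀ i j, AnalyticAt ℝ (fun w => T w i j) z) {y : E n} (hy : y ∈ O)
    (hr : r ≤ (T y).rank) :
    (∀ᵐ z, z ∈ O → r ≤ (T z).rank) ∧ ∀ z ∈ O, ∃ᶠ w in 𝓝 z, r ≤ (T w).rank := by
  obtain ⟨P, Q, h0⟩ := (le_rank_iff _ r).1 hr
  obtain ⟨a, b⟩ := st_NUL (E n) ℂ volume O _ hO hc (fun z hz => an_minor (h z hz) P Q) ⟨y, hy, h0⟩
  exact ⟨a.mono fun z hz h1 => (le_rank_iff _ r).2 ⟨P, Q, hz h1⟩,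
    fun z hz => (b z hz).mono fun w hw => (le_rank_iff _ r).2 ⟨P, Q, hw⟩⟩

variable {M : Mf n}

/-- The rank of a tensor does not depend on the chart. -/
theorem rank_rep {T : M.Fam (Mat n)} (hT : M.Ten T) :
    M.Rep (fun x => (M.ev T x).rank) fun e z => (T e z).rank := by
  refine Mf.Inv.rep (Φ := fun e z => (T e z).rank) fun e he e' he' x hx hx' => ?_
  have hd := ((mTR n M).2.1 e he e' he' x hx hx').2.1
  beta_reduce
  rw [hT.cmp e he e' he' x hx hx', Matrix.rank_mul_eq_left_of_det_ne_zero _ _ hd,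
    Matrix.rank_mul_eq_right_of_det_ne_zero _ _ (by rw [Matrix.det_conjTranspose]; simpa using hd)]

theorem chart_ball (x : M.X) : ∃ e ∈ M.C, ∃ ρ > 0, x ∈ e.source ∧ ball (e x) ρ ⊆ e.target ∧
    e.source ∩ e ⁻¹' ball (e x) ρ ∈ 𝓝 x := by
  obtain ⟨e, he, hx⟩ := M.cov x
  obtain ⟨ρ, h0, h1⟩ := Metric.isOpen_iff.1 e.open_target _ (e.map_source hx)
  exact ⟨e, he, ρ, h0, hx, h1, inter_mem (e.open_source.mem_nhds hx)
    ((e.continuousAt hx).preimage_mem_nhds (ball_mem_nhds _ h0))⟩

/-- A lower bound for the rank at one point holds on a dense set. -/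
theorem dense_le [M.Cpt] {T : M.Fam (Mat n)} (hT : M.Ten T)
    (ha : M.All fun e z => ∀ i j, AnalyticAt ℝ (fun w => T e w i j) z) {y : M.X}
    (hy : r ≤ (M.ev T y).rank) (x : M.X) : ∃ᶠ w in 𝓝 x, r ≤ (M.ev T w).rank := by
  have hR := rank_rep hT
  by_contra hx
  have hcl : IsClopen {x : M.X | ∀ᶠ w in 𝓝 x, ¬r ≤ (M.ev T w).rank} := by
    refine ⟨isClosed_iff_frequently.2 fun x hx => ?_, isOpen_setOfPred_eventually_nhds⟩
    obtain ⟨e, he, ρ, h0, h1, h2, h3⟩ := chart_ball x
    obtain ⟨w, hw, hw1, hw2⟩ := (hx.and_eventually h3).exists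
    filter_upwards [h3] with u hu hr
    rw [hR.at he hu.1] at hr
    have h4 := (ae_le isOpen_ball (convex_ball _ _).isPreconnected
      (fun z hz => ha e he z (h2 hz)) hu.2 hr).2 _ hw2
    have h5 : ∀ᶠ z in 𝓝 (e w), ¬r ≤ (M.ev T (e.symm z)).rank :=
      (e.continuousAt_symm (e.map_source hw1)).eventually (by rwa [e.left_inv hw1])
    obtain ⟨z, hz, hz1, hz2⟩ :=
      (h4.and_eventually (h5.and (e.open_target.mem_nhds (e.map_source hw1)))).exists
    exact hz1 (by rw [show (M.ev T (e.symm z)).rank = _ from hR e he z hz2]; exact hz)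
  have := hcl.eq_univ ⟨x, not_frequently.1 hx⟩
  exact (show y ∈ {x : M.X | ∀ᶠ w in 𝓝 x, ¬r ≤ (M.ev T w).rank} from
    this ▸ mem_univ y).self_of_nhds hy

end RK

open RK

theorem st_RKP : St_RKP := by
  intro n M _ φ r x hw ha h e he z hz
  have hT := (hw.clo).toTen
  by_contra hr
  have hR := rank_rep hT
  obtain ⟨y, h1, h2⟩ := ((dense_le (r := r + 1) hT (fun e he z hz => an_hess (ha e he z hz))
    (y := e.symm z) ((Nat.succ_le_of_lt (not_le.1 hr)).trans (hR e he z hz).ge)
    x).and_eventually h).exists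
  have := h2 _ (Mf.ch_mem y) (Mf.mem_ch y)
  exact absurd (h1.trans this) (by omega)

theorem st_X0 : St_X0 := by
  intro n M φ r hw ha hle
  have hT := (hw.clo).toTen
  have hR := rank_rep hT
  have hl : ∀ x, (M.ev (M.hw φ) x).rank ≤ r := fun x => hle.ch x
  have hA : M.All fun e z => e.symm z ∈ X0 M (M.hw φ) r ↔ (M.hw φ e z).rank = r :=
    fun e he z hz => ⟨fun h => (hR e he z hz).symm.trans h, fun h => (hR e he z hz).trans h⟩
  have hO : IsOpen (X0 M (M.hw φ) r) := by
    refine isOpen_iff_mem_nhds.2 fun x hx => ?_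
    obtain ⟨e, he, h1⟩ := M.cov x
    have h2 : r ≤ (M.hw φ e (e x)).rank := by rw [← hR.at he h1]; exact ge_of_eq hx
    filter_upwards [(e.continuousAt h1).eventually
      (ev_le (hT.sm e he _ (e.map_source h1)).continuousAt h2), e.open_source.mem_nhds h1]
      with y h3 h4
    exact le_antisymm (hl y) (by rw [hR.at he h4]; exact h3)
  refine ⟨hO, hA, fun _ ⟨y, hy⟩ => ?_⟩
  have hD : Dense (X0 M (M.hw φ) r) := fun x => mem_closure_iff_frequently.2
    ((dense_le hT (fun e he z hz => an_hess (ha e he z hz)) (ge_of_eq hy) x).mono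
      fun w h => le_antisymm (hl w) h)
  refine ⟨hD, fun G hG => ?_⟩
  have := (mCOV n M).1
  refine measure_null_of_locally_null _ fun x _ => ?_
  obtain ⟨e, he, ρ, h0, h1, h2, h3⟩ := chart_ball x
  obtain ⟨u, hu, hu1, hu2⟩ := hD.inter_nhds_nonempty h3
  have h4 := (ae_le (r := r) isOpen_ball (convex_ball _ _).isPreconnected
    (fun z hz => an_hess (ha e he z (h2 hz))) hu2 (by
      have := hR.at he hu1
      exact ge_of_eq (this.symm.trans hu))).1
  set B := ball (e x) ρ \ (ball (e x) ρ ∩ e.symm ⁻¹' X0 M (M.hw φ) r) with hB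
  have hm : MeasurableSet B := measurableSet_ball.diff
    ((e.continuousOn_symm.mono h2).isOpen_inter_preimage isOpen_ball hO).measurableSet
  have hB0 : volume B = 0 := measure_eq_zero_iff_ae_notMem.2 (h4.mono fun z h5 hz => hz.2 ⟨hz.1,
    (hA e he z (h2 hz.1)).2 (le_antisymm (hle e he z (h2 hz.1)) (h5 hz.1))⟩)
  have h5 := ((mMU n M G hG).2.2.2.2.2.1 e he B hm (sdiff_subset.trans h2)).2.1 fun _ => 1
  rw [setLIntegral_measure_zero _ _ hB0, setLIntegral_one] at h5
  refine ⟨_, inter_mem_nhdsWithin _ h3, measure_mono_null (fun w hw => ?_) h5⟩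
  refine ⟨e w, ⟨hw.2.2, fun h => hw.1 ?_⟩, e.left_inv hw.2.1⟩
  have := h.2
  rwa [mem_preimage, e.left_inv hw.2.1] at this

end Pool.Agent.Lib.RA
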