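import Pool.Agent.Lib.RY.Blue0
import Pool.Agent.Lib.HS32.B_HOL

/-! Project ra2: the chain rule for holomorphic maps between different dimensions. -/

open scoped Classical Topology ContDiff ComplexOrder Matrix
open Set MeasureTheory Complex Metric Filter

set_option linter.unusedVariables false

noncomputable section

namespace Pool.Agent.Lib.RA

open Pool.Agent.Lib.SV (E nsq)
open Pool.Agent.Lib.HS32

namespace BCH2

variable {n r : ℕ} {H : E n → E r} {z : E n}

theorem hol_comp (h : HolN H z) (i : Fin r) : HolN (fun w => H w i) z :=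
  Eventually.mono h fun _ hw => differentiableAt_pi.1 hw i

theorem jr_eq (h : DifferentiableAt ℂ H z) (i : Fin r) (j : Fin n) :
    jr H z i j = dz j (fun w => H w i) z := by
  rw [(stHOL n (fun w => H w i) z).2.1 (differentiableAt_pi.1 h i) j, fderiv_apply h i]
  rfl

theorem jr_ev (h : HolN H z) (i : Fin r) (j : Fin n) :
    (fun w => jr H w i j) =ᶠ[𝓝 z] dz j (fun w => H w i) :=
  Eventually.mono h fun _ hw => jr_eq hw i j

theorem jr_lin (H : E n → E r) (z : E n) :
    jr H z = LinearMap.toMatrix' (fderiv ℂ H z : E n →ₗ[ℂ] E r) := by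
  ext i j
  rw [LinearMap.toMatrix'_apply]
  rfl

theorem fderiv_mulVec (H : E n → E r) (z v : E n) : fderiv ℂ H z v = jr H z *ᵥ v := by
  rw [jr_lin, LinearMap.toMatrix'_mulVec]
  rfl

theorem surj_iff (H : E n → E r) (z : E n) :
    Function.Surjective (fderiv ℂ H z) ↔ (jr H z).rank = r := by
  have e : (fderiv ℂ H z : E n → E r) = (jr H z).mulVecLin := funext fun v => fderiv_mulVec H z v
  rw [e, ← LinearMap.range_eq_top, Matrix.rank]
  constructor
  · intro h
    rw [h, finrank_top]
    simp
  · intro h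
    exact Submodule.eq_top_of_finrank_eq (by rw [h]; simp)

theorem chain (h : DifferentiableAt ℂ H z) {f : E r → ℂ} (hf : DifferentiableAt ℝ f (H z))
    (j : Fin n) : dz j (f ∘ H) z = ∑ a, dz a f (H z) * jr H z a j ∧
      dzb j (f ∘ H) z = ∑ a, dzb a f (H z) * star (jr H z a j) := by
  have e : ∀ c : ℂ, fderiv ℝ (f ∘ H) z (Pi.single j c) =
      ∑ a, (dz a f (H z) * (jr H z a j * c) + dzb a f (H z) * star (jr H z a j * c)) := by
    intro c
    rw [fderiv_comp z hf (h.restrictScalars ℝ), h.fderiv_restrictScalars ℝ,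
      ContinuousLinearMap.comp_apply, fderiv_eq_sum]
    refine Finset.sum_congr rfl fun a _ => ?_
    have : (ContinuousLinearMap.restrictScalars ℝ (fderiv ℂ H z)) (Pi.single j c) a =
        jr H z a j * c := by
      change fderiv ℂ H z (Pi.single j c) a = _
      rw [fderiv_mulVec, Matrix.mulVec_single]
      simp
    rw [this]
  have hI : star I = -I := conj_I
  constructor
  · rw [dz, e, e, Finset.mul_sum, ← Finset.sum_sub_distrib, Finset.sum_div]
    refine Finset.sum_congr rfl fun a _ => ?_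
    rw [star_mul', star_mul', star_one, hI]
    linear_combination (-(dz a f (H z) * jr H z a j - dzb a f (H z) * star (jr H z a j)) / 2) *
      I_mul_I
  · rw [dzb, e, e, Finset.mul_sum, ← Finset.sum_add_distrib, Finset.sum_div]
    refine Finset.sum_congr rfl fun a _ => ?_
    rw [star_mul', star_mul', star_one, hI]
    linear_combination ((dz a f (H z) * jr H z a j - dzb a f (H z) * star (jr H z a j)) / 2) *
      I_mul_I

theorem cd (h : HolN H z) : ContDiffAt ℝ ∞ H z :=
  contDiffAt_pi.2 fun i => ((stHOL n (fun w => H w i) z).2.2 (hol_comp h i)).1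

theorem hol_jr (h : HolN H z) (i : Fin r) (l : Fin n) : HolN (fun w => jr H w i l) z := by
  filter_upwards [((stHOL n (fun w => H w i) z).2.2 (hol_comp h i)).2.1 l,
    (jr_ev h i l).eventuallyEq_nhds] with w hw e
  exact hw.congr_of_eventuallyEq e

theorem cd_jr (h : HolN H z) (i : Fin r) (l : Fin n) : ContDiffAt ℝ ∞ (fun w => jr H w i l) z :=
  ((stHOL n _ z).2.2 (hol_jr h i l)).1

theorem dzb_jr (h : HolN H z) (i : Fin r) (l k : Fin n) : dzb k (fun w => jr H w i l) z = 0 :=
  ((stHOL n _ z).1 (cd_diff (cd_jr h i l))).1 (hol_jr h i l).self_of_nhds k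

theorem dz_jr (h : HolN H z) (i : Fin r) (l k : Fin n) :
    dz k (fun w => jr H w i l) z = dz l (fun w => jr H w i k) z := by
  rw [dz_congr (jr_ev h i l), dz_congr (jr_ev h i k),
    dz_dz ((stHOL n (fun w => H w i) z).2.2 (hol_comp h i)).1]

theorem jr_comp {m : ℕ} {K : E r → E m} (h : DifferentiableAt ℂ H z)
    (hK : DifferentiableAt ℂ K (H z)) : jr (K ∘ H) z = jr K (H z) * jr H z := by
  ext i j
  rw [Matrix.mul_apply]
  change fderiv ℂ (K ∘ H) z (Pi.single j 1) i = _
  rw [fderiv_comp z hK h, ContinuousLinearMap.comp_apply, fderiv_mulVec]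
  rfl

theorem dd_comp (h : DifferentiableAt ℂ H z) {f g : E r → ℂ} (hf : DifferentiableAt ℝ f (H z))
    (hg : DifferentiableAt ℝ g (H z)) :
    dd (f ∘ H) (g ∘ H) z = (jr H z)ᴴ * dd f g (H z) * jr H z := by
  ext i j
  simp only [dd_apply, (chain h hf i).2, (chain h hg j).1, Matrix.mul_apply,
    Matrix.conjTranspose_apply, Finset.sum_mul, Finset.mul_sum]
  exact Finset.sum_congr rfl fun a _ => Finset.sum_congr rfl fun b _ => by ring

theorem hess_comp (h : HolN H z) {f : E r → ℂ} (hf : ContDiffAt ℝ ∞ f (H z)) :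
    hess (f ∘ H) z = (jr H z)ᴴ * hess f (H z) * jr H z := by
  have h0 : DifferentiableAt ℂ H z := h.self_of_nhds
  ext i j
  have e : dz j (f ∘ H) =ᶠ[𝓝 z] fun w => ∑ a, (dz a f ∘ H) w * jr H w a j := by
    filter_upwards [h, h0.continuousAt.eventually (cd_ev_diff hf)] with w h1 h2
    exact (chain h1 h2 j).1
  have d1 : ∀ a, DifferentiableAt ℝ (dz a f ∘ H) z := fun a =>
    (cd_diff (cd_dz hf a)).comp z (cd_diff (cd h))
  rw [hess_apply, dzb_congr e, dzb_sum fun a _ => (d1 a).fun_mul (cd_diff (cd_jr h a j)),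
    Matrix.mul_apply]
  refine Finset.sum_congr rfl fun a _ => ?_
  rw [dzb_mul (d1 a) (cd_diff (cd_jr h a j)), dzb_jr h, (chain h0 (cd_diff (cd_dz hf a)) i).2,
    mul_zero, add_zero, Matrix.mul_apply]
  congr 1
  exact Finset.sum_congr rfl fun b _ => mul_comm _ _

theorem pull_apply (A : Matrix (Fin r) (Fin n) ℂ) (P : Mat r) (i j : Fin n) :
    (Aᴴ * P * A) i j = ∑ b, ∑ a, P a b * (star (A a i) * A b j) := by
  simp only [Matrix.mul_apply, Matrix.conjTranspose_apply, Finset.sum_mul]
  exact Finset.sum_congr rfl fun b _ => Finset.sum_congr rfl fun a _ => by ring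

theorem sm_pull (h : HolN H z) (P : Mat r) : SmM (fun w => (jr H w)ᴴ * P * jr H w) z := by
  intro i j
  simp only [pull_apply]
  exact ContDiffAt.sum fun b _ => ContDiffAt.sum fun a _ =>
    contDiffAt_const.mul ((cd_star (cd_jr h a i)).mul (cd_jr h b j))

theorem cl_pull (h : HolN H z) (P : Mat r) : ClM (fun w => (jr H w)ᴴ * P * jr H w) z := by
  have d := fun a i => cd_diff (cd_jr h a i)
  have e : ∀ i j k, dM k (fun w => (jr H w)ᴴ * P * jr H w) z i j =
      ∑ b, ∑ a, P a b * (star (jr H z a i) * dz k (fun w => jr H w b j) z) := by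
    intro i j k
    rw [dM_apply]
    simp only [pull_apply]
    rw [dz_sum fun b _ => DifferentiableAt.fun_sum fun a _ =>
      ((diff_star (d a i)).fun_mul (d b j)).const_mul _]
    refine Finset.sum_congr rfl fun b _ => ?_
    rw [dz_sum fun a _ => ((diff_star (d a i)).fun_mul (d b j)).const_mul _]
    refine Finset.sum_congr rfl fun a _ => ?_
    rw [dz_const_mul _ ((diff_star (d a i)).fun_mul (d b j)), dz_mul (diff_star (d a i)) (d b j),
      dz_star (d a i), dzb_jr h, star_zero, zero_mul, zero_add]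
  intro i j k
  rw [e, e]
  exact Finset.sum_congr rfl fun b _ => Finset.sum_congr rfl fun a _ => by rw [dz_jr h b j k]

end BCH2

open BCH2 in
theorem st_CH2 : St_CH2 := fun n r H z h =>
  ⟨fderiv_mulVec H z, hol_jr h, surj_iff H z, fun P => ⟨sm_pull h P, cl_pull h P⟩,
    fun m K hK => jr_comp h.self_of_nhds hK.self_of_nhds,
    fun f hf l => chain h.self_of_nhds hf l, fun f hf => ⟨hf.comp z (cd h), hess_comp h hf⟩⟩

end Pool.Agent.Lib.RA
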