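import Pool.Agent.Lib.RY.Blue0
import Pool.Agent.Lib.RA.H56A
import Pool.Agent.Lib.HS32.B_BD

/-! Blocks EXT and TVE. -/

open scoped Classical Topology ContDiff ComplexOrder Matrix
open Set Complex Metric Filter

set_option linter.unusedVariables false

noncomputable section

namespace Pool.Agent.Lib.RA

open Pool.Agent.Lib.SV (E nsq)
open Pool.Agent.Lib.HS32 Pool.Agent.Lib.SV K56

namespace H56

variable {n r k j : ℕ} {Φ : E r × E r → ℂ} {δ c : ℝ}

theorem gm_mx {w : E r × E r} (h : K56.Hn Φ w) (i l : Fin r) :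
    Gm Φ w i l = mx Φ w (Pi.single l 1) (Pi.single i 1) :=
  (fderiv_app h _ _).trans (snd_symm h _ _)

theorem gm_vec {w : E r × E r} (h : K56.Hn Φ w) (v : E r) (i : Fin r) :
    (Gm Φ w *ᵥ v) i = mx Φ w v (Pi.single i 1) := by
  simp only [Matrix.mulVec, dotProduct, gm_mx h, mx]
  rw [sum1 _ v, sum_apply]
  exact Finset.sum_congr rfl fun l _ => by rw [smul_apply, smul_eq_mul, mul_comm]

theorem hess_gm {t : E r} (h : K56.Hn Φ (dg t)) : hess (fun x => Φ (dg x)) t = Gm Φ (dg t) := by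
  ext i l
  rw [hess_dg h, gm_mx h]

theorem pu_deriv {t u : E r} (h : K56.Hn Φ (t, u)) :
    DifferentiableAt ℂ (fun x => pu Φ (x, u)) t ∧
      ∀ v, fderiv ℂ (fun x => pu Φ (x, u)) t v = Gm Φ (t, u) *ᵥ v := by
  have h1 : ∀ i, DifferentiableAt ℂ (fun x => pu Φ (x, u) i) t := fun i =>
    (mx_eq h 0 (Pi.single i 1)).1.differentiableAt
  refine ⟨differentiableAt_pi.2 h1, fun v => funext fun i => ?_⟩
  rw [fderiv_pi h1, gm_vec h]
  exact (mx_eq h v (Pi.single i 1)).2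

theorem sq_le_nsq (v : E r) : ‖v‖ ^ 2 ≤ nsq v := by
  have h0 : 0 ≤ nsq v := Finset.sum_nonneg fun _ _ => normSq_nonneg _
  have : ‖v‖ ≤ √(nsq v) := (pi_norm_le_iff_of_nonneg (Real.sqrt_nonneg _)).2 fun i =>
    Real.le_sqrt_of_sq_le (by
      rw [← normSq_eq_norm_sq]
      exact Finset.single_le_sum (f := fun l => normSq (v l)) (fun _ _ => normSq_nonneg _)
        (Finset.mem_univ i))
  exact (pow_le_pow_left₀ (norm_nonneg _) this 2).trans_eq (Real.sq_sqrt h0)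

theorem nsq_le (v : E r) : nsq v ≤ r * ‖v‖ ^ 2 := by
  calc nsq v ≤ ∑ _i : Fin r, ‖v‖ ^ 2 := Finset.sum_le_sum fun i _ => by
        rw [normSq_eq_norm_sq]
        exact pow_le_pow_left₀ (norm_nonneg _) (norm_le_pi_norm v i) 2
    _ = _ := by simp

theorem nq_one (v : E r) : nq 1 v = nsq v := by
  simp only [nq, Matrix.one_mulVec, dotProduct, nsq, re_sum, Pi.star_apply]
  exact Finset.sum_congr rfl fun i _ => by simp [normSq_apply]

theorem nq_sub_one (A : Mat r) (c : ℝ) (v : E r) :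
    nq (A - (c : ℂ) • (1 : Mat r)) v = nq A v - c * nsq v := by
  rw [← nq_one]
  simp only [nq, Matrix.sub_mulVec, Matrix.smul_mulVec, dotProduct_sub, dotProduct_smul, sub_re,
    smul_eq_mul, re_ofReal_mul]

theorem dot_le (v w : E r) : ‖star v ⬝ᵥ w‖ ≤ r * (‖v‖ * ‖w‖) := by
  calc ‖star v ⬝ᵥ w‖ ≤ ∑ _i : Fin r, ‖v‖ * ‖w‖ := (norm_sum_le _ _).trans
        (Finset.sum_le_sum fun i _ => by
          rw [norm_mul, Pi.star_apply, norm_star]
          exact mul_le_mul (norm_le_pi_norm v i) (norm_le_pi_norm w i) (norm_nonneg _)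
            (norm_nonneg _))
    _ = _ := by simp

theorem exp0 (h : Tv0 Φ δ c) : ∀ u ∈ ball (0 : E r) (2 * δ), ∀ t ∈ ball (0 : E r) (2 * δ),
    ∀ s ∈ ball (0 : E r) (2 * δ), c * ‖t - s‖ ≤ ‖pu Φ (t, u) - pu Φ (s, u)‖ := by
  intro u hu t ht s hs
  set A : E r →L[ℂ] E r := LinearMap.toContinuousLinearMap (Gm Φ 0).mulVecLin with hA
  have hm : ∀ x ∈ ball (0 : E r) (2 * δ), (x, u) ∈ ball (0 : E r × E r) (2 * δ) := fun x hx =>
    mem_b0.2 ⟨hx, hu⟩
  have h1 := (convex_ball (0 : E r) (2 * δ)).norm_image_sub_le_of_norm_fderiv_le' (𝕜 := ℂ)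
    (f := fun x => pu Φ (x, u)) (φ := A) (C := c)
    (fun x hx => (pu_deriv (hn_of isOpen_ball h.hol (hm x hx))).1)
    (fun x hx => ContinuousLinearMap.opNorm_le_bound _ h.c0.le fun v => by
      rw [sub_apply, (pu_deriv (hn_of isOpen_ball h.hol (hm x hx))).2]
      have := h.near _ (hm x hx) v
      rw [Matrix.sub_mulVec] at this
      exact this) hs ht
  have h2 : 2 * c * ‖t - s‖ ≤ ‖A (t - s)‖ := h.lin (t - s)
  have h3 := norm_sub_le (pu Φ (t, u) - pu Φ (s, u)) (pu Φ (t, u) - pu Φ (s, u) - A (t - s))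
  rw [sub_sub_cancel] at h3
  linarith

/-- The bridge to the bundled data. -/
def mk0 (h : Tv0 Φ δ c)
    (hi : ∀ i : Fin r, i.val < k → ∀ w ∈ ball (0 : E r × E r) (2 * δ), pz Φ w i = pu Φ w i) :
    TV r k where
  del := 2 * δ
  c0 := c
  Φ := Φ
  del_pos := by linarith [h.d0]
  c0_pos := h.c0
  hol := h.hol
  real := h.real
  inv := hi
  exp := exp0 h
  low := fun t ht v => by
    rw [hess_gm (hn_of isOpen_ball h.hol (dg_mem0.2 ht))]
    have h1 : 0 ≤ nq (Gm Φ (dg t) - (c : ℂ) • (1 : Mat r)) v :=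
      (Complex.nonneg_iff.1 ((h.lo t ht).dotProduct_mulVec_nonneg v)).1
    rw [nq_sub_one] at h1
    nlinarith [sq_le_nsq v, h.c0]

theorem pk_zero_eq (t : E r) : pk 0 t = t := by ext i; simp [pk]

theorem iso_iff (T : TV r k) {φ : E n → ℝ} {H : E n → E r} {y : E n}
    (hφ : ∀ᶠ z in 𝓝 y, ContDiffAt ℝ ∞ φ z) (hH : K56.Hn H y) (hy : ‖pk k (H y)‖ < T.del) :
    T.Iso φ H y ↔ ∀ᶠ z in 𝓝 y, hr (T.ph ∘ H) z = hr φ z := by
  have h1 : ∀ᶠ z in 𝓝 y, ‖pk k (H z)‖ < T.del :=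
    (cont_pk.continuousAt.comp hH.self_of_nhds.continuousAt).norm.eventually (gt_mem_nhds hy)
  have key : ∀ᶠ z in 𝓝 y, DifferentiableAt ℂ H z ∧
      hess (fun x => ((φ x - T.ph (H x) : ℝ) : ℂ)) z = hr φ z - hr (T.ph ∘ H) z := by
    filter_upwards [hφ, hH.eventually_nhds, h1] with z a b c
    refine ⟨b.self_of_nhds, ?_⟩
    simp only [ofReal_sub]
    exact hess_sub (cd_ofReal a) (cd_ofReal ((T.cd_ph c).comp z (hn_smooth b)))
  constructor
  · intro h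
    filter_upwards [h, key] with z a b
    rw [b.2, sub_eq_zero] at a
    exact a.2.symm
  · intro h
    filter_upwards [h, key] with z a b
    exact ⟨b.1, by rw [b.2, a, sub_self]⟩

theorem surj_of_rank {T : TV r k} {φ : E n → ℝ} {H : E n → E r} {y : E n} (hi : T.Iso φ H y)
    (hφ : ContDiffAt ℝ ∞ φ y) (hy : ‖pk k (H y)‖ < T.del) (hk : r ≤ (hr φ y).rank) :
    Function.Surjective (fderiv ℂ H y) := by
  set A : E n →ₗ[ℂ] E n := (hr φ y).mulVecLin with hA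
  have h1 : LinearMap.ker (fderiv ℂ H y).toLinearMap ≤ LinearMap.ker A := by
    intro v hv
    have hv' : fderiv ℂ H y v = 0 := hv
    have h2 := hi.form hφ hy v (hr φ y *ᵥ v)
    rw [hv', Matrix.mulVec_zero, dotProduct_zero] at h2
    exact dotProduct_star_self_eq_zero.1 h2
  have h2 := Submodule.finrank_mono h1
  have h3 := (fderiv ℂ H y).toLinearMap.finrank_range_add_finrank_ker
  have h4 := A.finrank_range_add_finrank_ker
  have h5 := (LinearMap.range (fderiv ℂ H y).toLinearMap).finrank_le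
  have h6 : Module.finrank ℂ (E r) = r := by simp
  have h7 : r ≤ Module.finrank ℂ (LinearMap.range A) := hk
  exact LinearMap.range_eq_top.1 (Submodule.eq_top_of_finrank_eq (by omega))

theorem plz_cd {f : E n → ℝ} {F : E n × E n → ℂ} {a z : E n} {R : ℝ} (h : Plz f F a R)
    (hz : z ∈ ball a R) : ContDiffAt ℝ ∞ f z := by
  refine (cd_re (cd_dgc (hn_of isOpen_ball h.hol (dg_mem.2 hz)))).congr_of_eventuallyEq ?_
  filter_upwards [isOpen_ball.mem_nhds hz] with y hy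
  rw [h.eq y hy, ofReal_re]

theorem pb_sub {x a : E n} {s R : ℝ} (h : ball x s ⊆ ball a R) :
    ball (dg x) s ⊆ ball (dg a) R := fun w hw =>
  mem_pb.2 ⟨h (mem_pb.1 hw).1, h (mem_pb.1 hw).2⟩

theorem ext_gen (T : TV r k) {L d : ℝ} (hL : 0 < L) (hd : 0 < d) {f : E n → ℝ} {F : E n × E n → ℂ}
    {a x : E n} {R s : ℝ} {H : E n → E r} (hP : Plz f F a R)
    (hb : ∀ z ∈ ball a R, ∀ v, nq (hr f z) v ≤ L * ‖v‖ ^ 2) (hs : 0 < s)
    (hsr : s ≤ √T.c0 * d / √L) (hsub : ball x s ⊆ ball a R) (hH : HolN H x)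
    (hx : ‖pk k (H x)‖ + 2 * d ≤ T.del) (he : ∀ᶠ z in 𝓝 x, hr (T.ph ∘ H) z = hr f z)
    (hk : ∃ᶠ z in 𝓝 x, (hr f z).rank = r) :
    ∃ H', DifferentiableOn ℂ H' (ball x s) ∧ H' =ᶠ[𝓝 x] H ∧
      ∀ z ∈ ball x s, ‖H' z - H x‖ ≤ d ∧ hr (T.ph ∘ H') z = hr f z := by
  have hL' := Real.sqrt_pos.2 hL
  have hcd : ∀ z ∈ ball x s, ∀ᶠ y in 𝓝 z, ContDiffAt ℝ ∞ f y := fun z hz =>
    (isOpen_ball.eventually_mem hz).mono fun y hy => plz_cd hP (hsub hy)
  have hx1 : ‖pk k (H x)‖ < T.del := by linarith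
  have hi : T.Iso f H x := (iso_iff T (hcd x (mem_ball_self hs)) hH hx1).2 he
  have h1 : ∀ᶠ z in 𝓝 x, ‖pk k (H z)‖ < T.del :=
    (cont_pk.continuousAt.comp hH.self_of_nhds.continuousAt).norm.eventually (gt_mem_nhds hx1)
  obtain ⟨G, hG, hG'⟩ := ext_tube T (L := √L) (ρ := s) hd hL'.le (hP.hol.mono (pb_sub hsub))
    (fun z hz => hP.eq z (hsub hz)) (fun z hz v => by
      rw [Real.sq_sqrt hL.le]; exact hb z (hsub hz) v)
    (by rw [mul_comm]; exact (le_div_iff₀ hL').1 hsr) (by linarith) hi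
    ((hk.and_eventually ((hi.ev.and h1).and (hcd x (mem_ball_self hs)))).mono fun z hz =>
      surj_of_rank hz.2.1.1 hz.2.2 hz.2.1.2 hz.1.ge)
  refine ⟨G, fun z hz => (hG' z hz).2.hn.self_of_nhds.differentiableWithinAt, hG, fun z hz =>
    ⟨(hG' z hz).1, ?_⟩⟩
  refine ((iso_iff T (hcd z hz) (hG' z hz).2.hn ?_).1 (hG' z hz).2).self_of_nhds
  have h2 := norm_add_le (pk k (G z - H x)) (pk k (H x))
  rw [← pk_add, sub_add_cancel] at h2
  linarith [(hG' z hz).1, norm_pk_le (k := k) (G z - H x)]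

theorem pk_pj (t : E (k + j)) : pk k t = pj t := by
  funext i
  refine Fin.addCases (fun a => ?_) (fun a => ?_) i
  · simp [pk, pj, fx]
  · simp [pk, pj, sx]

/-- The bridge for the tube. -/
def mk {Φ : E (k + j) × E (k + j) → ℂ} (h : Tv k j Φ δ c) : TV (k + j) k :=
  mk0 h.toTv0 fun i hi w hw => congrFun (h.inv w hw) ⟨i.val, hi⟩

theorem mk_ph {Φ : E (k + j) × E (k + j) → ℂ} (h : Tv k j Φ δ c) : (mk h).ph = ph0 Φ :=
  funext fun t => by rw [TV.ph, pk_pj]; rfl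

theorem mk_mu {Φ : E (k + j) × E (k + j) → ℂ} (h : Tv k j Φ δ c) (i : Fin k) (t : E (k + j)) :
    (mk h).mu (Fin.castAdd j i) t = mu0 Φ t i := by rw [TV.mu, pk_pj]; rfl

theorem tr_io {a : E (k + j)} (ha : pk k a = 0) : ∃ b : Fin k → ℝ, a = I • io j b := by
  refine ⟨fun i => (a (Fin.castAdd j i)).im, funext fun i => ?_⟩
  refine Fin.addCases (fun l => ?_) (fun l => ?_) i
  · have := congrFun ha (Fin.castAdd j l)
    simp only [pk, Fin.val_castAdd, l.isLt, if_true, Pi.zero_apply, ofReal_eq_zero] at this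
    simp [io, cx, Complex.ext_iff, this]
  · simp [io, tr_zero ha (Fin.natAdd k l) (by simp)]

end H56

open H56

theorem st_EXT : St_EXT := by
  intro n r Φ δ c L d h hL hd
  have hL' := Real.sqrt_pos.2 hL
  have hc' := Real.sqrt_pos.2 h.c0
  refine ⟨√c * d / √L, by positivity, ?_⟩
  intro f F a R H x s hP hb hs hsr hsub hH hx he hk
  set T : TV r 0 := mk0 h fun i hi => absurd hi (Nat.not_lt_zero _) with hT
  have hph : T.ph = pt Φ := funext fun t => by rw [TV.ph, pk_zero_eq]; rfl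
  rw [← hph] at he ⊢
  exact ext_gen T hL hd hP hb hs hsr hsub hH (by rwa [pk_zero_eq]) he hk

/-- Extension of isometric germs with values in the tube. -/
def St_EXTT : Prop := ∀ (n k j : ℕ) (Φ : E (k + j) × E (k + j) → ℂ) (δ c L d : ℝ), Tv k j Φ δ c →
  0 < L → 0 < d → ∃ r₀, 0 < r₀ ∧ ∀ (f : E n → ℝ) (F : E n × E n → ℂ) (a : E n) (R : ℝ)
    (H : E n → E (k + j)) (x : E n) (s : ℝ), Plz f F a R →
    (∀ z ∈ ball a R, ∀ v, nq (hr f z) v ≤ L * ‖v‖ ^ 2) → 0 < s → s ≤ r₀ →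
    ball x s ⊆ ball a R → HolN H x → ‖pj (H x)‖ + 2 * d ≤ 2 * δ →
    (∀ᶠ z in 𝓝 x, hr (ph0 Φ ∘ H) z = hr f z) → (∃ᶠ z in 𝓝 x, (hr f z).rank = k + j) →
    ∃ H', DifferentiableOn ℂ H' (ball x s) ∧ H' =ᶠ[𝓝 x] H ∧
      ∀ z ∈ ball x s, ‖H' z - H x‖ ≤ d ∧ hr (ph0 Φ ∘ H') z = hr f z

theorem st_EXTT : St_EXTT := by
  intro n k j Φ δ c L d h hL hd
  have hL' := Real.sqrt_pos.2 hL
  have hc' := Real.sqrt_pos.2 h.c0
  refine ⟨√c * d / √L, by positivity, ?_⟩
  intro f F a R H x s hP hb hs hsr hsub hH hx he hk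
  rw [← mk_ph h] at he ⊢
  exact ext_gen (mk h) hL hd hP hb hs hsr hsub hH (by rwa [pk_pj]) he hk

theorem st_TVE : St_TVE := by
  intro r Φ R hR hd hre hp
  obtain ⟨c1, hc1, h1⟩ := BBD.low (T := fun _ => Gm Φ 0) (isCompact_singleton (x := (0 : E r)))
    (fun _ _ => smM_const _) fun _ _ => hp
  replace h1 := h1 0 rfl
  have hr1 : (0 : ℝ) < 2 * r + 2 := by positivity
  set c := c1 / (2 * r + 2) with hc
  have hc0 : 0 < c := by positivity
  have hcc : c1 = c * (2 * r + 2) := by rw [hc]; field_simp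
  have h0 : K56.Hn Φ 0 := hn_of isOpen_ball hd (mem_ball_self hR)
  have h2 : ∀ᶠ w in 𝓝 (0 : E r × E r),
      ‖fderiv ℂ (fderiv ℂ Φ) w - fderiv ℂ (fderiv ℂ Φ) 0‖ < c := by
    have := (hn_fderiv (hn_fderiv h0)).self_of_nhds.continuousAt
    simpa only [dist_eq_norm] using Metric.tendsto_nhds.1 this c hc0
  obtain ⟨s, hs, hb⟩ := Metric.mem_nhds_iff.1 (inter_mem h2 (ball_mem_nhds _ hR))
  refine ⟨c, ?_⟩
  filter_upwards [Ioo_mem_nhdsGT (half_pos hs)] with δ hδ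
  have sb : ball (0 : E r × E r) (2 * δ) ⊆ ball 0 s := ball_subset_ball (by linarith [hδ.2])
  have near : ∀ w ∈ ball (0 : E r × E r) (2 * δ), ∀ v, ‖(Gm Φ w - Gm Φ 0) *ᵥ v‖ ≤ c * ‖v‖ := by
    intro w hw v
    refine (pi_norm_le_iff_of_nonneg (by positivity)).2 fun i => ?_
    rw [Matrix.sub_mulVec, Pi.sub_apply, gm_vec (hn_of isOpen_ball hd (hb (sb hw)).2), gm_vec h0]
    have h3 := (fderiv ℂ (fderiv ℂ Φ) w - fderiv ℂ (fderiv ℂ Φ) 0).le_opNorm₂ (v, 0)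
      (0, Pi.single i 1)
    have h4 : ‖((0, Pi.single i 1) : E r × E r)‖ = 1 := by simp [Prod.norm_def, Pi.norm_single]
    have h5 : ‖((v, 0) : E r × E r)‖ = ‖v‖ := by simp [Prod.norm_def]
    rw [h4, h5, mul_one] at h3
    exact h3.trans (mul_le_mul_of_nonneg_right (le_of_lt (hb (sb hw)).1) (norm_nonneg _))
  have hm : ∀ t ∈ ball (0 : E r) (2 * δ), t ∈ ball (0 : E r) R := fun t ht =>
    dg_mem0.1 (hb (sb (dg_mem0.2 ht))).2
  refine ⟨hδ.1, hc0, hd.mono fun w hw => (hb (sb hw)).2, fun t ht => hre t (hm t ht), fun v => ?_,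
    near, fun t ht => ?_⟩
  · rcases (norm_nonneg v).eq_or_lt with h | h
    · rw [← h, mul_zero]; exact norm_nonneg _
    have h3 := (h1 v).trans ((re_le_norm _).trans (dot_le v (Gm Φ 0 *ᵥ v)))
    refine le_of_mul_le_mul_left ?_ (by positivity : 0 < (r + 1 : ℝ) * ‖v‖)
    rw [hcc] at h3
    nlinarith [mul_nonneg h.le (norm_nonneg (Gm Φ 0 *ᵥ v))]
  · have hn := hn_of isOpen_ball hd (dg_mem0.2 (hm t ht))
    have hH : (Gm Φ (dg t)).IsHermitian := by
      rw [← hess_gm hn, hess_congr (g := fun x => ((Φ (dg x)).re : ℂ))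
        ((isOpen_ball.eventually_mem (hm t ht)).mono fun x hx =>
          Complex.ext (by simp) (by simp [hre x hx]))]
      exact hess_herm (cd_re (cd_dgc hn))
    have := BBD.psd hH Matrix.isHermitian_one (s := 1) (t := -c) fun v => by
      have h3 := (abs_re_le_norm _).trans (dot_le v ((Gm Φ (dg t) - Gm Φ 0) *ᵥ v))
      have h4 := near _ (dg_mem0.2 ht) v
      have h5 := h1 v
      rw [Matrix.sub_mulVec, dotProduct_sub, sub_re, ← Matrix.sub_mulVec] at h3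
      have h6 := (abs_le.1 h3).1
      have h7 : (r : ℝ) * (‖v‖ * ‖(Gm Φ (dg t) - Gm Φ 0) *ᵥ v‖) ≤ r * (‖v‖ * (c * ‖v‖)) := by gcongr
      have h8 := mul_le_mul_of_nonneg_left (nsq_le v) hc0.le
      rw [nq_one, hcc] at *
      simp only [nq] at *
      nlinarith [mul_nonneg hc0.le (sq_nonneg ‖v‖)]
    rwa [one_smul, neg_smul, ← sub_eq_add_neg, ← Complex.coe_smul] at this

end Pool.Agent.Lib.RA
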