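import Pool.Agent.Lib.RY.Defs
import Pool.Agent.Lib.RA.T_KPX
import Pool.Agent.Lib.RA.T_POL

/-! Killing potentials on a polar ball, in the language of the project. -/

open scoped Classical Topology ContDiff ComplexOrder Matrix
open Set Complex Metric Filter

set_option linter.unusedVariables false

noncomputable section

namespace Pool.Agent.Lib.RA.K93

open Pool.Agent.Lib.SV (E)
open Pool.Agent.Lib.HS32 PK

variable {n r : ℕ} {Φ m m' : E n × E n → ℂ} {c z z₀ u : E n} {R : ℝ} {δ δ' : E n → ℂ}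
  {Ξ Ξ' : E n → E n} {f : E n → ℝ}

theorem kd_of (h : Fld Φ m c R δ Ξ) : KPX.KD Φ m c R δ Ξ :=
  ⟨h.hd, h.hx, fun z hz u hu => (h.eq (z, u) (mk_mem_ball.2 ⟨hz, hu⟩)).symm⟩

theorem fld_of (h : KPX.KD Φ m c R δ Ξ) : Fld Φ m c R δ Ξ :=
  ⟨h.hδ, h.hY, fun w hw => (h.eq w.1 (mem_ball_dg.1 hw).1 w.2 (mem_ball_dg.1 hw).2).symm⟩

theorem dbv_eq (h : DifferentiableAt ℂ m (dg z)) (e : ∀ᶠ w in 𝓝 z, m (dg w) = f w) :
    dbv f z = pu m (dg z) := funext fun i => (dzb_congr e).symm.trans (dzb_dg h i)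

theorem dv1_eq (h : DifferentiableAt ℂ m (dg z)) (e : ∀ᶠ w in 𝓝 z, m (dg w) = f w) :
    dv1 f z = pz m (dg z) := funext fun i => (dz_congr e).symm.trans (dz_dg h i)

theorem hr_eq (h : Hn m (dg z)) (e : ∀ᶠ w in 𝓝 z, m (dg w) = f w) : hr f z = Gm m (dg z) :=
  (hess_congr e).symm.trans (hess_dg h)

theorem pol {f : E n → ℝ} (h : AnalyticAt ℝ f z) :
    ∃ m : E n × E n → ℂ, Hn m (dg z) ∧ ∀ᶠ w in 𝓝 z, m (dg w) = f w := by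
  obtain ⟨R, hR, F, h1, h2⟩ := st_POL.1 n f z h
  exact ⟨F, hn_of_on isOpen_ball h1 (mem_ball_self hR), mem_of_superset (ball_mem_nhds z hR) h2⟩

theorem pt_eq (h : (m (dg z)).im = 0) : m (dg z) = pt m z := by
  apply Complex.ext <;> simp [pt, h]

theorem plz_pt (h : Kpe Φ m c R) : Plz (pt m) m c R := ⟨h.hol, fun z hz => pt_eq (h.real z hz)⟩

theorem plz_ev (h : Plz f m c R) (hz : z ∈ ball c R) : ∀ᶠ w in 𝓝 z, m (dg w) = f w :=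
  mem_of_superset (isOpen_ball.mem_nhds hz) h.eq

theorem plz_hn (h : Plz f m c R) (hz : z ∈ ball c R) : Hn m (dg z) :=
  hn_of_on isOpen_ball h.hol (dg_mem_ball.2 hz)

theorem plz_hr (h : Plz f m c R) (hz : z ∈ ball c R) : hr f z = Gm m (dg z) :=
  hr_eq (plz_hn h hz) (plz_ev h hz)

theorem plz_dbv (h : Plz f m c R) (hz : z ∈ ball c R) : dbv f z = pu m (dg z) :=
  dbv_eq (hn_at (plz_hn h hz)) (plz_ev h hz)

theorem plz_dv1 (h : Plz f m c R) (hz : z ∈ ball c R) : dv1 f z = pz m (dg z) :=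
  dv1_eq (hn_at (plz_hn h hz)) (plz_ev h hz)

/-- A Killing germ at a point of rank `r` extends to the polar ball. -/
theorem kpx (hH : HFe Φ c R r) (hz : z₀ ∈ ball c R) (hr : r ≤ (Gm Φ (dg z₀)).rank)
    {V : E n → E n} (hf : AnalyticAt ℝ f z₀) (hV : HolN V z₀)
    (h : ∀ᶠ w in 𝓝 z₀, Gm Φ (dg w) *ᵥ V w = dbv f w) :
    ∃ m, Kpe Φ m c R ∧ ∀ᶠ w in 𝓝 z₀, m (dg w) = f w := by
  obtain ⟨m0, h1, h2⟩ := pol hf
  obtain ⟨m, δ, Y, a1, a2, a3, a4, a5⟩ := KPX.st_KPX n r Φ m0 c z₀ R V hH.hol hH.real hH.ck hz hr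
    h1 (h2.mono fun w hw => by rw [hw, ofReal_im]) hV (by
      filter_upwards [h, h2.eventually_nhds, (tendsto_dg z₀).eventually h1] with w b1 b2 b3
      rw [b1, dbv_eq b3 b2])
  refine ⟨m, ⟨a1, fun w hw => im_dg_of_cj (a3 (dg_mem_ball.2 hw)), δ, Y, fld_of a5, z₀, hz, a4⟩, ?_⟩
  filter_upwards [h2, (tendsto_dg z₀).eventually a2] with w b1 b2 using b2.trans b1

/-- The denominator can be chosen nonzero at a given point of rank `r`. -/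
theorem kpl (hH : HFe Φ c R r) (hm : Kpe Φ m c R) (hz : z ∈ ball c R) (hu : u ∈ ball (star c) R)
    (hr : r ≤ (Gm Φ (z, u)).rank) : ∃ δ Ξ, Fld Φ m c R δ Ξ ∧ δ z ≠ 0 := by
  obtain ⟨δ, Ξ, h1, h2⟩ := hm.ex
  obtain ⟨δ1, Y1, a, b⟩ :=
    KPX.st_KPL n r Φ m c z u R δ Ξ hH.hol hH.ck hm.hol (kd_of h1) h2 hz hu hr
  exact ⟨δ1, Y1, fld_of b, a⟩

/-- A polarised Killing potential has a holomorphic field near every point of rank `r`. -/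
theorem kpa (hH : HFe Φ c R r) (hm : Kpe Φ m c R) (hz : z ∈ ball c R)
    (hr : r ≤ (Gm Φ (dg z)).rank) : ∃ V : E n → E n, HolN V z ∧ ∀ᶠ w in 𝓝 z,
      (∀ u ∈ ball (star c) R, Gm Φ (w, u) *ᵥ V w = pu m (w, u)) ∧
        Gm Φ (dg w) *ᵥ V w = dbv (pt m) w := by
  obtain ⟨δ, Ξ, h1, h2⟩ := kpl hH hm hz (star_mem_ball.2 hz) hr
  have a1 := hn_of_on isOpen_ball h1.hd hz
  have a2 := (hn_at a1).continuousAt.eventually_ne h2
  refine ⟨fun w => (δ w)⁻¹ • Ξ w, ?_, ?_⟩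
  · filter_upwards [a1, a2, hn_of_on isOpen_ball h1.hx hz] with w b1 b2 b3
      using (b1.inv b2).smul b3
  · filter_upwards [a2, isOpen_ball.mem_nhds hz] with w b1 b2
    have : ∀ u ∈ ball (star c) R, Gm Φ (w, u) *ᵥ ((δ w)⁻¹ • Ξ w) = pu m (w, u) := fun u hu => by
      rw [Matrix.mulVec_smul, (kd_of h1).eq w b2 u hu, inv_smul_smul₀ b1]
    exact ⟨this, (this _ (star_mem_ball.2 b2)).trans (plz_dbv (plz_pt hm) b2).symm⟩

theorem cj_eq (hm : Kpe Φ m c R) : EqOn (cj m) m (ball (dg c) R) := KPX.cj_Phi hm.hol hm.real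

/-- The polarised form of the vanishing of the bracket. -/
theorem com_pol (hH : HFe Φ c R r) (hm : Kpe Φ m c R) (hm' : Kpe Φ m' c R) (hz : z₀ ∈ ball c R)
    (h : ∀ᶠ z in 𝓝 z₀, ∃ V W : E n, Gm Φ (dg z) *ᵥ V = pu m (dg z) ∧
      Gm Φ (dg z) *ᵥ W = pu m' (dg z) ∧ (star W ⬝ᵥ Gm Φ (dg z) *ᵥ V).im = 0)
    (hD : Fld Φ m c R δ Ξ) (hD' : Fld Φ m' c R δ' Ξ') :
    ∀ w ∈ ball (dg c) R, δ' w.1 * (pz m' w ⬝ᵥ Ξ w.1) = δ w.1 * (pz m w ⬝ᵥ Ξ' w.1) :=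
  fun w hw => KPX.com_pol hH.hol hH.real hm.hol hm'.hol (cj_eq hm) (cj_eq hm') (kd_of hD)
    (kd_of hD') hz h hw

/-- The vanishing of the bracket propagates to all points of rank `r`. -/
theorem com (hH : HFe Φ c R r) (hm : Kpe Φ m c R) (hm' : Kpe Φ m' c R) (hz₀ : z₀ ∈ ball c R)
    (h : ∀ᶠ z in 𝓝 z₀, ∃ V W : E n, Gm Φ (dg z) *ᵥ V = pu m (dg z) ∧
      Gm Φ (dg z) *ᵥ W = pu m' (dg z) ∧ (star W ⬝ᵥ Gm Φ (dg z) *ᵥ V).im = 0)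
    (hz : z ∈ ball c R) (hr : r ≤ (Gm Φ (dg z)).rank) {V W : E n}
    (hV : Gm Φ (dg z) *ᵥ V = pu m (dg z)) (hW : Gm Φ (dg z) *ᵥ W = pu m' (dg z)) :
    (star W ⬝ᵥ Gm Φ (dg z) *ᵥ V).im = 0 := by
  obtain ⟨δ, Ξ, h1, h2⟩ := hm.ex
  obtain ⟨δ', Ξ', h1', h2'⟩ := hm'.ex
  exact (KPX.st_COM n r Φ m m' c z₀ R δ δ' Ξ Ξ' hH.hol hH.real hH.ck hm.hol hm'.hol (cj_eq hm)
    (cj_eq hm') (kd_of h1) (kd_of h1') hz₀ h).2 h2 h2' z hz hr V W hV hW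

end Pool.Agent.Lib.RA.K93
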