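import Pool.Agent.Lib.RY.B_ATL0

/-! Project ra2: the atlas of a class of weakly admissible germs. -/

open scoped Classical Topology ContDiff ComplexOrder Matrix
open Set MeasureTheory Complex Metric Filter

set_option linter.unusedVariables false

noncomputable section

namespace Pool.Agent.Lib.RA

open Pool.Agent.Lib.SV (E nsq)
open Pool.Agent.Lib.HS32

namespace BATL

open BATL0

variable {n k j : ℕ}

theorem nq_le (T : Mat n) (v : E n) : nq T v ≤ (∑ i, ∑ l, ‖T i l‖) * ‖v‖ ^ 2 := by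
  refine (re_le_norm _).trans ?_
  rw [dotProduct, Finset.sum_mul]
  refine norm_sum_le_of_le _ fun i _ => ?_
  rw [Matrix.mulVec, dotProduct, Finset.mul_sum, Finset.sum_mul]
  refine norm_sum_le_of_le _ fun l _ => ?_
  rw [norm_mul, norm_mul, Pi.star_apply, norm_star]
  have h1 := norm_le_pi_norm v i
  have h2 := norm_le_pi_norm v l
  calc ‖v i‖ * (‖T i l‖ * ‖v l‖) ≤ ‖v‖ * (‖T i l‖ * ‖v‖) := by gcongr
    _ = ‖T i l‖ * ‖v‖ ^ 2 := by ring

theorem hr_bd {f : E n → ℝ} {K : Set (E n)} (hK : IsCompact K)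
    (hf : ∀ z ∈ K, ContDiffAt ℝ ∞ f z) :
    ∃ L : ℝ, 0 < L ∧ ∀ z ∈ K, ∀ v, nq (hr f z) v ≤ L * ‖v‖ ^ 2 := by
  have hc : ContinuousOn (fun z => ∑ i, ∑ l, ‖hr f z i l‖) K :=
    continuousOn_finsetSum _ fun i _ => continuousOn_finsetSum _ fun l _ z hz =>
      (smM_hess (cd_ofReal (hf z hz)) i l).continuousAt.norm.continuousWithinAt
  obtain ⟨C, hC⟩ := hK.exists_bound_of_continuousOn hc
  refine ⟨|C| + 1, by positivity, fun z hz v => (nq_le _ v).trans ?_⟩
  have h1 := (le_abs_self _).trans ((hC z hz).trans (le_abs_self C))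
  exact mul_le_mul_of_nonneg_right (by linarith) (sq_nonneg _)

end BATL

open BATL0 BATL

theorem st_ATL1 (hTV : St_TV) (hEXT : St_EXT) (hX0 : St_X0) (hPCOV : St_PCOV) (hWAD : St_WAD) :
    St_ATL := by
  intro n k j N M _ φ μ Φ δ c Q hP hT hF hQ
  have hδ := hT.d0
  obtain ⟨t1, t2, t3, t4, -⟩ := hTV k j Φ δ c hT
  refine st_ATL0 n k j N M Q _ _ _ hP.den (fun H x h => (hQ.w H x h).iso.1) (fun x => ?_)
    fun y hy H hH => (hWAD n k j M φ μ Φ δ c hP.wt hP.an hT).2.2 N hF y hy H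
      fun i => ⟨hQ.w _ _ (hH i).1, (hH i).2⟩
  obtain ⟨V, hV, -⟩ := hPCOV n M φ (fun _ => univ) hP.an fun _ => univ_mem
  obtain ⟨a, hx, hxa, -⟩ := V.cov x
  obtain ⟨F, hFp⟩ := hV a
  have he := V.mem a
  have hρ := V.pos a
  have hs := V.sub a
  set e := V.e a
  set ρ := V.ρ a
  obtain ⟨L, hL, hLb⟩ := hr_bd (isCompact_closedBall (V.c a) (4 * ρ))
    fun z hz => hP.wt.sm e he z (hs hz)
  obtain ⟨r₀, hr₀, hE⟩ := hEXT n (k + j) Φ δ c L (δ / 2) hT.toTv0 hL (by linarith)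
  obtain ⟨s, hs0, hs1, hs2⟩ : ∃ s : ℝ, 0 < s ∧ s ≤ r₀ ∧ s ≤ ρ :=
    ⟨min r₀ ρ, lt_min hr₀ hρ, min_le_left _ _, min_le_right _ _⟩
  have hb : ∀ z ∈ ball (e x) (s / 2), ball z s ⊆ ball (V.c a) (4 * ρ) := fun z hz =>
    ball_subset_ball' (by
      have h1 := dist_triangle z (e x) (V.c a)
      rw [mem_ball] at hz hxa
      linarith)
  have hb0 : ball (e x) (s / 2) ⊆ e.target := fun z hz =>
    hs (ball_subset_closedBall (hb z hz (mem_ball_self hs0)))
  have hxO : x ∈ bl e (e x) (s / 2) := ⟨hx, mem_ball_self (by linarith)⟩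
  refine ⟨bl e (e x) (s / 2), (bl_open _ _ _).mem_nhds hxO, bl_open _ _ _, ?_,
    fun y hy H hH hK => ?_⟩
  · have h1 : bl e (e x) (s / 2) = e.symm '' ball (e x) (s / 2) := by
      refine Subset.antisymm (fun y hy => ⟨_, hy.2, e.left_inv hy.1⟩) ?_
      rintro _ ⟨z, hz, rfl⟩
      exact bl_symm hb0 hz
    rw [h1]
    exact (convex_ball _ _).isPreconnected.image _ (e.continuousOn_symm.mono hb0)
  have hK : ‖pj (H y)‖ ≤ δ / 2 := hK
  obtain ⟨b, hb1⟩ := t3 (H y)
  have hw := hQ.w H y hH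
  have hyt := e.map_source hy.1
  have hbt : ball (e y) s ⊆ e.target := (hb _ hy.2).trans (ball_subset_closedBall.trans hs)
  have hcs : Tendsto e.symm (𝓝 (e y)) (𝓝 y) := e.tendsto_symm hy.1
  let h : E n → E (k + j) := fun z => H (e.symm z) + I • io j (-b)
  have hh : HolN h (e y) := (hw.iso.1 e he hy.1).mono fun z hz => hz.add_const _
  have hy0 : h (e y) = pj (H y) := by
    simp only [h, e.left_inv hy.1]
    rw [io_neg, smul_neg, ← sub_eq_add_neg, sub_eq_iff_eq_add]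
    exact hb1
  have h2 : ∀ᶠ z in 𝓝 (e y), hr (pt Φ ∘ h) z = hr (φ e) z := by
    have h3 : ∀ᶠ z in 𝓝 (e y), h z ∈ ball (0 : E (k + j)) (2 * δ) :=
      hh.self_of_nhds.continuousAt.eventually (isOpen_ball.mem_nhds
        (by rw [hy0, mem_ball_zero_iff]; linarith))
    filter_upwards [h3.eventually_nhds, hcs.eventually hw.iso.2, e.open_target.mem_nhds hyt]
      with z h4 h5 h6
    have h7 := h5 e he (e.map_target h6)
    rw [e.right_inv h6] at h7
    refine (hess_congr (h4.mono fun w hw' => ?_)).trans h7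
    have h8 := (t4 _ hw').1
    simp only [h, ph0, t1] at h8
    simp only [Function.comp, h, Mf.lc, ph0, h8]
  have h3 : ∃ᶠ z in 𝓝 (e y), (hr (φ e) z).rank = k + j := by
    have h4 : ∃ᶠ w in 𝓝 y, w ∈ X0 M (M.hw φ) (k + j) := mem_closure_iff_frequently.1 (hP.den y)
    rw [← e.symm_map_nhds_eq hy.1, frequently_map] at h4
    exact (h4.and_eventually (e.open_target.mem_nhds hyt)).mono fun z hz =>
      ((hX0 n M φ (k + j) hP.wt hP.an hP.le).2.1 e he z hz.2).1 hz.1
  obtain ⟨h', g1, g2, g3⟩ := hE (φ e) F (V.c a) (4 * ρ) h (e y) s hFp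
    (fun z hz => hLb z (ball_subset_closedBall hz)) hs0 hs1 (hb _ hy.2) hh
    (by rw [hy0]; linarith) h2 h3
  let H' : M.X → E (k + j) := fun w => h' (e w) + I • io j b
  have g4 : H' =ᶠ[𝓝 y] H := by
    filter_upwards [(e.continuousAt hy.1).eventually g2, e.open_source.mem_nhds hy.1] with w h4 h5
    simp only [H', h4, h, e.left_inv h5]
    rw [io_neg, smul_neg, neg_add_cancel_right]
  have g5 : ∀ z ∈ ball (e y) s, ‖pj (H' (e.symm z))‖ ≤ δ := by
    intro z hz
    simp only [H', e.right_inv (hbt hz), t1]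
    have h4 := (g3 z hz).1
    have h5 := norm_le_norm_add_norm_sub' (h' z) (h (e y))
    have h6 := t2 (h' z)
    rw [hy0] at h4 h5
    linarith
  have g6 : DifferentiableOn ℂ (H' ∘ e.symm) (ball (e y) s) :=
    (g1.add_const (I • io j b)).congr fun z hz => by
      simp only [Function.comp, H', e.right_inv (hbt hz)]
  have g7 := hQ.prop e he (e y) s hbt H' g6 (fun z hz => (g5 z hz).trans_lt (by linarith)) (e y)
    (mem_ball_self hs0) (by rw [e.left_inv hy.1]; exact hQ.tr H H' y hH (tr_of_eq g4))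
  refine ⟨H', g4, fun y' hy' => ?_⟩
  have g8 : e y' ∈ ball (e y) s := by
    have h4 := dist_triangle_right (e y') (e y) (e x)
    have h5 : dist (e y) (e x) < s / 2 := hy.2
    have h6 : dist (e y') (e x) < s / 2 := hy'.2
    rw [mem_ball]
    linarith
  have g9 := g7 _ g8
  have g10 := g5 _ g8
  rw [e.left_inv hy'.1] at g9 g10
  exact ⟨g9, g10⟩

end Pool.Agent.Lib.RA
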