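import Pool.Agent.Lib.RY.B_MER
import Pool.Agent.Lib.RY.K_At
import Pool.Agent.Lib.RA.T_SH
import Pool.Agent.Lib.RA.T_ROOT

/-! Project ra2: holomorphic sheets on a manifold, tuples of roots, products and sums. -/

open scoped Classical Topology ContDiff
open Set Filter Metric Polynomial

set_option linter.unusedVariables false

noncomputable section

namespace Pool.Agent.Lib.RA

open Pool.Agent.Lib.SV (E)
open Pool.Agent.Lib.HS32 Pool.Agent.Lib.PN

/-- The class of holomorphic germs. -/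
abbrev HQ {n : ℕ} (M : Mf n) (F : Type) [NormedAddCommGroup F] [NormedSpace ℂ F] :
    M.X → (M.X → F) → Prop := fun x y => HolAt M y x

/-- Tuples of roots. -/
def RT {X ι : Type} (P : ι → X → ℂ[X]) (x : X) : Set (ι → ℂ) := {Y | ∀ l, (P l x).eval (Y l) = 0}

namespace S86

open M86

variable {n : ℕ} {M : Mf n} {W : Set M.X} {x : M.X}

theorem gp_hol {F : Type} [NormedAddCommGroup F] [NormedSpace ℂ F] : GP (HQ M F) :=
  ⟨fun _ _ h => h.near, fun _ _ h => h.cont, fun _ _ _ e h => HolAt.congr h e.symm⟩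

/-! ### Pluriharmonic germs -/

section ph

variable {g g' : M.X → ℝ}

theorem ph_near (h : PhAt M g x) : ∀ᶠ y in 𝓝 x, PhAt M g y := h.eventually_nhds

theorem ph_congr (h : PhAt M g x) (e : g' =ᶠ[𝓝 x] g) : PhAt M g' x := by
  filter_upwards [h, e.eventuallyEq_nhds] with y a b
  exact ⟨KA.smAt_congr a.1 b, fun c hc hy => (KA.hs_congr b c hc hy).trans (a.2 c hc hy)⟩

theorem ph_const (c : ℝ) : PhAt M (fun _ => c) x := Eventually.of_forall fun y =>
  ⟨fun _ _ _ => contDiffAt_const, fun _ _ _ => hess_const (c : ℂ)⟩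

theorem ph_add (h : PhAt M g x) (h' : PhAt M g' x) : PhAt M (fun y => g y + g' y) x := by
  filter_upwards [h, h'] with y a b
  refine ⟨fun c hc hy => (a.1 c hc hy).add (b.1 c hc hy), fun c hc hy => ?_⟩
  have := hess_add (cd_ofReal (a.1 c hc hy)) (cd_ofReal (b.1 c hc hy))
  simp only [← Complex.ofReal_add] at this
  exact this.trans ((congrArg₂ (· + ·) (a.2 c hc hy) (b.2 c hc hy)).trans (add_zero _))

theorem ph_smul (h : PhAt M g x) (r : ℝ) : PhAt M (fun y => r * g y) x := by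
  filter_upwards [h] with y a
  refine ⟨fun c hc hy => contDiffAt_const.mul (a.1 c hc hy), fun c hc hy => ?_⟩
  have := hess_const_mul (r : ℂ) (cd_ofReal (a.1 c hc hy))
  simp only [← Complex.ofReal_mul] at this
  exact this.trans ((congrArg ((r : ℂ) • ·) (a.2 c hc hy)).trans (smul_zero _))

theorem ph_sub (h : PhAt M g x) (h' : PhAt M g' x) : PhAt M (fun y => g y - g' y) x := by
  simpa only [neg_one_mul, ← sub_eq_add_neg] using ph_add h (ph_smul h' (-1))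

theorem ph_sum {ι : Type} {s : Finset ι} {g : ι → M.X → ℝ} (h : ∀ i ∈ s, PhAt M (g i) x) :
    PhAt M (fun y => ∑ i ∈ s, g i y) x := by
  induction s using Finset.induction_on with
  | empty => simpa using ph_const 0
  | insert i s hi ih =>
    simp only [Finset.sum_insert hi]
    exact ph_add (h i (Finset.mem_insert_self _ _))
      (ih fun j hj => h j (Finset.mem_insert_of_mem hj))

theorem ph_cont (h : PhAt M g x) : ContinuousAt g x := KA.smAt_cont h.self_of_nhds.1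

end ph

/-! ### Products and sums over the sheets -/

section fin

variable {α : Type} {Q : M.X → (M.X → α) → Prop} {S : M.X → Set α}

theorem hol_finprod (h : ShAt Q S x) {g : M.X → α → ℂ}
    (hs : ∀ s, Sct Q S x s → HolAt M (fun y => g y (s y)) x) :
    HolAt M (fun y => ∏ᶠ a ∈ S y, g y a) x :=
  h.prod_ind (H := fun f => HolAt M f x) (fun _ _ e a => a.congr e.symm) (holAt_const 1)
    (fun _ _ a b => a.mul b) hs

theorem hol_finsum {F : Type} [NormedAddCommGroup F] [NormedSpace ℂ F] (h : ShAt Q S x)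
    {g : M.X → α → F} (hs : ∀ s, Sct Q S x s → HolAt M (fun y => g y (s y)) x) :
    HolAt M (fun y => ∑ᶠ a ∈ S y, g y a) x :=
  h.sum_ind (H := fun f => HolAt M f x) (fun _ _ e a => a.congr e.symm) (holAt_const 0)
    (fun _ _ a b => a.add b) hs

theorem ph_finsum (h : ShAt Q S x) {g : M.X → α → ℝ}
    (hs : ∀ s, Sct Q S x s → PhAt M (fun y => g y (s y)) x) :
    PhAt M (fun y => ∑ᶠ a ∈ S y, g y a) x :=
  h.sum_ind (H := fun f => PhAt M f x) (fun _ _ e a => ph_congr a e.symm) (ph_const 0)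
    (fun _ _ a b => ph_add a b) hs

/-- The product does not vanish identically near `x` if no factor does. -/
theorem nz_finprod (h : ShAt Q S x) {g : M.X → α → ℂ}
    (hs : ∀ s, Sct Q S x s → HolAt M (fun y => g y (s y)) x ∧ ∃ᶠ y in 𝓝 x, g y (s y) ≠ 0) :
    ∃ᶠ y in 𝓝 x, ∏ᶠ a ∈ S y, g y a ≠ 0 :=
  (h.prod_ind (H := fun f => HolAt M f x ∧ ∃ᶠ y in 𝓝 x, f y ≠ 0)
    (fun _ _ e a => ⟨a.1.congr e.symm, (a.2.and_eventually e).mono fun y b => b.2 ▸ b.1⟩)
    ⟨holAt_const 1, (Eventually.of_forall fun _ => one_ne_zero).frequently⟩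
    (fun _ _ a b => ⟨a.1.mul b.1, a.1.nz_mul b.1 a.2 b.2⟩) hs).2

variable {N : ℕ} {F : Type} [NormedAddCommGroup F] {B : M.X → F}

theorem tame_finprod (hS : ∀ x ∈ W, (S x).Finite ∧ (S x).ncard ≤ N) (hB : Tame M W B)
    {g : M.X → α → ℂ} (hg : ∀ x ∈ W, ∀ a ∈ S x, ‖g x a‖ ≤ ‖B x‖) :
    Tame M W fun x => ∏ᶠ a ∈ S x, g x a :=
  tame_of_le hB (C := 1) (k := N) fun x hx => by
    rw [one_mul]
    exact norm_finprod_le (hS x hx).1 (hS x hx).2 (by simp)
      fun a ha => (hg x hx a ha).trans (by simp)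

theorem tame_finsum {F' : Type} [NormedAddCommGroup F']
    (hS : ∀ x ∈ W, (S x).Finite ∧ (S x).ncard ≤ N) (hB : Tame M W B)
    {g : M.X → α → F'} (hg : ∀ x ∈ W, ∀ a ∈ S x, ‖g x a‖ ≤ ‖B x‖) :
    Tame M W fun x => ∑ᶠ a ∈ S x, g x a :=
  tame_of_le hB (C := N) (k := 1) fun x hx => by
    rw [pow_one]
    exact norm_finsum_le (hS x hx).1 (hS x hx).2 (by positivity)
      fun a ha => (hg x hx a ha).trans (by simp)

theorem logT_finsum (hS : ∀ x ∈ W, (S x).Finite ∧ (S x).ncard ≤ N) {L : M.X → ℝ}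
    (hL : LogT M W L) {C : ℝ} {g : M.X → α → ℝ}
    (hg : ∀ x ∈ W, ∀ a ∈ S x, |g x a| ≤ C * (1 + |L x|)) :
    LogT M W fun x => ∑ᶠ a ∈ S x, g x a :=
  logT_of_le hL (C := N * |C|) fun x hx => by
    rw [mul_assoc]
    exact norm_finsum_le (F := ℝ) (B := |C| * (1 + |L x|)) (hS x hx).1 (hS x hx).2 (by positivity)
      fun a ha => (hg x hx a ha).trans (mul_le_mul_of_nonneg_right (le_abs_self C) (by positivity))

/-- The logarithms of the factors of a product that is not zero. -/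
theorem log_factor {A : Set α} (hA : A.Finite) (hN : A.ncard ≤ N) {b : ℝ} (hb : 0 ≤ b) {g : α → ℂ}
    (hg : ∀ a ∈ A, ‖g a‖ ≤ b) (h0 : ∏ᶠ a ∈ A, g a ≠ 0) {a : α} (ha : a ∈ A) :
    g a ≠ 0 ∧ |Real.log (Complex.normSq (g a))| ≤
      |Real.log (Complex.normSq (∏ᶠ a ∈ A, g a))| + 2 * (N + 1) * Real.log (1 + b) := by
  have h1 := (finprod_ne_zero_iff hA).1 h0 a ha
  have h2 := norm_finprod_le_mul hA hN (B := 1 + b) (by linarith)
    (fun a ha => (hg a ha).trans (by linarith)) ha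
  have h3 := Real.log_le_log (norm_pos_iff.2 h0) h2
  have h4 := Real.log_le_log (norm_pos_iff.2 h1) ((hg a ha).trans (by linarith : b ≤ 1 + b))
  have h5 := Real.log_nonneg (by linarith : 1 ≤ 1 + b)
  rw [Real.log_mul (norm_ne_zero_iff.2 h1) (by positivity), Real.log_pow] at h3
  refine ⟨h1, ?_⟩
  simp only [Complex.normSq_eq_norm_sq, Real.log_pow, Nat.cast_ofNat]
  have h6 := neg_abs_le (2 * Real.log ‖∏ᶠ a ∈ A, g a‖)
  have h7 := abs_nonneg (2 * Real.log ‖∏ᶠ a ∈ A, g a‖)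
  have h8 := mul_nonneg (Nat.cast_nonneg (α := ℝ) N) h5
  rw [abs_le]
  constructor <;> nlinarith

/-- The norm of a function on the sheets is meromorphic; off its zeros the logarithms of the
factors have logarithmic growth. -/
theorem norm_fun [M.Cpt] (hW : Cothin M W) (hS : ∀ x ∈ W, ShAt Q S x ∧ (S x).ncard ≤ N)
    (hB : Tame M W B) {g : M.X → α → ℂ} (hg : ∀ x ∈ W, ∀ a ∈ S x, ‖g x a‖ ≤ ‖B x‖)
    (hs : ∀ x ∈ W, ∀ s, Sct Q S x s → HolAt M (fun y => g y (s y)) x) (hx : x ∈ W)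
    (h0 : ∀ s, Sct Q S x s → ∃ᶠ y in 𝓝 x, g y (s y) ≠ 0) :
    Cothin M {x | x ∈ W ∧ ∀ a ∈ S x, g x a ≠ 0} ∧
      ∃ L, LogT M {x | x ∈ W ∧ ∀ a ∈ S x, g x a ≠ 0} L ∧ ∀ x ∈ W, (∀ a ∈ S x, g x a ≠ 0) →
        ∀ a ∈ S x, |Real.log (Complex.normSq (g x a))| ≤ L x := by
  have h1 : ∀ x ∈ W, HolAt M (fun y => ∏ᶠ a ∈ S y, g y a) x := fun x hx =>
    hol_finprod (hS x hx).1 (hs x hx)
  have h2 := mer_of_tame h1 (tame_finprod (fun x hx => ⟨(hS x hx).1.finite, (hS x hx).2⟩) hB hg)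
  obtain ⟨y, h3, hy⟩ := ((nz_finprod (hS x hx).1 fun s a => ⟨hs x hx s a, h0 s a⟩).and_eventually
    (hW.1.mem_nhds hx)).exists
  have e : {x | x ∈ W ∧ ∏ᶠ a ∈ S x, g x a ≠ 0} = {x | x ∈ W ∧ ∀ a ∈ S x, g x a ≠ 0} :=
    Set.ext fun x => and_congr_right fun hx => finprod_ne_zero_iff (hS x hx).1.finite
  have h4 := mer_cot_ne h2 hW h1 hy h3
  have h5 := mer_logT h2 hW (freq_of_ne (h1 y hy) h3)
  have h6 := logT_add (logT_of_le (g' := fun x =>
      |Real.log (Complex.normSq (∏ᶠ a ∈ S x, g x a))|) h5 (C := 1) fun x _ => by simp)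
    (logT_smul (logT_tame hB) (2 * (N + 1)))
  rw [e] at h4 h6
  exact ⟨h4, _, logT_mono h6 inter_subset_left, fun x hx h7 a ha => (log_factor (hS x hx).1.finite
    (hS x hx).2 (norm_nonneg _) (hg x hx) ((finprod_ne_zero_iff (hS x hx).1.finite).2 h7) ha).2⟩

end fin

/-! ### Roots -/

/-- Simple roots on the manifold. -/
theorem root_sheets {P : M.X → ℂ[X]} {d : ℕ} (hm : ∀ᶠ y in 𝓝 x, (P y).Monic ∧ (P y).natDegree = d)
    (hh : ∀ i, HolAt M (fun y => (P y).coeff i) x) (hs : (P x).Separable) :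
    ∃ Y : Fin d → M.X → ℂ, Shs (HQ M ℂ) (fun y => {s | (P y).eval s = 0}) x Y := by
  obtain ⟨e, he, hx⟩ := M.cov x
  obtain ⟨Y, hY⟩ := st_ROOT (E n) d (fun w => P (e.symm w)) (e x) ((ev_ch hx).1 hm)
    (fun i => hh i e he hx) (by rwa [e.left_inv hx])
  refine ⟨fun i y => Y i (e y), fun i => holAt_comp_ch he hx (hY.mono fun w a => a.1 i), ?_⟩
  filter_upwards [ev_ch' hx hY, e.open_source.mem_nhds hx] with y a b
  rw [e.left_inv b] at a
  exact ⟨a.2.1, Set.ext fun s => (a.2.2.2 s).trans (exists_congr fun i => eq_comm)⟩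

variable {ι : Type} [Fintype ι] {P : ι → M.X → ℂ[X]} {d : ι → ℕ}

/-- The tuples of simple roots are sheets. -/
theorem rt_shs (hm : ∀ l y, (P l y).Monic ∧ (P l y).natDegree = d l)
    (hh : ∀ l i, HolAt M (fun y => (P l y).coeff i) x) (hs : ∀ l, (P l x).Separable) :
    ∃ Y : (∀ l, Fin (d l)) → M.X → ι → ℂ, Shs (HQ M (ι → ℂ)) (RT P) x Y := by
  choose Y hY using fun l => root_sheets (Eventually.of_forall (hm l)) (hh l) (hs l)
  refine ⟨fun k y l => Y l (k l) y, fun k => holAt_pi.2 fun l => (hY l).q _, ?_⟩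
  filter_upwards [eventually_all.2 fun l => (hY l).ev] with y hy
  refine ⟨fun k k' e => funext fun l => (hy l).1 (congrFun e l), Set.ext fun Z => ⟨fun h => ?_, ?_⟩⟩
  · choose k hk using fun l => (hy l).2.subset (h l)
    exact ⟨k, funext hk⟩
  · rintro ⟨k, rfl⟩ l
    exact (hy l).2.symm.subset ⟨k l, rfl⟩

theorem rt_shAt (hm : ∀ l y, (P l y).Monic ∧ (P l y).natDegree = d l)
    (hh : ∀ l i, HolAt M (fun y => (P l y).coeff i) x) (hs : ∀ l, (P l x).Separable) :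
    ShAt (HQ M (ι → ℂ)) (RT P) x ∧ (RT P x).ncard = ∏ l, d l := by
  obtain ⟨Y, hY⟩ := rt_shs hm hh hs
  exact ⟨hY.shAt, by simpa [Nat.card_pi] using hY.ncard.self_of_nhds⟩

/-- The tuples of roots are tame. -/
theorem rt_tame (hW : Cothin M W) (hm : ∀ l y, (P l y).Monic ∧ (P l y).natDegree = d l)
    (hc : ∀ l i, Mer M fun y => (P l y).coeff i) :
    ∃ B : M.X → ℝ, Tame M W B ∧ ∀ x, 1 ≤ B x ∧ ∀ Y ∈ RT P x, ‖Y‖ ≤ B x := by
  let u : M.X → (Σ l, Fin (d l)) → ℂ := fun x k => (P k.1 x).coeff k.2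
  have h1 : Tame M W u := tame_pi hW fun k => mer_tame (hc k.1 k.2) hW
  refine ⟨fun x => (1 + ∑ l, d l) * (1 + ‖u x‖), tame_of_le h1 (C := 1 + ∑ l, d l) (k := 1)
    fun x _ => by rw [pow_one, Real.norm_of_nonneg (by positivity)], fun x => ?_⟩
  have h2 : (0 : ℝ) ≤ ∑ l, d l := by positivity
  have h3 := norm_nonneg (u x)
  refine ⟨by nlinarith, fun Y hY => (pi_norm_le_iff_of_nonneg (by positivity)).2 fun l => ?_⟩
  have h4 := st_RBD _ _ (hm l x).1 (hY l)
  rw [(hm l x).2] at h4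
  have h5 := Finset.sum_le_card_nsmul (Finset.range (d l)) (fun i => ‖(P l x).coeff i‖) ‖u x‖
    fun i hi => norm_le_pi_norm (u x) ⟨l, i, Finset.mem_range.1 hi⟩
  rw [Finset.card_range, nsmul_eq_mul] at h5
  have h6 : (d l : ℝ) ≤ (∑ l, d l : ℕ) := Nat.cast_le.2
    (Finset.single_le_sum (f := d) (fun _ _ => Nat.zero_le _) (Finset.mem_univ l))
  nlinarith

/-- The tuples of roots of the algebraic equations. -/
theorem alg_rt {q j : ℕ} {M : Mf (q + j)} {f : M.X → ι → ℂ} {i₀ : ι} {e : M.Ch} {c : E (q + j)}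
    {R : ℝ} {W : Set M.X} {P : ι → M.X → ℂ[X]} (h : Alg M f i₀ e c R W P d) :
    (∀ x ∈ W, ShAt (HQ M (ι → ℂ)) (RT P) x ∧ (RT P x).ncard = ∏ l, d l) ∧
      ∃ B : M.X → ℝ, Tame M W B ∧ ∀ x, 1 ≤ B x ∧ ∀ Y ∈ RT P x, ‖Y‖ ≤ B x :=
  ⟨fun x hx => rt_shAt h.mon (fun l i => h.hol l i x hx) fun l => h.sep l x hx,
    rt_tame h.cot h.mon h.mer⟩

end S86

end Pool.Agent.Lib.RA
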