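import Pool.Agent.Lib.KP.Kit

/-! Project ra2: tensor products of line bundles. -/

open scoped Classical Topology ContDiff
open Set Complex Filter

noncomputable section

namespace Pool.Agent.Lib.HS32.Mf

open Pool.Agent.Lib.SV (E)

variable {n : ℕ} {M : Mf n}

/-- The tensor product. -/
def Co.tn (L L' : M.Co) : M.Co where
  c e e' x := L.c e e' x * L'.c e e' x
  hol e he e' he' x hx hx' := by
    filter_upwards [L.hol e he e' he' x hx hx', L'.hol e he e' he' x hx hx'] with w a b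
      using a.mul b
  ne e he e' he' x hx hx' := mul_ne_zero (L.ne e he e' he' x hx hx') (L'.ne e he e' he' x hx hx')
  mul e he e' he' x hx hx' e'' he'' hx'' := by
    rw [L.mul e he e' he' x hx hx' e'' he'' hx'', L'.mul e he e' he' x hx hx' e'' he'' hx'']
    ring

variable {L L' : M.Co} {φ φ' : M.Fam ℝ} {s s' : M.Fam ℂ}

theorem WtC.tn (h : M.WtC L φ) (h' : M.WtC L' φ') : M.WtC (L.tn L') (φ + φ') ∧
    M.All fun e z => M.hw (φ + φ') e z = M.hw φ e z + M.hw φ' e z :=
  ⟨⟨fun e he z hz => (h.sm e he z hz).add (h'.sm e he z hz), fun e he e' he' x hx hx' => by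
    have a := h.cmp e he e' he' x hx hx'
    have b := h'.cmp e he e' he' x hx hx'
    have c := normSq_pos.2 (L.ne e he e' he' x hx hx')
    have d := normSq_pos.2 (L'.ne e he e' he' x hx hx')
    simp only [Pi.add_apply, Co.tn, map_mul] at a b ⊢
    rw [a, b, Real.log_mul c.ne' d.ne']
    ring⟩, fun e he z hz => hw_add (h.sm e he z hz) (h'.sm e he z hz)⟩

theorem SecC.tn (h : M.SecC L s) (h' : M.SecC L' s') :
    M.SecC (L.tn L') fun e z => s e z * s' e z :=
  ⟨fun e he z hz => (h.sm e he z hz).mul (h'.sm e he z hz), fun e he e' he' x hx hx' => by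
    simp only [Co.tn, h.cmp e he e' he' x hx hx', h'.cmp e he e' he' x hx hx']
    ring⟩

theorem HSecC.tn (h : M.HSecC L s) (h' : M.HSecC L' s') :
    M.HSecC (L.tn L') fun e z => s e z * s' e z :=
  ⟨h.toSecC.tn h'.toSecC, fun e he z hz => (h.hol e he z hz).mul (h'.hol e he z hz)⟩

theorem HSecC.pw (h : M.HSecC L s) (k : ℕ) : M.HSecC (L.pw k) fun e z => s e z ^ k :=
  ⟨⟨fun e he z hz => (h.sm e he z hz).pow k, fun e he e' he' x hx hx' => by
    simp only [Co.pw, h.cmp e he e' he' x hx hx', mul_pow]⟩,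
    fun e he z hz => (h.hol e he z hz).pow k⟩

/-- Bundles with the same cocycle. -/
theorem HSecC.of_eq (h : M.HSecC L s) (e : M.Ov fun e e' x => L.c e e' x = L'.c e e' x) :
    M.HSecC L' s :=
  ⟨⟨h.sm, fun a ha b hb x hx hx' => (h.cmp a ha b hb x hx hx').trans
    (congrArg _ (e a ha b hb x hx hx'))⟩, h.hol⟩

theorem WtC.of_eq (h : M.WtC L φ) (e : M.Ov fun e e' x => L.c e e' x = L'.c e e' x) :
    M.WtC L' φ :=
  ⟨h.sm, fun a ha b hb x hx hx' => by
    have := e a ha b hb x hx hx'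
    beta_reduce at this ⊢
    rw [← this]
    exact h.cmp a ha b hb x hx hx'⟩

theorem nrC_mul (φ φ' : M.Fam ℝ) (s s' : M.Fam ℂ) (x : M.X) :
    M.nrC (φ + φ') (fun e z => s e z * s' e z) x = M.nrC φ s x * M.nrC φ' s' x := by
  simp only [nrC, Mf.ev, Pi.add_apply, map_mul, neg_add, Real.exp_add]
  ring

theorem nrC_pow (φ : M.Fam ℝ) (s : M.Fam ℂ) (k : ℕ) (x : M.X) :
    M.nrC ((k : ℝ) • φ) (fun e z => s e z ^ k) x = M.nrC φ s x ^ k := by
  simp only [nrC, Mf.ev, Pi.smul_apply, smul_eq_mul, map_pow, mul_pow, ← Real.exp_nat_mul, mul_neg]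

end Pool.Agent.Lib.HS32.Mf
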