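import Pool.Agent.Lib.RY.Glue
import Pool.Agent.Lib.RYP.ATop
import Pool.Agent.Lib.RYD.All
import Pool.Agent.Lib.RYB.All
import Pool.Agent.Lib.RYB.All0
import Pool.Agent.Lib.RY.B_FIN
import Pool.Agent.Lib.RY.B_PHH
import Pool.Agent.Lib.RY.B_EBX
import Pool.Agent.Lib.RYE.AllE
import Pool.Agent.Lib.RY.B_DEP
import Pool.Agent.Lib.RYE.AllC
import Pool.Agent.Lib.RYG.B_COER
import Pool.Agent.Lib.RYG.B_MSEC
import Pool.Agent.Lib.RYG.B_CO0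
import Pool.Agent.Lib.RYG.B_GPK2
import Pool.Agent.Lib.RYG.B_CUT
import Pool.Agent.Lib.RYG.B_SEC
import Pool.Agent.Lib.RYG.B_TBL
import Pool.Agent.Lib.RYG.B_BDU
import Pool.Agent.Lib.RYG.B_SMV
import Pool.Agent.Lib.RYG.B_LIM
import Pool.Agent.Lib.RYG.B_OM
import Pool.Agent.Lib.RYG.B_IDO
import Pool.Agent.Lib.RYG.B_E1
import Pool.Agent.Lib.RYG.B_G2
import Pool.Agent.Lib.RY.B_MIN
import Pool.Agent.Lib.RY.B_LEV
import Pool.Agent.Lib.KP.All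
import Pool.Agent.Lib.PN.B_FS
import Pool.Agent.Lib.PN.B_LG
import Pool.Agent.Lib.PN.B_LG2
import Pool.Agent.Lib.PN.B_CMP
import Pool.Agent.Lib.RYF.B_FSEC
import Pool.Agent.Lib.RYF.B_FLG
import Pool.Agent.Lib.RYF.B_FKIL
import Pool.Agent.Lib.RYF.B_FSEL
import Pool.Agent.Lib.RYF.B_FHM
import Pool.Agent.Lib.RYF.B_FINV
import Pool.Agent.Lib.RYF.B_FCOR
import Pool.Agent.Lib.RYF.B_FNRM
import Pool.Agent.Lib.RYF.B_FU0
import Pool.Agent.Lib.RYF.B_FREL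
import Pool.Agent.Lib.RYF.B_FRCL
import Pool.Agent.Lib.RYF.B_FSUM
import Pool.Agent.Lib.RYF.B_FRBX
import Pool.Agent.Lib.RYF.B_FLOC
import Pool.Agent.Lib.RYF.B_FDS
import Pool.Agent.Lib.RYF.B_FDT
import Pool.Agent.Lib.RYF.B_LOC
import Pool.Agent.Lib.RYF.B_UNI
import Pool.Agent.Lib.RYF.B_LGC
import Pool.Agent.Lib.RYF.B_H1A
import Pool.Agent.Lib.RYF.B_PIC
import Pool.Agent.Lib.RYF.B_FST
import Pool.Agent.Lib.RYF.B_DESC
import Pool.Agent.Lib.RYF.B_UNS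
import Pool.Agent.Lib.RYF.B_BRK
import Pool.Agent.Lib.RY.B_TV
import Pool.Agent.Lib.RY.B_MER
import Pool.Agent.Lib.RYF.B_BAS
import Pool.Agent.Lib.RYF.AsmF
import Pool.Agent.Lib.RY.B_G1
import Pool.Agent.Lib.RY.B_RN
import Pool.Agent.Lib.RY.B_R0

/-! Project ra2: the theorem on the manifold layer, with no hypothesis. -/

namespace Pool.Agent.Lib.RY

open Pool.Agent.Lib.RAG in
theorem gOM : St_OM := st_OM (PN.st_FS PN.st_LG (PN.st_LG2 PN.st_LG) PN.st_CMP)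

open Pool.Agent.Lib.RAG in
theorem gGPK : St_GPK := st_GPK st_CUT st_SEC KP.aHOR

open Pool.Agent.Lib.RAG in
theorem gCOER : RA.St_COER :=
  st_COER (st_CO0 gGPK st_TBL st_SMV st_LIM) gOM (st_MSEC gGPK st_TBL st_BDU) st_IDO st_E1
    (RA.st_MIN RA.st_LEV) KP.aPSI1

open Pool.Agent.Lib.RAG in
theorem gG2 : RA.St_G2 := st_G2 (st_GPK2 st_CUT st_SEC KP.aHOR) KP.aWT gOM st_IDO

theorem gFST : RA.St_FST :=
  RAF.st_FST RAF.st_LOC RAF.st_UNI RAF.st_LGC (RAF.st_H1A KP.aPOI) RAF.st_PIC KP.aHARM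

theorem gBAS : RAF.St_BAS :=
  RAF.st_BAS RAF.st_DESC RAF.st_UNS RAF.st_BRK RA.st_TV RAD.dWAD RAD.dATL RA.st_MER

open Pool.Agent.Lib.RA in
theorem gF : St_F :=
  st_F st_FSEC st_FLG st_FKIL st_FSEL (st_FCOR st_FHM st_FINV) st_FNRM st_FU0
    (st_FSUM st_FHM st_FLG st_FREL (st_FRCL st_FHM)) (st_FRBX st_FHM st_FREL)
    (st_FLOC st_FHM st_FREL) st_FDS st_FDT gFST gBAS (RAF.st_BASF gBAS)

open Pool.Agent.Lib.RA in
theorem aMAIN : St_MAIN := fun _ _ _ _ M _ _ _ _ _ _ _ _ _ _ _ _ _ _ h1 h2 h3 h4 h5 h6 h7 =>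
  main_of AP14.aA bFAM bBOX (st_FIN bGLB) RAD.dD st_PHH st_EBX RAE.eE st_DEP RAE.eCRAM gCOER gF
    (st_G1 st_MER) gG2 st_RN st_R0 M h1 h2 h3 h4 h5 h6 h7

end Pool.Agent.Lib.RY
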