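import Pool.Agent.Lib.RY.Glue
import Pool.Agent.Lib.RY.B_X0
import Pool.Agent.Lib.RY.Kit
import Pool.Agent.Lib.RA.T_AN
import Pool.Agent.Lib.PN.All

/-! Project ra2: the bridge between the statement and the manifold layer. -/

open scoped Classical Topology ContDiff ComplexOrder Matrix Manifold
open Set MeasureTheory Complex Metric Filter

noncomputable section

namespace Pool.Agent.Lib.RY

open Pool.Agent.Lib.SV (E nsq jacAt)
open Pool.Agent.Lib.HS32 Pool.Agent.Lib.HS.BBR Pool.Agent.Lib.KP.T6 Pool.Agent.Lib.PN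

namespace Br

variable {n : ℕ}

theorem levi_nq {u : E n → ℝ} {z : E n} (hu : ContDiffAt ℝ ∞ u z) (v : E n) :
    HW.levi u z v = nq (hess (fun w => (u w : ℂ)) z) v := by
  have e : ∀ a : E n, fderiv ℝ (fun w => fderiv ℝ u w a) z a = fderiv ℝ (fderiv ℝ u) z a a :=
    fun a => by
      rw [fderiv_clm_apply (cd_diff (hu.fderiv_right (m := ∞) (by simp)))
        (differentiableAt_const a)]
      simp
  rw [nq, BPSH.hess_lv hu, ofReal_re, HW.levi, HS66.lv, e, e]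

theorem an_lognsq {f : E n → ℂ} {z : E n} (h : AnalyticAt ℝ f z) (h0 : f z ≠ 0) :
    AnalyticAt ℝ (fun w => Real.log (normSq (f w))) z := by
  have h1 : AnalyticAt ℝ (fun w => (f w).re) z := (reCLM.analyticAt _).comp h
  have h2 : AnalyticAt ℝ (fun w => (f w).im) z := (imCLM.analyticAt _).comp h
  exact (analyticAt_log (normSq_pos.2 h0)).comp (f := fun w => normSq (f w))
    ((h1.mul h1).add (h2.mul h2))

theorem exists_ker {A : Mat n} {r : ℕ} (h : A.rank ≤ r) :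
    ∃ F : Submodule ℂ (E n), Module.finrank ℂ F = n - r ∧ ∀ v ∈ F, A *ᵥ v = 0 := by
  have h1 := LinearMap.finrank_range_add_finrank_ker A.mulVecLin
  rw [Module.finrank_fin_fun] at h1
  have h2 : n - r ≤ Module.finrank ℂ (LinearMap.ker A.mulVecLin) := by
    have : A.rank = Module.finrank ℂ (LinearMap.range A.mulVecLin) := rfl
    omega
  obtain ⟨b, hb⟩ := exists_linearIndependent_of_le_finrank h2
  have hb' := hb.map' (LinearMap.ker A.mulVecLin).subtype (Submodule.ker_subtype _)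
  refine ⟨Submodule.span ℂ (range _), by rw [finrank_span_eq_card hb', Fintype.card_fin],
    fun v hv => ?_⟩
  exact (Submodule.span_le (p := LinearMap.ker A.mulVecLin)).2
    (by rintro _ ⟨i, rfl⟩; exact (b i).2) hv

theorem le_of_nq {A B : Mat n} (hA : A.IsHermitian) (hB : B.IsHermitian)
    (h : ∀ v, nq A v ≤ nq B v) : (B - A).PosSemidef :=
  .of_dotProduct_mulVec_nonneg (hB.sub hA) fun v => Complex.nonneg_iff.2
    ⟨(sub_nonneg.2 (h v)).trans_eq (nq_sub B A v).symm,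
      ((hB.sub hA).im_star_dotProduct_mulVec_self v).symm⟩

theorem eq_of_nq {A B : Mat n} (hA : A.IsHermitian) (hB : B.IsHermitian)
    (h : ∀ v, nq A v = nq B v) : A = B := by
  have h1 := le_of_nq hA hB fun v => (h v).le
  have h2 := (le_of_nq hB hA fun v => (h v).ge).trace_nonneg
  rw [← neg_sub, Matrix.trace_neg, neg_nonneg] at h2
  exact (sub_eq_zero.1 (h1.trace_eq_zero_iff.1 (le_antisymm h2 h1.trace_nonneg))).symm

theorem nq_cj (A J : Mat n) (v : E n) : nq (Jᴴ * A * J) v = nq A (J *ᵥ v) := by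
  rw [nq, nq, Matrix.star_mulVec, ← Matrix.mulVec_mulVec, ← Matrix.mulVec_mulVec,
    Matrix.dotProduct_mulVec]

theorem freq_and {X : Type} [TopologicalSpace X] {p q : X → Prop} {x : X} (hp : ∃ᶠ y in 𝓝 x, p y)
    (h : ∀ᶠ y in 𝓝 x, (p y → ∀ᶠ z in 𝓝 y, p z) ∧ ∃ᶠ z in 𝓝 y, q z) :
    ∃ᶠ y in 𝓝 x, p y ∧ q y :=
  frequently_frequently_nhds.1 ((hp.and_eventually h).mono fun _ hy =>
    ((hy.2.2.and_eventually (hy.2.1 hy.1)).mono fun _ hz => hz.symm))

/-- The dual bundle. -/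
def iv {M : Mf n} (L : M.Co) : M.Co where
  c e e' x := (L.c e e' x)⁻¹
  hol e he e' he' x hx hx' := by
    filter_upwards [L.hol e he e' he' x hx hx', ((mTR n M).2.1 e he e' he' x hx hx').2.2.2.1]
      with w a b using a.inv (L.ne e he e' he' _ b.2.1 b.2.2.1)
  ne e he e' he' x hx hx' := inv_ne_zero (L.ne e he e' he' x hx hx')
  mul e he e' he' x hx hx' e'' he'' hx'' := by
    rw [L.mul e he e' he' x hx hx' e'' he'' hx'', mul_inv]

variable {X ι : Type} [TopologicalSpace X] [ChartedSpace (E n) X]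

theorem ne_freq {h : X → ℂ} {y : X} (h1 : h y = 0 → dAt n h y ≠ 0) : ∃ᶠ z in 𝓝 y, h z ≠ 0 := by
  intro h0
  refine h1 (not_not.1 h0.self_of_nhds) ?_
  have := ((chartAt (E n) y).tendsto_symm (mem_chart_source (E n) y)).eventually h0
  rw [dAt, Filter.EventuallyEq.fderiv_eq (f := fun _ => 0) (this.mono fun _ => not_not.1)]
  simp

theorem exc_div {m : ℕ} {U : ι → Set X} {g : ι → X → ℂ} {φ ψ : ι → X → ℝ} (h : Exc n m U g φ ψ)
    (i : ι) (x : X) (hx : x ∈ U i) : KP.HolAt n 0 (g i) x ∧ ∃ᶠ y in 𝓝 x, g i y ≠ 0 := by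
  obtain ⟨N, k, hk⟩ := h.fac i x hx
  constructor
  · have e := ((chartAt (E n) x).tendsto_symm (mem_chart_source (E n) x)).eventually hk
    simp only [KP.HolAt, pow_zero, mul_one]
    have d : DifferentiableAt ℂ (fun z => ∏ a, k a ((chartAt (E n) x).symm z))
        (chartAt (E n) x x) :=
      (HasFDerivAt.finsetProd fun a _ =>
        (hol0 (hk.self_of_nhds.2 a).1).hasFDerivAt).differentiableAt
    exact d.congr_of_eventuallyEq (e.mono fun _ hw => hw.1)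
  have key : ∀ s : Finset (Fin N), ∃ᶠ y in 𝓝 x, ∀ a ∈ s, k a y ≠ 0 := fun s => by
    induction s using Finset.induction_on with
    | empty => exact Frequently.of_forall (by simp)
    | insert a s _ ih =>
      refine (freq_and (q := fun y => k a y ≠ 0) ih (hk.mono fun y hy => ⟨fun h1 => ?_,
        ne_freq fun h0 => ((hy.2 a).2 h0).1⟩)).mono fun y hy b hb => ?_
      · exact (eventually_all_finset s).2 fun b hb =>
          (hol_cont (hy.2 b).1).eventually_ne (h1 b hb)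
      · rcases Finset.mem_insert.1 hb with rfl | hb
        exacts [hy.2, hy.1 b hb]
  refine ((key Finset.univ).and_eventually hk).mono fun y hy => ?_
  rw [hy.2.1]
  exact Finset.prod_ne_zero_iff.2 hy.1

theorem coc {U : ι → Set X} {f : ι → X → ℂ} {u : ι → ι → X → ℂ} (ho : ∀ i, IsOpen (U i))
    (hu : ∀ i j, ∀ x ∈ U i ∩ U j, KP.HolAt n 0 (u i j) x ∧ u i j x ≠ 0 ∧ f i x = u i j x * f j x)
    (h0 : ∀ i, ∀ x ∈ U i, ∃ᶠ y in 𝓝 x, f i y ≠ 0) (a b d : ι) (x : X) (ha : x ∈ U a)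
    (hb : x ∈ U b) (hd : x ∈ U d) : u a d x = u a b x * u b d x := by
  refine tendsto_nhds_unique_of_frequently_eq (l := 𝓝 x) (hol_cont (hu a d x ⟨ha, hd⟩).1)
    ((hol_cont (hu a b x ⟨ha, hb⟩).1).mul (hol_cont (hu b d x ⟨hb, hd⟩).1)) ?_
  refine ((h0 d x hd).and_eventually ((((ho a).inter (ho b)).inter
    (ho d)).mem_nhds ⟨⟨ha, hb⟩, hd⟩)).mono fun y hy => mul_right_cancel₀ hy.1 ?_
  obtain ⟨-, ⟨ya, yb⟩, yd⟩ := hy
  rw [← (hu a d y ⟨ya, yd⟩).2.2, Pi.mul_apply, mul_assoc, ← (hu b d y ⟨yb, yd⟩).2.2,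
    ← (hu a b y ⟨ya, yb⟩).2.2]

/-- The weight in an arbitrary chart. -/
def wt (a : ℕ) (φ : X → ℝ) (e : OpenPartialHomeomorph X (E n)) (z : E n) : ℝ :=
  φ (e.symm z) + a * Real.log (normSq (jm (chartAt (E n) (e.symm z) ∘ e.symm) z).det)

variable (n) in
/-- The curvature matrix in the preferred chart. -/
def hA (a : ℕ) (φ : X → ℝ) (x : X) : Mat n :=
  hess (fun w => (wtA n a φ x w : ℂ)) (chartAt (E n) x x)

theorem curv_eq {a : ℕ} {φ : X → ℝ} {x : X} (h : ContDiffAt ℝ ∞ (wtA n a φ x) (chartAt (E n) x x))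
    (v : E n) : curvA n a φ x v = nq (hA n a φ x) v := levi_nq h v

variable [IsManifold 𝓘(ℂ, E n) ω X] {a : ℕ} {φ φ' : X → ℝ} {x : X}
  {e : OpenPartialHomeomorph X (E n)}

theorem cm (x : X) : chartAt (E n) x ∈ (mf n X).C := fun y => ⟨cp_chart x y, cp_chart y x⟩

theorem hA_eq {q : X → ℂ} (h : ContDiffAt ℝ ∞ (wtA n a φ x) (chartAt (E n) x x)) (h0 : q x ≠ 0)
    (hq : ∀ᶠ y in 𝓝 x, KP.HolAt n 0 q y ∧ φ' y = φ y + Real.log (normSq (q y))) :
    hA n a φ' x = hA n a φ x := by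
  have hx := mem_chart_source (E n) x
  have e := ((chartAt (E n) x).tendsto_symm hx).eventually hq
  have h1 : HolN (fun w => q ((chartAt (E n) x).symm w)) (chartAt (E n) x x) := by
    filter_upwards [e, (chartAt (E n) x).open_target.mem_nhds ((chartAt (E n) x).map_source hx)]
      with w a b using hol_chart (fun y => cp_chart y x) b a.1
  obtain ⟨l1, l2, -⟩ := ((mHOL n _ _).2.2 h1).2.2.2 (by rwa [(chartAt (E n) x).left_inv hx])
  rw [hA, hA, ← add_zero (hess (fun w => (wtA n a φ x w : ℂ)) _), ← l2,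
    ← hess_add (cd_ofReal h) (cd_ofReal l1)]
  refine hess_congr (e.mono fun w hw => ?_)
  simp only [wtA, hw.2]
  push_cast
  ring

omit [IsManifold 𝓘(ℂ, E n) ω X] [ChartedSpace (E n) X] in
/-- The Jacobian matrix of a change of charts. -/
def Jm (e e' : OpenPartialHomeomorph X (E n)) (x : X) : Mat n := jm (e ∘ e'.symm) (e' x)

theorem ov {e' : OpenPartialHomeomorph X (E n)} (he : e ∈ (mf n X).C) (he' : e' ∈ (mf n X).C)
    (hx : x ∈ e.source) (hx' : x ∈ e'.source) : HolN (e ∘ e'.symm) (e' x) ∧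
    (Jm e e' x).det ≠ 0 ∧ Jm e e' x * Jm e' e x = 1 ∧
    (∀ᶠ w in 𝓝 (e' x), w ∈ e'.target ∧ e'.symm w ∈ e.source ∧ e'.symm w ∈ e'.source ∧
      e (e'.symm w) ∈ e.target ∧ e.symm (e (e'.symm w)) = e'.symm w ∧ e' (e'.symm w) = w ∧
      Jm e e' (e'.symm w) = jm (e ∘ e'.symm) w) ∧
    ∀ e'' : OpenPartialHomeomorph X (E n), e'' ∈ (mf n X).C → x ∈ e''.source →
      Jm e e'' x = Jm e e' x * Jm e' e'' x :=
  (mTR n (mf n X)).2.1 e he e' he' x hx hx'

theorem wt_cmp (a : ℕ) (φ : X → ℝ) {e' : OpenPartialHomeomorph X (E n)} (he : e ∈ (mf n X).C)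
    (he' : e' ∈ (mf n X).C) (hx : x ∈ e.source) (hx' : x ∈ e'.source) :
    wt a φ e' (e' x) = wt a φ e (e x) + a * Real.log (normSq (Jm e e' x).det) := by
  have hs := mem_chart_source (E n) x
  have h : ∀ e : OpenPartialHomeomorph X (E n), x ∈ e.source → wt a φ e (e x) =
      φ x + a * Real.log (normSq (Jm (chartAt (E n) x) e x).det) :=
    fun e hx => by simp only [wt, e.left_inv hx, Jm]
  rw [h e hx, h e' hx', (ov (cm x) he hs hx).2.2.2.2 e' he' hx', Matrix.det_mul, map_mul,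
    Real.log_mul (normSq_pos.2 (ov (cm x) he hs hx).2.1).ne'
      (normSq_pos.2 (ov he he' hx hx').2.1).ne']
  ring

theorem wt_chart (a : ℕ) (φ : X → ℝ) (x : X) :
    wt a φ (chartAt (E n) x) =ᶠ[𝓝 (chartAt (E n) x x)] wtA n a φ x := by
  filter_upwards [(chartAt (E n) x).open_target.mem_nhds
    ((chartAt (E n) x).map_source (mem_chart_source (E n) x))] with w hw
  have h5 := (ov (cm ((chartAt (E n) x).symm w)) (cm x) (mem_chart_source (E n) _)
    ((chartAt (E n) x).map_target hw)).1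
  rw [(chartAt (E n) x).right_inv hw] at h5
  simp only [wt]
  rw [← (mCHN n _ _ h5).2.2.2.2.2.2.1]
  rfl

theorem wt_ev (he : e ∈ (mf n X).C) (hx : x ∈ e.source) : wt a φ e =ᶠ[𝓝 (e x)] fun w =>
    wtA n a φ x ((chartAt (E n) x ∘ e.symm) w) +
      a * Real.log (normSq (jm (chartAt (E n) x ∘ e.symm) w).det) := by
  obtain ⟨h1, -, -, h3, -⟩ := ov (cm x) he (mem_chart_source (E n) x) hx
  have t : Tendsto (chartAt (E n) x ∘ e.symm) (𝓝 (e x)) (𝓝 (chartAt (E n) x x)) := by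
    have := h1.self_of_nhds.continuousAt.tendsto
    rwa [Function.comp_apply, e.left_inv hx] at this
  filter_upwards [h3, t.eventually (wt_chart a φ x)] with w hw h4
  have h8 := wt_cmp a φ (cm x) he hw.2.1 hw.2.2.1
  rw [hw.2.2.2.2.2.1, hw.2.2.2.2.2.2] at h8
  rw [h8, ← h4]
  rfl

theorem wt_an (he : e ∈ (mf n X).C) (hx : x ∈ e.source)
    (h : AnalyticAt ℝ (wtA n a φ x) (chartAt (E n) x x)) : AnalyticAt ℝ (wt a φ e) (e x) := by
  obtain ⟨h1, h2, -⟩ := ov (cm x) he (mem_chart_source (E n) x) hx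
  have h5 : AnalyticAt ℝ (chartAt (E n) x ∘ e.symm) (e x) := (RA.ANB.analyticAt h1).restrictScalars
  have h6 := an_lognsq ((RA.ANB.analyticAt (mCHN n _ _ h1).2.2.2.2.1).restrictScalars (𝕜 := ℝ)) h2
  have h7 : AnalyticAt ℝ (wtA n a φ x) ((chartAt (E n) x ∘ e.symm) (e x)) := by
    rwa [Function.comp_apply, e.left_inv hx]
  exact ((h7.comp h5).add ((analyticAt_const (v := (a : ℝ))).mul h6)).congr (wt_ev he hx).symm

theorem wt_sm (he : e ∈ (mf n X).C) (hx : x ∈ e.source)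
    (h : ContDiffAt ℝ ∞ (wtA n a φ x) (chartAt (E n) x x)) : ContDiffAt ℝ ∞ (wt a φ e) (e x) ∧
      hess (fun w => (wt a φ e w : ℂ)) (e x) =
        (Jm (chartAt (E n) x) e x)ᴴ * hA n a φ x * Jm (chartAt (E n) x) e x := by
  obtain ⟨h1, h2, -⟩ := ov (cm x) he (mem_chart_source (E n) x) hx
  obtain ⟨c1, -, -, -, c5, -, -, -, -, -, -, c12⟩ := mCHN n _ _ h1
  obtain ⟨l1, l2, -⟩ := ((mHOL n _ _).2.2 c5).2.2.2 h2
  have p : (chartAt (E n) x ∘ e.symm) (e x) = chartAt (E n) x x := by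
    rw [Function.comp_apply, e.left_inv hx]
  rw [← p] at h
  refine ⟨((h.comp _ c1).add (contDiffAt_const.mul l1)).congr_of_eventuallyEq (wt_ev he hx), ?_⟩
  have ev : (fun w => (wt a φ e w : ℂ)) =ᶠ[𝓝 (e x)] fun w =>
      ((fun z => (wtA n a φ x z : ℂ)) ∘ (chartAt (E n) x ∘ e.symm)) w + (a : ℂ) *
        (Real.log (normSq (jm (chartAt (E n) x ∘ e.symm) w).det) : ℝ) := by
    filter_upwards [wt_ev (a := a) (φ := φ) he hx] with w hw
    rw [hw, ofReal_add, ofReal_mul, ofReal_natCast]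
    rfl
  rw [hess_congr ev, hess_add ((cd_ofReal h).comp _ c1) (contDiffAt_const.mul (cd_ofReal l1)),
    hess_const_mul _ (cd_ofReal l1), l2, smul_zero, add_zero, c12 _ (cd_ofReal h), p]
  rfl

theorem exists_co {κ : Type} {V : κ → Set X} (ho : ∀ k, IsOpen (V k)) (hc : ∀ x, ∃ k, x ∈ V k)
    {U : ι → Set X} {f : ι → X → ℂ} {u : ι → ι → X → ℂ} {i : OpenPartialHomeomorph X (E n) → ι}
    (hi : ∀ e ∈ (rs (mf n X) (U := V) ho hc).C, e.source ⊆ U (i e))
    (hf : ∀ i, ∀ x ∈ U i, KP.HolAt n 0 (f i) x)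
    (hu : ∀ i j, ∀ x ∈ U i ∩ U j, KP.HolAt n 0 (u i j) x ∧ u i j x ≠ 0 ∧ f i x = u i j x * f j x)
    (h0 : ∀ a b d x, x ∈ U a → x ∈ U b → x ∈ U d → u a d x = u a b x * u b d x) :
    ∃ L : (rs (mf n X) (U := V) ho hc).Co, (∀ e e' x, L.c e e' x = u (i e') (i e) x) ∧
      (rs (mf n X) (U := V) ho hc).HSecC L fun e z => f (i e) (e.symm z) := by
  set M := rs (mf n X) (U := V) ho hc
  obtain ⟨-, hov, -⟩ := mTR n M
  have f1 : M.All fun e z => DifferentiableAt ℂ (fun w => f (i e) (e.symm w)) z :=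
    fun e he z hz => hol_chart (fun y => (he.1 y).2) hz (hf _ _ (hi e he (e.map_target hz)))
  refine ⟨{
      c := fun e e' x => u (i e') (i e) x
      hol := fun e he e' he' x hx hx' => by
        filter_upwards [(hov e he e' he' x hx hx').2.2.2.1] with w hw
        exact hol_chart (fun y => (he'.1 y).2) hw.1
          (hu _ _ _ ⟨hi e' he' hw.2.2.1, hi e he hw.2.1⟩).1
      ne := fun e he e' he' x hx hx' => (hu _ _ _ ⟨hi e' he' hx', hi e he hx⟩).2.1
      mul := fun e he e' he' x hx hx' e'' he'' hx'' =>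
        (h0 _ _ _ x (hi e'' he'' hx'') (hi e' he' hx') (hi e he hx)).trans (mul_comm _ _) },
    fun _ _ _ => rfl,
    ⟨fun e he z hz => ((mHOL n _ _).2.2 (f1.ev he hz)).1, fun e he e' he' x hx hx' => ?_⟩, f1⟩
  beta_reduce
  rw [e.left_inv hx, e'.left_inv hx', mul_comm]
  exact (hu _ _ x ⟨hi e' he' hx', hi e he hx⟩).2.2

omit [IsManifold 𝓘(ℂ, E n) ω X] in
theorem phi_rel {m : ℕ} {U : ι → Set X} {f g : ι → X → ℂ} {φ : ι → X → ℝ} {u v : ι → ι → X → ℂ}
    (ho : ∀ i, IsOpen (U i)) (h : PairMetric n m U f g φ)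
    (hu : ∀ i j, ∀ x ∈ U i ∩ U j, KP.HolAt n 0 (u i j) x ∧ u i j x ≠ 0 ∧ f i x = u i j x * f j x)
    (hv : ∀ i j, ∀ x ∈ U i ∩ U j, KP.HolAt n 0 (v i j) x ∧ v i j x ≠ 0 ∧ g i x = v i j x * g j x)
    (h0 : ∀ i, ∀ x ∈ U i, ∃ᶠ y in 𝓝 x, f i y ≠ 0 ∧ g i y ≠ 0) (i j : ι) (x : X)
    (hx : x ∈ U i ∩ U j) : φ i x = φ j x + Real.log (normSq (u i j x * (v i j x)⁻¹)) := by
  have hs := mem_chart_source (E n) x
  have c1 : ContinuousAt (fun y => φ i y - φ j y) x := by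
    refine ((((h.an i x hx.1).sub (h.an j x hx.2)).continuousAt).comp
      ((chartAt (E n) x).continuousAt hs)).congr ?_
    filter_upwards [(chartAt (E n) x).open_source.mem_nhds hs] with y hy
    simp [wtA, (chartAt (E n) x).left_inv hy]
  have c2 := (hol_cont (hu i j x hx).1).mul ((hol_cont (hv i j x hx).1).inv₀ (hv i j x hx).2.1)
  have c3 := (continuous_normSq.continuousAt.comp c2).log
    (normSq_pos.2 (mul_ne_zero (hu i j x hx).2.1 (inv_ne_zero (hv i j x hx).2.1))).ne'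
  refine eq_add_of_sub_eq' (tendsto_nhds_unique_of_frequently_eq c1 c3 ?_)
  refine ((h0 j x hx.2).and_eventually (((ho i).inter (ho j)).mem_nhds hx)).mono fun y hy => ?_
  obtain ⟨⟨a1, a2⟩, hy⟩ := hy
  have e := h.glue i j y hy
  have b1 := normSq_pos.2 a1
  have b2 := normSq_pos.2 a2
  have b3 := normSq_pos.2 (hv i j y hy).2.1
  rw [(hu i j y hy).2.2, (hv i j y hy).2.2] at e
  simp only [map_mul] at e
  have e2 : normSq (u i j y * (v i j y)⁻¹) = Real.exp (φ i y - φ j y) := by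
    rw [map_mul, map_inv₀, Real.exp_sub]
    rw [Real.exp_neg, Real.exp_neg] at e
    field_simp at e ⊢
    linarith
  change φ i y - φ j y = Real.log (normSq (u i j y * (v i j y)⁻¹))
  rw [e2, Real.log_exp]

theorem open_ne {κ : Type} [Fintype κ] {F : X → κ → ℂ} (h : PMap (mf n X) F) (l : κ) :
    IsOpen {x | F x l ≠ 0} := by
  refine isOpen_iff_mem_nhds.2 fun x hx => ?_
  have hs := mem_chart_source (E n) x
  obtain ⟨F', -, -, h1, h2⟩ := h.ex _ (cm x) _ ((chartAt (E n) x).map_source hs)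
  have h3 : ∀ᶠ w in 𝓝 (chartAt (E n) x x), ∃ a : ℂ, a ≠ 0 ∧
    F' w = a • F ((chartAt (E n) x).symm w) := h2
  obtain ⟨a, a0, ha⟩ := h3.self_of_nhds
  have c : ContinuousAt (fun w => F' w l) (chartAt (E n) x x) :=
    (continuous_apply l).continuousAt.comp h1.self_of_nhds.continuousAt
  have h4 := c.eventually_ne (y := 0) (by
    rw [ha, (chartAt (E n) x).left_inv hs]
    exact mul_ne_zero a0 hx)
  filter_upwards [((chartAt (E n) x).continuousAt hs).eventually (h3.and h4),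
    (chartAt (E n) x).open_source.mem_nhds hs] with y ⟨⟨b, _, hb⟩, h5⟩ hy
  rw [hb, (chartAt (E n) x).left_inv hy] at h5
  exact right_ne_zero_of_mul h5

theorem fac_pt {h : X → ℂ} {H : Mat n} (he : e ∈ (mf n X).C) (hx : x ∈ e.source)
    (h1 : KP.HolAt n 0 h x) (h2 : dAt n h x ≠ 0) {v : E n} (v0 : v ≠ 0) (v1 : dAt n h x v = 0)
    (v2 : nq H v = 0) : fderiv ℂ (fun w => h (e.symm w)) (e x) ≠ 0 ∧ ∃ v', v' ≠ 0 ∧
      fderiv ℂ (fun w => h (e.symm w)) (e x) v' = 0 ∧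
      nq ((Jm (chartAt (E n) x) e x)ᴴ * H * Jm (chartAt (E n) x) e x) v' = 0 := by
  obtain ⟨t1, -, t3, t4, -⟩ := ov (cm x) he (mem_chart_source (E n) x) hx
  have p : (chartAt (E n) x ∘ e.symm) (e x) = chartAt (E n) x x := by
    rw [Function.comp_apply, e.left_inv hx]
  have ev : (fun w => h (e.symm w)) =ᶠ[𝓝 (e x)]
      (fun z => h ((chartAt (E n) x).symm z)) ∘ (chartAt (E n) x ∘ e.symm) :=
    t4.mono fun w hw => (congrArg h hw.2.2.2.2.1).symm
  have d : ∀ v, fderiv ℂ (fun w => h (e.symm w)) (e x) (Jm e (chartAt (E n) x) x *ᵥ v) =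
      dAt n h x v := fun v => by
    rw [ev.fderiv_eq, fderiv_comp _ (p ▸ hol0 h1) t1.self_of_nhds, p, ContinuousLinearMap.comp_apply,
      (mCHN n _ _ t1).2.2.2.2.2.1, Matrix.mulVec_mulVec]
    exact congrArg (dAt n h x) ((congrArg (· *ᵥ v) t3).trans (Matrix.one_mulVec v))
  have j : Jm (chartAt (E n) x) e x *ᵥ Jm e (chartAt (E n) x) x *ᵥ v = v := by
    rw [Matrix.mulVec_mulVec, t3, Matrix.one_mulVec]
  refine ⟨fun h0 => h2 (ContinuousLinearMap.ext fun v => ?_), _, fun h0 => v0 ?_,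
    (d v).trans v1, by rw [nq_cj, j, v2]⟩
  · rw [← d, h0]; rfl
  · rw [← j, h0, Matrix.mulVec_zero]

theorem sec_hol {m q : ℕ} {r : X → OpenPartialHomeomorph X (E n)} (r1 : ∀ x, r x ∈ (mf n X).C)
    (r2 : ∀ x, x ∈ (r x).source) (r3 : ∀ x, (r x : X → E n) = chartAt (E n) x)
    (r4 : ∀ x, ((r x).symm : E n → X) = (chartAt (E n) x).symm) {s : X → E n → ℂ}
    {k : X → X → ℂ} {y : X} (k1 : DifferentiableAt ℂ (s y) (r y y)) (k2 : KP.HolAt n 0 (k y) y)
    (h : ∀ᶠ x in 𝓝 y, s y (r y x) * k y x ^ q =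
      s x (r x x) * k x x ^ q * ((Jm (r x) (r y) x).det ^ m) ^ q) :
    KP.HolAt n (m * q) (fun x => s x (r x x) * k x x ^ q) y := by
  have k5 := ((r y).tendsto_symm (r2 y)).eventually h
  have k6 := (r y).open_target.mem_nhds ((r y).map_source (r2 y))
  rw [r3] at k1 k6
  rw [congrFun (r3 y) y] at k5
  refine (k1.mul ((hol0 k2).pow q)).congr_of_eventuallyEq ?_
  filter_upwards [k5, k6] with w h4 hw
  have h5 := (ov (r1 ((r y).symm w)) (r1 y) (r2 _) ((r y).map_target hw)).1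
  rw [Jm] at h4
  rw [(r y).right_inv hw] at h4 h5
  rw [← (mCHN n _ _ h5).2.2.2.2.2.2.1] at h4
  have h7 : jacAt n X y w = (fderiv ℂ (r ((r y).symm w) ∘ (r y).symm) w).det := by
    rw [r3, r4]
    rfl
  rw [Pi.mul_apply, Pi.pow_apply, h7, ← r4, h4, pow_mul]

end Br

open Br in
theorem st_BRG : St_BRG := by
  intro n X ι _ _ _ _ _ _ m U f g φ ψ hX hm hK hφ hE
  obtain ⟨p, l, d, G, F, hP⟩ := aBR n X hX
  have ho : ∀ a : ι × Fin (p + n + 1), IsOpen (U a.1 ∩ {x | F x a.2 ≠ 0}) := fun a =>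
    (hK.opn _).inter (open_ne hP.map _)
  have hc : ∀ x, ∃ a : ι × Fin (p + n + 1), x ∈ U a.1 ∩ {x | F x a.2 ≠ 0} := fun x => by
    obtain ⟨i, hi⟩ := hK.cov x
    obtain ⟨k, hk⟩ := Function.ne_iff.1 (hP.map.ne x)
    exact ⟨(i, k), hi, hk⟩
  let M : Mf n := rs (mf n X) (U := fun a : ι × Fin (p + n + 1) => U a.1 ∩ {x | F x a.2 ≠ 0}) ho hc
  have cpt : M.Cpt := ⟨‹_›, ‹_›, inferInstanceAs (ConnectedSpace X)⟩
  obtain ⟨r, r1, r2, r3, r4⟩ : ∃ r : X → OpenPartialHomeomorph X (E n), (∀ x, r x ∈ M.C) ∧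
      (∀ x, x ∈ (r x).source) ∧ (∀ x, (r x : X → E n) = chartAt (E n) x) ∧
      ∀ x, ((r x).symm : E n → X) = (chartAt (E n) x).symm := by
    choose r r1 r2 r3 r4 using fun x : X =>
      restr (mf n X) ho hc (cm x) (mem_chart_source (E n) x)
    exact ⟨r, r1, r2, r3, r4⟩
  have hι : ∀ e : OpenPartialHomeomorph X (E n), ∃ i, e ∈ M.C → e.source ⊆ U i := fun e => by
    by_cases he : e ∈ M.C
    · obtain ⟨a, ha⟩ := he.2
      exact ⟨a.1, fun _ => ha.trans inter_subset_left⟩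
    · obtain ⟨x⟩ : Nonempty X := inferInstance
      exact (hK.cov x).imp fun _ _ h => absurd h he
  choose i hi using hι
  have ri : ∀ y, y ∈ U (i (r y)) := fun y => hi _ (r1 y) (r2 y)
  choose u hu using hK.unit
  choose v hv using hE.unit
  obtain ⟨c, c1, c2⟩ := hK.lct
  have c0 : 0 < c := lt_of_le_of_lt (by positivity) c1
  have nf : ∀ j, ∀ x ∈ U j, ∃ᶠ y in 𝓝 x, f j y ≠ 0 := fun j x hx =>
    let ⟨_, a, b⟩ := c2 j x hx
    freq c0 a b
  have ng := fun j x hx => (exc_div hE j x hx).2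
  have cu := coc hK.opn hu nf
  obtain ⟨LB, b1, b2⟩ := exists_co ho hc hi hK.hol hu cu
  obtain ⟨LE, e1, e2⟩ := exists_co ho hc hi (fun j x hx => (exc_div hE j x hx).1) hv
    (coc hK.opn hv ng)
  have rel := phi_rel hK.opn hφ hu hv fun j x hx => freq_and (nf j x hx) (by
    filter_upwards [(hK.opn j).mem_nhds hx] with y hy
    exact ⟨fun h => (hol_cont (hK.hol j y hy)).eventually_ne h, ng j y hy⟩)
  have sφ := fun j x hx => (hφ.an j x hx).contDiffAt (n := ∞)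
  have hφe : ∀ a b, ∀ x ∈ U a ∩ U b, hA n m (φ a) x = hA n m (φ b) x := fun a b x hx =>
    hA_eq (q := fun y => u a b y * (v a b y)⁻¹) (sφ b x hx.2)
      (mul_ne_zero (hu a b x hx).2.1 (inv_ne_zero (hv a b x hx).2.1)) (by
        filter_upwards [((hK.opn a).inter (hK.opn b)).mem_nhds hx] with y hy
        refine ⟨?_, rel a b y hy⟩
        simp only [KP.HolAt, pow_zero, mul_one]
        refine (hol0 (hu a b y hy).1).mul ((hol0 (hv a b y hy).1).inv ?_)
        rw [(chartAt (E n) y).left_inv (mem_chart_source (E n) y)]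
        exact (hv a b y hy).2.1)
  have hψe : ∀ a b, ∀ x ∈ U a ∩ U b, hA n 0 (ψ a) x = hA n 0 (ψ b) x := fun a b x hx =>
    eq_of_nq (hess_herm (hE.sm a x hx.1)) (hess_herm (hE.sm b x hx.2)) fun w => by
      rw [← curv_eq (hE.sm a x hx.1), ← curv_eq (hE.sm b x hx.2), hE.eq a b x hx]
  let φ' : M.Fam ℝ := fun e : OpenPartialHomeomorph X (E n) => wt m (φ (i e)) e
  let ψ' : M.Fam ℝ := fun e : OpenPartialHomeomorph X (E n) => wt 0 (ψ (i e)) e
  have p1 : ∀ e : OpenPartialHomeomorph X (E n), e ∈ M.C → ∀ x ∈ e.source, M.hw φ' e (e x) =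
      (Jm (chartAt (E n) x) e x)ᴴ * hA n m (φ (i e)) x * Jm (chartAt (E n) x) e x :=
    fun e he x hx => (wt_sm he.1 hx (sφ _ x (hi e he hx))).2
  have p2 : ∀ e : OpenPartialHomeomorph X (E n), e ∈ M.C → ∀ x ∈ e.source, M.hw ψ' e (e x) =
      (Jm (chartAt (E n) x) e x)ᴴ * hA n 0 (ψ (i e)) x * Jm (chartAt (E n) x) e x :=
    fun e he x hx => (wt_sm he.1 hx (hE.sm _ x (hi e he hx))).2
  have an : M.All fun e z => AnalyticAt ℝ (φ' e) z := Mf.allOn_of_source fun e he x hx =>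
    wt_an he.1 hx (hφ.an _ x (hi e he hx))
  have wL : M.WtC ((LB.tw m).tn (iv LE)) φ' := by
    refine ⟨fun e he z hz => (an e he z hz).contDiffAt, ?_⟩
    intro (e : OpenPartialHomeomorph X (E n)) he (e' : OpenPartialHomeomorph X (E n)) he' (x : X)
      hx hx'
    have hx2 : x ∈ U (i e') ∩ U (i e) := ⟨hi e' he' hx', hi e he hx⟩
    have a1 := wt_cmp m (φ (i e')) he.1 he'.1 hx hx'
    have a2 : wt m (φ (i e')) e (e x) = wt m (φ (i e)) e (e x) +
        Real.log (normSq (u (i e') (i e) x * (v (i e') (i e) x)⁻¹)) := by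
      simp only [wt, e.left_inv hx, rel _ _ x hx2]
      ring
    change wt m (φ (i e')) e' (e' x) = wt m (φ (i e)) e (e x) +
      Real.log (normSq ((Jm e e' x).det ^ m * LB.c e e' x * (LE.c e e' x)⁻¹))
    rw [a1, a2, b1, e1, mul_assoc, map_mul normSq (_ ^ m), map_pow,
      Real.log_mul (pow_pos (normSq_pos.2 (ov he.1 he'.1 hx hx').2.1) m).ne' (normSq_pos.2
        (mul_ne_zero (hu _ _ x hx2).2.1 (inv_ne_zero (hv _ _ x hx2).2.1))).ne', Real.log_pow]
    ring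
  have sψ : M.All fun e z => ContDiffAt ℝ ∞ (ψ' e) z := Mf.allOn_of_source fun e he x hx =>
    (wt_sm he.1 hx (hE.sm _ x (hi e he hx))).1
  have cW : M.Clo (M.hw ψ') := by
    refine ⟨⟨⟨fun e he z hz => smM_hess (cd_ofReal (sψ e he z hz)), ?_⟩,
      fun e he z hz => hess_herm (sψ e he z hz)⟩, fun e he z hz => clM_hess (cd_ofReal (sψ e he z hz))⟩
    intro (e : OpenPartialHomeomorph X (E n)) he (e' : OpenPartialHomeomorph X (E n)) he' (x : X)
      hx hx'
    change M.hw ψ' e' (e' x) = (Jm e e' x)ᴴ * M.hw ψ' e (e x) * Jm e e' x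
    rw [p2 e he x hx, p2 e' he' x hx', hψe _ _ x ⟨hi e' he' hx', hi e he hx⟩,
      (ov (cm x) he.1 (mem_chart_source (E n) x) hx).2.2.2.2 e' he'.1 hx', Matrix.conjTranspose_mul]
    simp only [Matrix.mul_assoc]
  have psd : M.Le 0 (M.hw φ') := by
    refine Mf.allOn_of_source ?_
    intro (e : OpenPartialHomeomorph X (E n)) he (x : X) hx
    have a := le_of_nq Matrix.isHermitian_zero (hess_herm (sφ _ x (hi e he hx))) fun w => by
      rw [show nq 0 w = 0 by simp [nq]]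
      exact (hφ.pos _ x (hi e he hx) w).trans_eq (curv_eq (sφ _ x (hi e he hx)) w)
    change (M.hw φ' e (e x) - 0).PosSemidef
    rw [sub_zero] at a ⊢
    rw [p1 e he x hx]
    exact a.conjTranspose_mul_mul_same _
  have hR := RA.RK.rank_rep wL.clo.toTen
  have hb : BddAbove (range fun x => (M.ev (M.hw φ') x).rank) :=
    ⟨n, by rintro _ ⟨x, rfl⟩; exact Matrix.rank_le_width _⟩
  obtain ⟨x₀, h0⟩ := Nat.sSup_mem (range_nonempty fun x : M.X => (M.ev (M.hw φ') x).rank) hb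
  have hle : M.All fun e z => (M.hw φ' e z).rank ≤ (M.ev (M.hw φ') x₀).rank := fun e he z hz =>
    (hR e he z hz).ge.trans ((le_csSup hb (mem_range_self _)).trans_eq h0.symm)
  have hP' : Prj M d G F := ⟨hP.pos, hP.hom, ⟨hP.map.ne, fun e he z hz =>
      (hP.map.ex e he.1 z hz).imp fun _ h => ⟨he, h.tgt, h.hol, h.ev⟩⟩,
    fun e z F' h => hP.imm e z F' ⟨h.mem.1, h.tgt, h.hol, h.ev⟩, hP.inj, hP.zero, hP.onto, hP.jac⟩
  have hk := (aGAU n M _ F hP'.map hP'.imm).1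
  refine ⟨M, cpt, ‹SimplyConnectedSpace X›, p, l, d, _, G, F, φ', _, LB, LE, _, _, M.hw ψ', hP',
    fun e he => ?_, ⟨⟨RA.wtP_of wL, an, hle,
      ((RA.st_X0 n M φ' _ (RA.wtP_of wL) an hle).2.2 cpt ⟨x₀, rfl⟩).1⟩, hk, psd⟩, wL,
    ⟨hm, fun e he e' he' x hx hx' => inv_mul_cancel_right₀ (LE.ne e he e' he' x hx hx') _, b2, e2,
      ⟨c, c1, fun x : X => ⟨r x, r1 x, r2 x, ?_⟩⟩, fun x : X => ?_⟩, ⟨cW, ?_, ?_, fun x : X => ?_⟩,
    Matrix.rank_le_width _, fun j x hx => ?_, ?_⟩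
  · obtain ⟨a, ha⟩ := he.2
    exact ⟨a.2, fun x hx => (ha hx).2⟩
  · have := c2 _ x (ri x)
    rw [← r3, ← r4] at this
    exact this
  · obtain ⟨j, hj⟩ := hK.cov x
    refine mem_closure_iff_frequently.2 (((ng j x hj).and_eventually
      ((hK.opn j).mem_nhds hj)).mono fun y hy => ?_)
    have a := hv _ j y ⟨hi _ (Mf.ch_mem (M := M) y) (Mf.mem_ch (M := M) y), hy.2⟩
    change g (i (M.ch y)) ((M.ch y).symm (M.ch y y)) ≠ 0
    rw [Mf.ch_symm, a.2.2]
    exact mul_ne_zero a.2.1 hy.1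
  · refine Mf.allOn_of_source ?_
    intro (e : OpenPartialHomeomorph X (E n)) he (x : X) hx
    have hx' := hi e he hx
    have a := le_of_nq (hess_herm (sφ _ x hx')) (hess_herm (hE.sm _ x hx')) fun w =>
      ((curv_eq (sφ _ x hx') w).symm.trans_le (hE.dom _ x hx' w)).trans_eq
        (curv_eq (hE.sm _ x hx') w)
    change (M.hw ψ' e (e x) - M.hw φ' e (e x)).PosSemidef
    rw [p1 e he x hx, p2 e he x hx, ← Matrix.sub_mul, ← Matrix.mul_sub]
    exact a.conjTranspose_mul_mul_same _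
  · obtain ⟨j, x, hx, h⟩ := hE.pos
    have m1 := Mf.ch_mem (M := M) x
    have m2 := Mf.mem_ch (M := M) x
    refine ⟨x, ?_⟩
    rw [show M.ev (M.hw ψ') x = _ from p2 _ m1 x m2, hψe _ j x ⟨hi _ m1 m2, hx⟩]
    refine (pd_of_nq (hess_herm (hE.sm j x hx)) fun w hw =>
      (h w hw).trans_eq (curv_eq (hE.sm j x hx) w)).conjTranspose_mul_mul_same ?_
    exact Matrix.mulVec_injective_iff_isUnit.2 ((Matrix.isUnit_iff_isUnit_det _).2
      (ov (cm x) m1.1 (mem_chart_source (E n) x) m2).2.1.isUnit)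
  · obtain ⟨N, k, hk⟩ := hE.fac _ x (ri x)
    refine ⟨r x, r1 x, r2 x, N, fun a w => k a ((r x).symm w), ?_⟩
    filter_upwards [((r x).tendsto_symm (r2 x)).eventually hk,
      (r x).open_target.mem_nhds ((r x).map_source (r2 x))] with w hw hw'
    have hy := (r x).map_target hw'
    refine ⟨hw.1, fun a => ⟨hol_chart (fun y => ((r1 x).1 y).2) hw' (hw.2 a).1, fun h0 => ?_⟩⟩
    obtain ⟨a1, t, a2, a3, a4⟩ := (hw.2 a).2 h0
    rw [curv_eq (hE.sm _ _ (hi _ (r1 x) hy))] at a4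
    have := fac_pt (r1 x).1 hy (hw.2 a).1 a1 a2 a3 a4
    rwa [← p2 _ (r1 x) _ hy, (r x).right_inv hw'] at this
  · obtain ⟨T, h1, h2⟩ := exists_ker (hle _ (r1 x) _ ((r x).map_source (r2 x)))
    refine ⟨T, h1, fun w hw => ?_⟩
    have a : M.hw φ' (r x) (r x x) = hA n m (φ (i (r x))) x := by
      have a1 : wt m (φ (i (r x))) (r x) = wt m (φ (i (r x))) (chartAt (E n) x) := by
        funext z; simp only [wt, r4]
      change hess (fun z => (wt m (φ (i (r x))) (r x) z : ℂ)) (r x x) = _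
      rw [a1, r3]
      exact hess_congr ((wt_chart m _ x).mono fun z h => congrArg ofReal h)
    rw [curv_eq (sφ j x hx), hφe j _ x ⟨hx, ri x⟩, ← a, nq, h2 w hw, dotProduct_zero, zero_re]
  rintro ⟨a, c', a0, c0', h⟩
  refine ⟨a, c', a0, c0', h.mono fun b ⟨N, s, h1, h2, h3⟩ => ⟨N, fun t j y =>
    s t (r y) (r y y) * u j (i (r y)) y ^ (a * b), h1, fun t => ⟨fun j y hy => ?_,
      fun j j' y hy => ?_⟩, fun t ht => ?_⟩⟩
  · refine sec_hol (s := fun x => s t (r x)) (k := fun x => u j (i (r x))) (fun x => (r1 x).1) r2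
      r3 r4 ((h2 t).hol _ (r1 y) _ ((r y).map_source (r2 y))) (hu _ _ y ⟨hy, ri y⟩).1 ?_
    filter_upwards [(hK.opn j).mem_nhds hy, (r y).open_source.mem_nhds (r2 y)] with x a1 a2
    have h4 : s t (r y) (r y x) = s t (r x) (r x x) *
        ((Jm (r x) (r y) x).det ^ m * LB.c (r x) (r y) x) ^ (a * b) :=
      (h2 t).cmp _ (r1 x) _ (r1 y) _ (r2 x) a2
    rw [h4, b1, cu j _ _ x a1 (hi _ (r1 y) a2) (ri x)]
    ring
  · rw [(hu j' _ y ⟨hy.2, ri y⟩).2.2, (hu j _ y ⟨hy.1, ri y⟩).2.2]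
    ring
  · refine funext (Fintype.linearIndependent_iff.1 h3 t (funext fun x : X => ?_))
    have a1 := ht _ x (ri x)
    simp only [← mul_assoc, ← Finset.sum_mul] at a1
    have a2 := (mul_eq_zero.1 a1).resolve_right (pow_ne_zero _ (hu _ _ x ⟨ri x, ri x⟩).2.1)
    have a3 : ∀ k, M.ev (s k) x = s k (r x) (r x x) * ((LB.tw m).pw (a * b)).c (r x) (M.ch x) x :=
      fun k => (h2 k).cmp _ (r1 x) _ (Mf.ch_mem (M := M) x) _ (r2 x) (Mf.mem_ch (M := M) x)
    rw [Finset.sum_apply]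
    simp only [Pi.smul_apply, smul_eq_mul, a3, ← mul_assoc, ← Finset.sum_mul, a2, zero_mul]
    rfl

end Pool.Agent.Lib.RY
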