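import Pool.Agent.Lib.RY.B_EXT
import Pool.Agent.Lib.RA.H56B
import Pool.Agent.Lib.RA.T_AN

/-! Block RIG: rigidity of admissible germs. -/

open scoped Classical Topology ContDiff ComplexOrder Matrix
open Set Complex Metric Filter

set_option linter.unusedVariables false

noncomputable section

namespace Pool.Agent.Lib.RA

open Pool.Agent.Lib.SV (E nsq)
open Pool.Agent.Lib.HS32 H56

/-- Maximality of the moment maps on the tube. -/
def MaxT {k j : ℕ} (Φ : E (k + j) × E (k + j) → ℂ) (δ : ℝ) : Prop :=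
  ∀ t ∈ ball (0 : E (k + j)) (2 * δ), ∀ (ν : E (k + j) → ℝ) (V : E (k + j) → E (k + j)),
    AnalyticAt ℝ ν t → HolN V t →
    (∀ᶠ s in 𝓝 t, dbv ν s = hr (ph0 Φ) s *ᵥ V s ∧ ∀ i, (fx (dbv ν s) i).im = 0) →
    ∃ (a : Fin k → ℝ) (b : ℝ), ∀ᶠ s in 𝓝 t, ν s = ∑ i, a i * mu0 Φ s i + b

theorem H56.an_dg {r : ℕ} (t : E r) : AnalyticAt ℝ (dg : E r → E r × E r) t :=
  analyticAt_id.prod (analyticAt_pi_iff.2 fun i =>
    (conjCLE.analyticAt _).comp (analyticAt_pi_iff.1 analyticAt_id i))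

theorem H56.max_of {k j : ℕ} {Φ : E (k + j) × E (k + j) → ℂ} {δ c : ℝ} (h : Tv k j Φ δ c)
    (hM : MaxT Φ δ) : (mk h).Max := by
  intro t ht ν N V hN hV
  have a1 : AnalyticAt ℝ (fun s => (N (dg s)).re) t :=
    (reCLM.analyticAt _).comp (((ANB.analyticAt hN).restrictScalars (𝕜 := ℝ)).comp (an_dg t))
  rw [mk_ph] at hV
  obtain ⟨a, b, hab⟩ := hM t ht ν V (a1.congr (hV.mono fun s hs => by simp [hs.1]))
    (hV.mono fun s hs => hs.2.1) (hV.mono fun s hs => ⟨funext hs.2.2.1, fun i => by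
      rw [fx, dbv, hs.2.2.1]
      exact hs.2.2.2 _ i.isLt⟩)
  refine ⟨b, Fin.append a 0, fun i => Fin.addCases (fun l hl => absurd l.isLt hl)
    (fun l _ => by simp) i, hab.mono fun s hs => ?_⟩
  rw [hs, Fin.sum_univ_add, add_comm]
  simp [mk_mu]

theorem st_RIG {k j : ℕ} {Φ : E (k + j) × E (k + j) → ℂ} {δ c : ℝ} (h : Tv k j Φ δ c)
    (hM : MaxT Φ δ) : ∃ ε, 0 < ε ∧ Rig Φ δ ε := by
  have hd : δ < (mk h).del := show δ < 2 * δ by linarith [h.d0]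
  obtain ⟨ε, h0, h1⟩ := (mk h).rig (max_of h hM) hd
  refine ⟨ε, h0, fun γ t a1 a2 a3 a4 a5 a6 => ?_⟩
  rw [← pk_pj] at a2 a3
  have a7 : ∀ᶠ z in 𝓝 t, ContDiffAt ℝ ∞ (mk h).ph z :=
    (cont_pk.norm.continuousAt.eventually (gt_mem_nhds (a2.trans_lt hd))).mono fun z hz =>
      (mk h).cd_ph hz
  obtain ⟨a, b1, b2⟩ := h1 γ t a2 ⟨(iso_iff _ a7 a1 (a3.trans_lt hd)).2
    (by rw [mk_ph]; exact a4.mono fun w hw => hw.1), a4.mono fun w hw i hi => by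
      have := congrFun hw.2 ⟨i.val, hi⟩
      rwa [← mk_mu h, ← mk_mu h] at this⟩ (by rwa [pk_pj, pk_pj]) a6
  obtain ⟨b, rfl⟩ := tr_io b1
  exact ⟨b, b2⟩

end Pool.Agent.Lib.RA
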