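import Pool.Agent.Lib.HN.SDefs
import Pool.Agent.Lib.PN.SDefs
import Pool.Agent.Lib.KP.Kit
import Pool.Agent.Lib.PN.Blue
import Pool.Agent.Lib.HN.Tail
import Pool.Agent.Lib.SV.Hol85
import Pool.Agent.Lib.RA.PDefs
import Pool.Agent.Lib.RA.T_TOP

/-! Project ra2: the objects. -/

open scoped Classical Topology ContDiff ComplexOrder Matrix
open Set MeasureTheory Complex Metric Filter

set_option linter.unusedVariables false

noncomputable section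

namespace Pool.Agent.Lib.RA

open Pool.Agent.Lib.SV (E nsq)
open Pool.Agent.Lib.HS32

/-! ### Coordinates -/

section euc

variable {n r k j : ℕ}

/-- `F` is the polarisation of `f` on the ball. -/
structure Plz (f : E n → ℝ) (F : E n × E n → ℂ) (c : E n) (R : ℝ) : Prop where
  hol : DifferentiableOn ℂ F (ball (dg c) R)
  eq : ∀ z ∈ ball c R, F (dg z) = f z

/-- The Jacobian matrix. -/
def jr (H : E n → E r) (z : E n) : Matrix (Fin r) (Fin n) ℂ :=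
  Matrix.of fun i l => fderiv ℂ H z (Pi.single l 1) i

/-- The Levi form on a complex normed space. -/
def lev {V : Type} [NormedAddCommGroup V] [NormedSpace ℝ V] [NormedSpace ℂ V] (f : V → ℝ)
    (z v : V) : ℝ :=
  (fderiv ℝ (fun w => fderiv ℝ f w v) z v +
    fderiv ℝ (fun w => fderiv ℝ f w (I • v)) z (I • v)) / 4

/-- The complex Hessian of a real function. -/
def hr (f : E n → ℝ) : E n → Mat n := hess fun w => (f w : ℂ)

/-- The `(0,1)` derivative of a real function. -/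
def dbv (f : E n → ℝ) (z : E n) : E n := fun i => dzb i (fun w => (f w : ℂ)) z

/-- The `(1,0)` derivative of a real function. -/
def dv1 (f : E n → ℝ) (z : E n) : E n := fun i => dz i (fun w => (f w : ℂ)) z

/-- The kernel of the mixed derivative does not depend on the second variable. -/
structure HFe (Φ : E n × E n → ℂ) (c : E n) (R : ℝ) (r : ℕ) : Prop where
  hol : DifferentiableOn ℂ Φ (ball (dg c) R)
  real : ∀ z ∈ ball c R, (Φ (dg z)).im = 0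
  ck : CK Φ c R r

/-- `Ξ / δ` is the field of the potential `m`. -/
structure Fld (Φ m : E n × E n → ℂ) (c : E n) (R : ℝ) (δ : E n → ℂ) (Ξ : E n → E n) : Prop where
  hd : DifferentiableOn ℂ δ (ball c R)
  hx : DifferentiableOn ℂ Ξ (ball c R)
  eq : ∀ w ∈ ball (dg c) R, δ w.1 • pu m w = Gm Φ w *ᵥ Ξ w.1

/-- A polarised Killing potential on the ball. -/
structure Kpe (Φ m : E n × E n → ℂ) (c : E n) (R : ℝ) : Prop where
  hol : DifferentiableOn ℂ m (ball (dg c) R)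
  real : ∀ z ∈ ball c R, (m (dg z)).im = 0
  ex : ∃ δ Ξ, Fld Φ m c R δ Ξ ∧ ∃ z ∈ ball c R, δ z ≠ 0

/-- Real vectors as complex vectors. -/
def cx (a : Fin k → ℝ) : E k := fun i => a i

/-- Twice the real part. -/
def r2 (ζ : E k) : Fin k → ℝ := fun i => 2 * (ζ i).re

/-- The first `k` coordinates. -/
def fx (t : E (k + j)) : E k := fun i => t (Fin.castAdd j i)

/-- The last `j` coordinates. -/
def sx (t : E (k + j)) : E j := fun l => t (Fin.natAdd k l)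

/-- A real vector in the first `k` coordinates. -/
def io (j : ℕ) (a : Fin k → ℝ) : E (k + j) := Fin.append (cx a) 0

/-- Forget the imaginary parts of the first `k` coordinates. -/
def pj (t : E (k + j)) : E (k + j) := Fin.append (fun i => ((fx t i).re : ℂ)) (sx t)

/-- The real translation by `a / 2`. -/
def sh (t : E (k + j)) (a : Fin k → ℝ) : E (k + j) := t + io j ((1 / 2 : ℝ) • a)

/-- The projection on the last `j` coordinates. -/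
def ps (k j : ℕ) : Mat (k + j) := Matrix.diagonal fun i => if i.val < k then 0 else 1

/-- The potential on the diagonal. -/
def pt (Φ : E r × E r → ℂ) (t : E r) : ℝ := (Φ (dg t)).re

/-- The invariant potential on the tube. -/
def ph0 (Φ : E (k + j) × E (k + j) → ℂ) (t : E (k + j)) : ℝ := pt Φ (pj t)

/-- The moment map on the tube. -/
def mu0 (Φ : E (k + j) × E (k + j) → ℂ) (t : E (k + j)) : Fin k → ℝ :=
  fun i => (fx (pz Φ (dg (pj t))) i).re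

/-- A small piece of an analytic Kähler manifold. -/
structure Tv0 (Φ : E r × E r → ℂ) (δ c : ℝ) : Prop where
  d0 : 0 < δ
  c0 : 0 < c
  hol : DifferentiableOn ℂ Φ (ball 0 (2 * δ))
  real : ∀ t ∈ ball (0 : E r) (2 * δ), (Φ (dg t)).im = 0
  lin : ∀ v, 2 * c * ‖v‖ ≤ ‖Gm Φ 0 *ᵥ v‖
  near : ∀ w ∈ ball (0 : E r × E r) (2 * δ), ∀ v, ‖(Gm Φ w - Gm Φ 0) *ᵥ v‖ ≤ c * ‖v‖
  lo : ∀ t ∈ ball (0 : E r) (2 * δ), (Gm Φ (dg t) - (c : ℂ) • (1 : Mat r)).PosSemidef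

/-- The same, invariant under imaginary translations in the first `k` coordinates. -/
structure Tv (k j : ℕ) (Φ : E (k + j) × E (k + j) → ℂ) (δ c : ℝ) : Prop extends Tv0 Φ δ c where
  inv : ∀ w ∈ ball (0 : E (k + j) × E (k + j)) (2 * δ), fx (pz Φ w) = fx (pu Φ w)

/-- Two maps differ near `x` by an imaginary translation. -/
def Tr {X : Type} [TopologicalSpace X] (H H' : X → E (k + j)) (x : X) : Prop :=
  ∃ a : Fin k → ℝ, ∀ᶠ y in 𝓝 x, H' y = H y + I • io j a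

/-- Admissible germs that are close to the identity are translations. -/
def Rig (Φ : E (k + j) × E (k + j) → ℂ) (δ ε : ℝ) : Prop :=
  ∀ (γ : E (k + j) → E (k + j)) (t : E (k + j)), HolN γ t → ‖pj t‖ ≤ δ → ‖pj (γ t)‖ ≤ δ →
    (∀ᶠ w in 𝓝 t, hr (ph0 Φ ∘ γ) w = hr (ph0 Φ) w ∧ mu0 Φ (γ w) = mu0 Φ w) →
    ‖pj (γ t) - pj t‖ < ε → ‖fderiv ℂ γ t - ContinuousLinearMap.id ℂ _‖ < ε → Tr id γ t

/-- At most `N` classes of germs. -/
def Fin0 (Φ : E (k + j) × E (k + j) → ℂ) (δ : ℝ) (N : ℕ) : Prop :=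
  ∀ (n : ℕ) (y : E n) (H : Fin (N + 1) → E n → E (k + j)), (∀ i, HolN (H i) y) →
    (∀ i, ‖pj (H i y)‖ ≤ δ) → (∀ i, Function.Surjective (fderiv ℂ (H i) y)) →
    (∀ i i', ∀ᶠ z in 𝓝 y, hr (ph0 Φ ∘ H i) z = hr (ph0 Φ ∘ H i') z ∧
      mu0 Φ (H i z) = mu0 Φ (H i' z)) →
    ∃ i i', i ≠ i' ∧ Tr (H i) (H i') y

end euc

/-! ### Manifolds -/

section mf

variable {n r k j : ℕ} (M : Mf n)

/-- A property holds at `x` in all charts. -/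
def At (x : M.X) (p : M.Ch → E n → Prop) : Prop := ∀ e ∈ M.C, x ∈ e.source → p e (e x)

/-- Holomorphic near `x`. -/
def HolAt {F : Type} [NormedAddCommGroup F] [NormedSpace ℂ F] (f : M.X → F) (x : M.X) : Prop :=
  At M x fun e z => HolN (f ∘ e.symm) z

/-- Real-analytic at `x`. -/
def AnAt {F : Type} [NormedAddCommGroup F] [NormedSpace ℝ F] (f : M.X → F) (x : M.X) : Prop :=
  At M x fun e z => AnalyticAt ℝ (f ∘ e.symm) z

/-- Smooth at `x`. -/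
def SmAt {F : Type} [NormedAddCommGroup F] [NormedSpace ℝ F] (f : M.X → F) (x : M.X) : Prop :=
  At M x fun e z => ContDiffAt ℝ ∞ (f ∘ e.symm) z

/-- A holomorphic map to the manifold. -/
def HolTo {m : ℕ} (σ : E m → M.X) (t : E m) : Prop :=
  ContinuousAt σ t ∧ ∀ e ∈ M.C, σ t ∈ e.source → HolN (e ∘ σ) t

/-- A submersion at `x`. -/
def Subm (H : M.X → E r) (x : M.X) : Prop :=
  At M x fun e z => Function.Surjective (fderiv ℂ (H ∘ e.symm) z)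

/-- Two families agree at `x`. -/
def EqAt {F : Type} (S T : M.Fam F) (x : M.X) : Prop := At M x fun e z => S e z = T e z

/-- Smooth and pluriharmonic near `x`. -/
def PhAt (g : M.X → ℝ) (x : M.X) : Prop := ∀ᶠ y in 𝓝 x, SmAt M g y ∧ EqAt M (M.hs g) 0 y

/-- The points of rank `r`. -/
def X0 (η : M.Fam (Mat n)) (r : ℕ) : Set M.X := {x | (M.ev η x).rank = r}

/-- Local potentials of a closed form. -/
structure WtP (φ : M.Fam ℝ) : Prop where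
  sm : M.All fun e z => ContDiffAt ℝ ∞ (φ e) z
  clo : M.Clo (M.hw φ)

variable {M} in
theorem wtP_of {L : M.Co} {φ : M.Fam ℝ} (h : M.WtC L φ) : WtP M φ := ⟨h.sm, h.clo⟩

/-- An analytic weight whose curvature has generic rank `r`. -/
structure Pot (φ : M.Fam ℝ) (r : ℕ) : Prop where
  wt : WtP M φ
  an : M.All fun e z => AnalyticAt ℝ (φ e) z
  le : M.All fun e z => (M.hw φ e z).rank ≤ r
  den : Dense (X0 M (M.hw φ) r)

/-- The setting. -/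
structure Su (G : M.Fam (Mat n)) (φ : M.Fam ℝ) (r : ℕ) : Prop extends Pot M φ r where
  kae : M.Kae G
  psd : M.Le 0 (M.hw φ)

/-- The kernel of the curvature is holomorphic. -/
def HF (φ : M.Fam ℝ) (r : ℕ) : Prop :=
  ∀ e ∈ M.C, ∀ c R Φ, ball c R ⊆ e.target → Plz (φ e) Φ c R → HFe Φ c R r

/-- The weight is polarised on the balls of the covering. -/
def PCov (φ : M.Fam ℝ) (V : M.Cov) : Prop := ∀ a, ∃ Φ, Plz (φ (V.e a)) Φ (V.c a) (4 * V.ρ a)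

/-! #### Densities -/

/-- A smooth `(1,1)` tensor on an open set. -/
structure TenOn (O : Set M.X) (T : M.Fam (Mat n)) : Prop where
  sm : ∀ x ∈ O, At M x fun e z => SmM (T e) z
  cmp : M.Ov fun e e' x => x ∈ O → T e' (e' x) = (M.J e e' x)ᴴ * T e (e x) * M.J e e' x

/-- A smooth Hermitian divergence free density on an open set. -/
structure DenOn (O : Set M.X) (A : M.Fam (Mat n)) : Prop where
  sm : ∀ x ∈ O, At M x fun e z => SmM (A e) z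
  cmp : M.Ov fun e e' x => x ∈ O → M.J e e' x * A e' (e' x) * (M.J e e' x)ᴴ =
    (normSq (M.J e e' x).det : ℂ) • A e (e x)
  herm : ∀ x ∈ O, At M x fun e z => (A e z).IsHermitian
  div : ∀ x ∈ O, At M x fun e z => ∀ a, ∑ l, dM l (A e) z l a = 0

/-- The pairing of a density and a tensor. -/
def pa (G A T : M.Fam (Mat n)) (x : M.X) : ℝ :=
  ((M.ev A x * M.ev T x).trace / (M.ev G x).det).re

/-- The integrand of the formula of Green. -/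
def grn (G A : M.Fam (Mat n)) (u w : M.X → ℂ) (x : M.X) : ℂ :=
  M.ev (fun e z => (A e z * (dd (u ∘ e.symm) (w ∘ e.symm) z +
    w (e.symm z) • hess (u ∘ e.symm) z)).trace / (G e z).det) x

/-- The top coefficient of the adjugate. -/
def tA (j : ℕ) (G β : M.Fam (Mat n)) : M.Fam (Mat n) := fun e z => RA28.topS j (G e z) (β e z)

/-- The top coefficient of the determinant. -/
def tD (j : ℕ) (G β : M.Fam (Mat n)) (x : M.X) : ℝ :=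
  RA28.topA j (M.ev G x) (M.ev β x)

/-- The pull-back of a constant form. -/
def pb (H : M.X → E r) (P : Mat r) : M.Fam (Mat n) :=
  fun e z => (jr (H ∘ e.symm) z)ᴴ * P * jr (H ∘ e.symm) z

/-! #### Killing potentials -/

/-- `μ` is a Killing potential near `x`. -/
def KPAt (φ : M.Fam ℝ) (r : ℕ) (μ : M.X → ℝ) (x : M.X) : Prop :=
  AnAt M μ x ∧ ∀ᶠ y in 𝓝 x, y ∈ X0 M (M.hw φ) r → At M y fun e z =>
    ∃ V : E n → E n, HolN V z ∧ ∀ᶠ w in 𝓝 z, M.hw φ e w *ᵥ V w = dbv (μ ∘ e.symm) w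

/-- The bracket vanishes at `x`. -/
def ComAt (φ : M.Fam ℝ) (μ ν : M.X → ℝ) (x : M.X) : Prop :=
  At M x fun e z => ∀ V W : E n, M.hw φ e z *ᵥ V = dbv (μ ∘ e.symm) z →
    M.hw φ e z *ᵥ W = dbv (ν ∘ e.symm) z → (star W ⬝ᵥ M.hw φ e z *ᵥ V).im = 0

/-- A commuting family, independent modulo constants. -/
structure Kf (φ : M.Fam ℝ) (r : ℕ) (μ : Fin k → M.X → ℝ) : Prop where
  kp : ∀ i x, KPAt M φ r (μ i) x
  com : ∀ i i', ∀ x ∈ X0 M (M.hw φ) r, ComAt M φ (μ i) (μ i') x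
  ind : ∀ (a : Fin k → ℝ) (b : ℝ), (∀ x, ∑ i, a i * μ i x = b) → a = 0

/-- The family is maximal. -/
def KMax (φ : M.Fam ℝ) (r : ℕ) (μ : Fin k → M.X → ℝ) : Prop :=
  ∀ ν, (∀ x, KPAt M φ r ν x) → (∀ i, ∀ x ∈ X0 M (M.hw φ) r, ComAt M φ (μ i) ν x) →
    ∃ (a : Fin k → ℝ) (b : ℝ), ∀ x, ν x = ∑ i, a i * μ i x + b

/-- The generic points. -/
def Xg (φ : M.Fam ℝ) (r : ℕ) (μ : Fin k → M.X → ℝ) : Set M.X :=
  {x | x ∈ X0 M (M.hw φ) r ∧ At M x fun e z => LinearIndependent ℂ fun i => dbv (μ i ∘ e.symm) z}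

/-! #### Branches -/

/-- `H` pulls the Hessian of `ψ` back to `η` near `x`. -/
def Iso (η : M.Fam (Mat n)) (ψ : E r → ℝ) (H : M.X → E r) (x : M.X) : Prop :=
  HolAt M H x ∧ ∀ᶠ y in 𝓝 x, EqAt M (M.hs (ψ ∘ H)) η y

/-- Weakly admissible. -/
structure WAdm (η : M.Fam (Mat n)) (μ : Fin k → M.X → ℝ) (Φ : E (k + j) × E (k + j) → ℂ) (δ : ℝ)
    (H : M.X → E (k + j)) (x : M.X) : Prop where
  iso : Iso M η (ph0 Φ) H x
  val : ‖pj (H x)‖ < 2 * δ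
  mom : ∀ᶠ y in 𝓝 x, ∀ i, μ i y = mu0 Φ (H y) i

/-- A box at `x₀`. -/
structure Box (φ : M.Fam ℝ) (μ : Fin k → M.X → ℝ) (x₀ : M.X) (Φ : E (k + j) × E (k + j) → ℂ)
    (δ c : ℝ) (O : Set M.X) (H : M.X → E (k + j)) (σ : E (k + j) → M.X) : Prop where
  tv : Tv k j Φ δ c
  op : IsOpen O
  mem : x₀ ∈ O
  zero : H x₀ = 0
  adm : ∀ x ∈ O, WAdm M (M.hw φ) μ Φ δ H x
  val : ∀ x ∈ O, ‖H x‖ < 2 * δ
  sub : ∀ x ∈ O, Subm M H x
  sec : ∀ t ∈ ball (0 : E (k + j)) (2 * δ), σ t ∈ O ∧ H (σ t) = t ∧ HolTo M σ t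
  s0 : σ 0 = x₀

/-- A class of germs that propagates. -/
structure Prd (φ : M.Fam ℝ) (μ : Fin k → M.X → ℝ) (Φ : E (k + j) × E (k + j) → ℂ) (δ : ℝ)
    (Q : (M.X → E (k + j)) → M.X → Prop) : Prop where
  w : ∀ H x, Q H x → WAdm M (M.hw φ) μ Φ δ H x
  tr : ∀ H H' x, Q H x → Tr H H' x → Q H' x
  prop : ∀ e ∈ M.C, ∀ c R, ball c R ⊆ e.target → ∀ H : M.X → E (k + j),
    DifferentiableOn ℂ (H ∘ e.symm) (ball c R) → (∀ z ∈ ball c R, ‖pj (H (e.symm z))‖ < 2 * δ) →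
    ∀ z ∈ ball c R, Q H (e.symm z) → ∀ z' ∈ ball c R, Q H (e.symm z')

/-- A finite atlas of branches. -/
structure Atl (Q : (M.X → E (k + j)) → M.X → Prop) (K K' : Set (E (k + j))) (N : ℕ) {m : ℕ}
    (O : Fin m → Set M.X) (H : Fin m → M.X → E (k + j)) (χ : Fin m → M.X → ℝ) : Prop where
  op : ∀ i, IsOpen (O i)
  q : ∀ i, ∀ x ∈ O i, Q (H i) x ∧ HolAt M (H i) x ∧ H i x ∈ K'
  sm : ∀ i, M.Sm (χ i)
  nn : ∀ i x, 0 ≤ χ i x
  supp : ∀ i, tsupport (χ i) ⊆ O i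
  all : ∀ H' x, Q H' x → H' x ∈ K →
    ∀ᶠ y in 𝓝 x, ∑ i ∈ Finset.univ.filter fun i => x ∈ O i ∧ Tr (H i) H' x, χ i y = 1
  mult : ∀ x, ∑ i, χ i x ≤ N

/-! #### The flow -/

/-- Polarisation of the family `ρ` near the parameter `ξ`. -/
def Pzd (V : M.Cov) (ρ : (Fin k → ℝ) → M.X → ℝ) (ξ : Fin k → ℝ) (s d B : ℝ) : Prop :=
  ∀ a, ∀ c ∈ closedBall (V.c a) (2 * V.ρ a), ball c d ⊆ (V.e a).target ∧
    ∃ R : E k × (E n × E n) → ℂ, DifferentiableOn ℂ R (ball (cx ξ) s ×ˢ ball (dg c) d) ∧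
      (∀ w ∈ ball (cx ξ) s ×ˢ ball (dg c) d, ‖R w‖ ≤ B) ∧
      ∀ ξ' ∈ ball ξ s, ∀ z ∈ ball c d, R (cx ξ', dg z) = ρ ξ' ((V.e a).symm z)

/-- The family identity near `(ξ, x)`. -/
def Fam1 (ρ : (Fin k → ℝ) → M.X → ℝ) (ψ : E (k + j) → ℝ) (ξ : Fin k → ℝ) (H : M.X → E (k + j))
    (x : M.X) : Prop :=
  ∀ᶠ w : (Fin k → ℝ) × M.X in 𝓝 (0, x),
    ρ (ξ + w.1) w.2 - ρ ξ w.2 = ψ (sh (H w.2) w.1) - ψ (H w.2)

/-- Admissible for the parameter `ξ`. -/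
structure Adm (φ : M.Fam ℝ) (ρ : (Fin k → ℝ) → M.X → ℝ) (Φ : E (k + j) × E (k + j) → ℂ) (δ : ℝ)
    (ξ : Fin k → ℝ) (H : M.X → E (k + j)) (x : M.X) : Prop where
  iso : Iso M (M.hw φ + M.hs (ρ ξ)) (ph0 Φ) H x
  val : ‖pj (H x)‖ < 2 * δ
  fam : Fam1 M ρ (ph0 Φ) ξ H x

/-- Joint plurisubharmonicity at `(ξ, x)`. -/
def JP (φ : M.Fam ℝ) (ρ : (Fin k → ℝ) → M.X → ℝ) (ξ : Fin k → ℝ) (x : M.X) : Prop :=
  At M x fun e z => ∀ v : E k × E n,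
    0 ≤ lev (fun w : E k × E n => φ e w.2 + ρ (ξ + r2 w.1) (e.symm w.2)) (0, z) v

/-- Joint analyticity at `(ξ, x)`. -/
def JA (ρ : (Fin k → ℝ) → M.X → ℝ) (ξ : Fin k → ℝ) (x : M.X) : Prop :=
  At M x fun e z => AnalyticAt ℝ (fun w : (Fin k → ℝ) × E n => ρ w.1 (e.symm w.2)) (ξ, z)

/-- The family starts at zero and is given by translations in every box. -/
structure Ini (j : ℕ) (φ : M.Fam ℝ) (μ : Fin k → M.X → ℝ) (ρ : (Fin k → ℝ) → M.X → ℝ) :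
    Prop where
  z0 : ∀ x, ρ 0 x = 0
  box : ∀ x₀ (Φ : E (k + j) × E (k + j) → ℂ) δ c O H σ, Box M φ μ x₀ Φ δ c O H σ →
    ∀ x ∈ O, Fam1 M ρ (ph0 Φ) 0 H x

/-- The complete flow. -/
structure Flow (j : ℕ) (φ : M.Fam ℝ) (μ : Fin k → M.X → ℝ) (V : M.Cov)
    (ρ : (Fin k → ℝ) → M.X → ℝ) : Prop extends Ini M j φ μ ρ where
  pc : PCov M φ V
  pol : ∀ R : ℝ, ∃ s d B : ℝ, 0 < s ∧ 0 < d ∧ ∀ ξ ∈ ball (0 : Fin k → ℝ) R, Pzd M V ρ ξ s d B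
  ja : ∀ ξ x, JA M ρ ξ x
  jp : ∀ ξ x, JP M φ ρ ξ x
  cvx : ∀ x, ConvexOn ℝ univ fun ξ => ρ ξ x
  lin : ∃ C : ℝ, 0 < C ∧ ∀ ξ x, |ρ ξ x| ≤ C * ‖ξ‖
  lip : ∃ C : ℝ, 0 < C ∧ ∀ ξ a, ∀ z ∈ closedBall (V.c a) (2 * V.ρ a),
    ∀ z' ∈ closedBall (V.c a) (2 * V.ρ a),
      |ρ ξ ((V.e a).symm z) - ρ ξ ((V.e a).symm z')| ≤ C * Real.exp (C * ‖ξ‖) * ‖z - z'‖

/-- The potential on the complex tube. -/
def phh {X : Type} (Φ : E (k + j) × E (k + j) → ℂ) (ρ : (Fin k → ℝ) → X → ℝ) (σ : E (k + j) → X)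
    (t : E (k + j)) : ℝ :=
  ph0 Φ (Fin.append 0 (sx t)) + ρ (r2 (fx t)) (σ (Fin.append 0 (sx t)))

/-- Admissible germs with values in the complex tube. -/
structure AdmE (φ : M.Fam ℝ) (ρ : (Fin k → ℝ) → M.X → ℝ) (ψ : E (k + j) → ℝ) (δ : ℝ)
    (H : M.X → E (k + j)) (x : M.X) : Prop where
  iso : Iso M (M.hw φ) ψ H x
  val : ‖sx (H x)‖ < 2 * δ
  fam : ∀ᶠ y in 𝓝 x, ∀ ζ, ρ ζ y = ψ (sh (H y) ζ) - ψ (H y)

/-- The properties of the potential on the complex tube. -/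
structure Phh (φ : M.Fam ℝ) (ρ : (Fin k → ℝ) → M.X → ℝ) (Φ : E (k + j) × E (k + j) → ℂ) (δ : ℝ)
    (O : Set M.X) (H₀ : M.X → E (k + j)) (ψ : E (k + j) → ℝ) (δ' c₁ : ℝ) : Prop where
  an : ∀ t, ‖sx t‖ < 2 * δ → AnalyticAt ℝ ψ t
  eq : ∀ t, ‖pj t‖ < 2 * δ → ψ t = ph0 Φ t
  inv : ∀ t a, ψ (t + I • io j a) = ψ t
  box : ∀ x ∈ O, AdmE M φ ρ ψ δ H₀ x
  up : ∀ H x ξ, AdmE M φ ρ ψ δ H x → ‖pj (sh (H x) ξ)‖ < 2 * δ →
    Adm M φ ρ Φ δ ξ (fun y => sh (H y) ξ) x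
  dn : ∀ H x ξ, Adm M φ ρ Φ δ ξ H x → AdmE M φ ρ ψ δ (fun y => sh (H y) (-ξ)) x
  d0 : 0 < δ'
  d1 : δ' ≤ δ / 2
  c0 : 0 < c₁
  coe : ∀ t : E (k + j), ‖sx t‖ ≤ δ' → δ ≤ ‖r2 (fx t)‖ →
    ψ (Fin.append 0 (sx t)) + c₁ * ‖r2 (fx t)‖ ≤ ψ t - mu0 Φ 0 ⬝ᵥ r2 (fx t)

/-- The regularised minimum. -/
structure Mn (φ : M.Fam ℝ) (ρ : (Fin k → ℝ) → M.X → ℝ) (b : Fin k → ℝ) (ε : ℝ) (P : M.X → ℝ)
    (ξ : M.X → Fin k → ℝ) : Prop where
  sm : M.Sm P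
  le : ∀ x a, P x ≤ ρ a x - b ⬝ᵥ a + ε * (a ⬝ᵥ a)
  eq : ∀ x, P x = ρ (ξ x) x - b ⬝ᵥ ξ x + ε * (ξ x ⬝ᵥ ξ x)
  psd : M.Le 0 (M.hw φ + M.hs P)
  lo : ∀ x, At M x fun e z => ∀ v, ∃ ζ : E k,
    lev (fun w : E k × E n => φ e w.2 + ρ (ξ x + r2 w.1) (e.symm w.2)) (0, z) (ζ, v) ≤
      nq (M.hw φ e z + M.hs P e z) v

/-- Every generic point has a box. -/
def AllBox (j : ℕ) (φ : M.Fam ℝ) (μ : Fin k → M.X → ℝ) : Prop :=
  ∀ x₀ ∈ Xg M φ (k + j) μ, ∃ (Φ : E (k + j) × E (k + j) → ℂ) (δ c : ℝ) (O : Set M.X)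
    (H : M.X → E (k + j)) (σ : E (k + j) → M.X), Box M φ μ x₀ Φ δ c O H σ

/-- Every box has finite multiplicity. -/
def AllFin (j : ℕ) (φ : M.Fam ℝ) (μ : Fin k → M.X → ℝ) : Prop :=
  ∀ x₀ (Φ : E (k + j) × E (k + j) → ℂ) δ c O H σ, Box M φ μ x₀ Φ δ c O H σ → ∃ N, Fin0 Φ δ N

/-! #### Thin sets and meromorphic functions -/

/-- A local holomorphic function that is not identically zero near any point. -/
structure Dv (O : Set M.X) (δ : M.X → ℂ) : Prop where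
  op : IsOpen O
  hol : ∀ y ∈ O, HolAt M δ y
  ne : ∀ y ∈ O, ∃ᶠ y' in 𝓝 y, δ y' ≠ 0
  le : ∀ y ∈ O, ‖δ y‖ ≤ 1

/-- The complement is thin. -/
def Cothin (W : Set M.X) : Prop :=
  IsOpen W ∧ ∀ x, ∃ O δ, x ∈ O ∧ Dv M O δ ∧ ∀ y ∈ O, δ y ≠ 0 → y ∈ W

/-- A meromorphic function. -/
def Mer (f : M.X → ℂ) : Prop :=
  ∀ x, ∃ O δ a, x ∈ O ∧ Dv M O δ ∧ (∀ y ∈ O, HolAt M a y) ∧ ∀ y ∈ O, δ y ≠ 0 → f y = a y / δ y

/-- Polynomial growth. -/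
def Tame {F : Type} [NormedAddCommGroup F] (W : Set M.X) (f : M.X → F) : Prop :=
  ∀ x, ∃ (O : Set M.X) (δ : M.X → ℂ) (C : ℝ) (m : ℕ), x ∈ O ∧ Dv M O δ ∧
    ∀ y ∈ O, δ y ≠ 0 → y ∈ W ∧ ‖f y‖ * ‖δ y‖ ^ m ≤ C

/-- Logarithmic growth. -/
def LogT (W : Set M.X) (g : M.X → ℝ) : Prop :=
  ∀ x, ∃ (O : Set M.X) (δ : M.X → ℂ) (C : ℝ), x ∈ O ∧ Dv M O δ ∧
    ∀ y ∈ O, δ y ≠ 0 → y ∈ W ∧ |g y| ≤ C * (1 - Real.log ‖δ y‖)

/-- A meromorphic section of the `m`-th power of `L`, holomorphic and without zeros on `W`. -/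
structure MerSec (L : M.Co) (m : ℕ) (s : M.Fam ℂ) (W : Set M.X) : Prop where
  cmp : M.Ov fun e e' x => x ∈ W → s e' (e' x) = s e (e x) * L.c e e' x ^ m
  hol : ∀ x ∈ W, At M x fun e z => HolN (s e) z ∧ s e z ≠ 0
  mer : M.All fun e z => ∃ a b : E n → ℂ, HolN a z ∧ HolN b z ∧ (∃ᶠ w in 𝓝 z, b w ≠ 0) ∧
    ∀ᶠ w in 𝓝 z, e.symm w ∈ W → b w ≠ 0 → s e w = a w / b w

/-! #### Projective data -/

variable {ι : Type} [Fintype ι]

/-- Affine coordinates. -/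
def af {X : Type} (f : X → ι → ℂ) (i₀ : ι) (x : X) : ι → ℂ := fun l => f x l / f x i₀

/-- A holomorphic section of `O(m)`. -/
def SecO (f : M.X → ι → ℂ) (m : ℕ) (σ : M.X → ℂ) : Prop :=
  ∀ x i, f x i ≠ 0 → HolAt M (fun y => σ y / f y i ^ m) x

/-- Its squared norm. -/
def no {X : Type} (f : X → ι → ℂ) (m : ℕ) (σ : X → ℂ) (x : X) : ℝ := normSq (σ x) / nsq (f x) ^ m

/-- Every chart lies in a standard affine piece. -/
def Aff {ι : Type} (f : M.X → ι → ℂ) : Prop := ∀ e ∈ M.C, ∃ i, ∀ x ∈ e.source, f x i ≠ 0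

/-- Coercivity. -/
structure Coe (L : M.Co) (φ : M.Fam ℝ) (f : M.X → ι → ℂ) (ρ : (Fin k → ℝ) → M.X → ℝ) (b : Fin k → ℝ)
    (m : ℕ) (σ : M.X → ℂ) (s : M.Fam ℂ) : Prop where
  so : SecO M f m σ
  ms : MerSec M L 1 s {x | σ x ≠ 0}
  den : Dense {x | σ x ≠ 0}
  op : IsOpen {x | σ x ≠ 0}
  bd : ∃ c C : ℝ, 0 < c ∧ 0 < C ∧ ∀ x, no f m σ x ≤ C ∧ (σ x ≠ 0 →
    (∀ ξ, c * ‖ξ‖ - C * (1 + |Real.log (no f m σ x)|) ≤ ρ ξ x - b ⬝ᵥ ξ) ∧
    |Real.log (normSq (M.ev s x)) - M.ev φ x| ≤ C * (1 + |Real.log (no f m σ x)|))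

/-! #### The last steps -/

/-- Basic meromorphic functions and a meromorphic section with basic norm. -/
structure Bas (L : M.Co) (φ : M.Fam ℝ) (r : ℕ) (x₂ : M.X) (τ : M.X → E r) (W : Set M.X) (m : ℕ)
    (s : M.Fam ℂ) : Prop where
  m0 : 0 < m
  cot : Cothin M W
  mem : x₂ ∈ W
  rk : x₂ ∈ X0 M (M.hw φ) r
  mer : ∀ i, Mer M fun x => τ x i
  hol : ∀ x ∈ W, HolAt M τ x
  sub : Subm M τ x₂
  sec : MerSec M L m s W
  kt : ∀ᶠ y in 𝓝 x₂, At M y fun e z => ∀ v, M.hw φ e z *ᵥ v = 0 → fderiv ℂ (τ ∘ e.symm) z v = 0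
  ks : ∀ᶠ y in 𝓝 x₂, At M y fun e z => ∀ v, M.hw φ e z *ᵥ v = 0 →
    dv1 (fun w => Real.log (normSq (s e w)) - m * φ e w) z ⬝ᵥ v = 0

/-- The data for peak sections. -/
structure Pk (L : M.Co) (φ : M.Fam ℝ) (r : ℕ) (x₂ : M.X) (U : Set M.X) (H : M.X → E r) (δ c : ℝ)
    (m : ℕ) (s : M.Fam ℂ) : Prop where
  m0 : 0 < m
  d0 : 0 < δ
  c0 : 0 < c
  op : IsOpen U
  mem : x₂ ∈ U
  zero : H x₂ = 0
  hol : ∀ x ∈ U, HolAt M H x
  sub : Subm M H x₂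
  cl : IsClosed {x | x ∈ U ∧ ‖H x‖ ≤ δ}
  lo : ∀ x ∈ U, At M x fun e z => (M.hw φ e z - (c : ℂ) • pb M H 1 e z).PosSemidef
  cmp : M.Ov fun e e' x => x ∈ U → s e' (e' x) = s e (e x) * L.c e e' x ^ m
  sec : ∀ x ∈ U, At M x fun e z => HolN (s e) z ∧ s e z ≠ 0

/-! #### Pairs -/

/-- The bundle `L` is `m K + D - E`, where `D`, `E` are the divisors of `f`, `g`, and the pair
`D / m` is klt. -/
structure Pr (L LB LE : M.Co) (m : ℕ) (f g : M.Fam ℂ) : Prop where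
  m0 : 0 < m
  rel : M.Ov fun e e' x => L.c e e' x * LE.c e e' x = (M.J e e' x).det ^ m * LB.c e e' x
  hB : M.HSecC LB f
  hE : M.HSecC LE g
  lct : ∃ c : ℝ, 1 / m < c ∧ M.Lct f c
  den : Dense {x | M.ev g x ≠ 0}

/-- The branches of the divisor of `g` are smooth, and `W` is degenerate along them. -/
def Fac (W : M.Fam (Mat n)) (g : M.Fam ℂ) : Prop :=
  ∀ x, ∃ e ∈ M.C, x ∈ e.source ∧ ∃ (N : ℕ) (h : Fin N → E n → ℂ), ∀ᶠ w in 𝓝 (e x),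
    g e w = ∏ a, h a w ∧ ∀ a, DifferentiableAt ℂ (h a) w ∧ (h a w = 0 → fderiv ℂ (h a) w ≠ 0 ∧
      ∃ v, v ≠ 0 ∧ fderiv ℂ (h a) w v = 0 ∧ nq (W e w) v = 0)

/-- The divisor of `g` is contracted by the form `W`, which dominates `η`. -/
structure Ct (η W : M.Fam (Mat n)) (g : M.Fam ℂ) : Prop where
  clo : M.Clo W
  le : M.Le η W
  pos : ∃ x, (M.ev W x).PosDef
  fac : Fac M W g

/-- Growth of the number of sections of the powers of `L`. -/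
def CGrow (L : M.Co) (d : ℕ) : Prop :=
  ∃ (a : ℕ) (c : ℝ), 0 < a ∧ 0 < c ∧ ∀ᶠ b : ℕ in atTop, ∃ (N : ℕ) (s : Fin N → M.Fam ℂ),
    c * (b : ℝ) ^ d ≤ N ∧ (∀ i, M.HSecC (L.pw (a * b)) (s i)) ∧
      LinearIndependent ℂ fun i => M.ev (s i)

end mf

/-! ### The chart adapted to the closures of the leaves -/

section plq

variable {q k j : ℕ} (M : Mf (q + j)) {ι : Type} [Fintype ι]

/-- A chart whose first `q` coordinates are affine coordinates and whose last `j` coordinates are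
those of `H`. -/
structure Ebx (f : M.X → ι → ℂ) (i₀ : ι) (ix : Fin q → ι) (O : Set M.X) (H : M.X → E (k + j))
    (e : M.Ch) (c : E (q + j)) (R : ℝ) : Prop where
  mem : e ∈ M.C
  r0 : 0 < R
  sub : ball c R ⊆ e.target
  pt : ∀ z ∈ ball c R, e.symm z ∈ O ∧ f (e.symm z) i₀ ≠ 0 ∧
    (∀ a, fx z a = af f i₀ (e.symm z) (ix a)) ∧ sx z = sx (H (e.symm z))

/-- The zero estimate on many plaques. -/
def Zer (f : M.X → ι → ℂ) (i₀ : ι) (e : M.Ch) (c : E (q + j)) (R : ℝ) : Prop :=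
  ∃ C : ℕ, ∀ W : E j → ℂ, DifferentiableOn ℂ W (ball (sx c) R) → (∃ s ∈ ball (sx c) R, W s ≠ 0) →
    ∃ s ∈ ball (sx c) R, W s ≠ 0 ∧ ∀ (d N : ℕ) (P : MvPolynomial ι ℂ), P.IsHomogeneous d →
      C * d < N → ((fun y : E q => MvPolynomial.eval (af f i₀ (e.symm (Fin.append y s))) P)
        =O[𝓝 (fx c)] fun y => ‖y - fx c‖ ^ N) →
      ∀ y ∈ ball (fx c) R, MvPolynomial.eval (af f i₀ (e.symm (Fin.append y s))) P = 0

/-- Dependence of monomials on many plaques. -/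
def Dep (f : M.X → ι → ℂ) (i₀ : ι) (e : M.Ch) (c : E (q + j)) (R : ℝ) : Prop :=
  ∃ m : ℕ, ∀ W : E j → ℂ, DifferentiableOn ℂ W (ball (sx c) R) → (∃ s ∈ ball (sx c) R, W s ≠ 0) →
    ∃ s ∈ ball (sx c) R, W s ≠ 0 ∧ ∀ l, ∃ a : (Fin q → Fin (m + 1)) × Fin (m + 1) → ℂ, a ≠ 0 ∧
      ∀ y ∈ ball (fx c) R, ∑ α, a α * (∏ b, y b ^ (α.1 b).val) *
        af f i₀ (e.symm (Fin.append y s)) l ^ α.2.val = 0

/-- Algebraic equations for the point of the plaque with given affine coordinates. -/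
structure Alg (f : M.X → ι → ℂ) (i₀ : ι) (e : M.Ch) (c₁ : E (q + j)) (R₁ : ℝ) (W : Set M.X)
    (P : ι → M.X → Polynomial ℂ) (d : ι → ℕ) : Prop where
  r0 : 0 < R₁
  cot : Cothin M W
  mon : ∀ l x, (P l x).Monic ∧ (P l x).natDegree = d l
  mer : ∀ l i, Mer M fun x => (P l x).coeff i
  hol : ∀ l i, ∀ x ∈ W, HolAt M (fun x => (P l x).coeff i) x
  sep : ∀ l, ∀ x ∈ W, (P l x).Separable
  root : ∀ z ∈ ball c₁ R₁, e.symm z ∈ W → ∀ l,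
    (P l (e.symm z)).eval (af f i₀ (e.symm (Fin.append (fx c₁) (sx z))) l) = 0
  bas : ∀ z ∈ ball c₁ R₁, e.symm z ∈ W → ∀ l i (a : Fin q),
    fderiv ℂ (fun w => (P l (e.symm w)).coeff i) z (Pi.single (Fin.castAdd j a) 1) = 0

end plq

end Pool.Agent.Lib.RA
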