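import Pool.Agent.Lib.KP.SDefs
import Pool.Agent.Lib.HW.SDefs
import Pool.Agent.Lib.PN.SDefs

/-! Definitions used in the statement: real-analytic semi-positive metrics on `m K + D - E`,
exceptional divisors, growth of the log plurigenera. -/

open scoped Topology

noncomputable section

namespace Pool.Agent.Lib.RY

open Pool.Agent.Lib.SV Pool.Agent.Lib.HW Pool.Agent.Lib.KP

variable (n : ℕ) {X ι : Type} [TopologicalSpace X] [ChartedSpace (E n) X]

/-- The weight, in the chart at `x`, of the Hermitian metric `exp (-φ)` on `a K` whose weight at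
each `y` in the preferred chart of `y` is `φ y`. For `a = 0`, `φ` is a function. -/
def wtA (a : ℕ) (φ : X → ℝ) (x : X) (z : E n) : ℝ :=
  φ ((chartAt (E n) x).symm z) + a * Real.log (Complex.normSq (jacAt n X x z))

/-- The curvature form of that metric at `x`, evaluated on `v`. -/
def curvA (a : ℕ) (φ : X → ℝ) (x : X) (v : E n) : ℝ := levi (wtA n a φ x) (chartAt (E n) x x) v

/-- The differential of a function at `x`, in the preferred chart. -/
def dAt (h : X → ℂ) (x : X) : E n →L[ℂ] ℂ :=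
  fderiv ℂ (fun z => h ((chartAt (E n) x).symm z)) (chartAt (E n) x x)

/-- The metrics `exp (-φ i)` on `m K` over `U i` define a real-analytic metric of semi-positive
curvature on `m K + D - E`, where `D`, `E` have the local equations `f i`, `g i`. -/
structure PairMetric (m : ℕ) (U : ι → Set X) (f g : ι → X → ℂ) (φ : ι → X → ℝ) : Prop where
  an : ∀ i, ∀ x ∈ U i, AnalyticAt ℝ (wtA n m (φ i) x) (chartAt (E n) x x)
  pos : ∀ i, ∀ x ∈ U i, ∀ v, 0 ≤ curvA n m (φ i) x v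
  glue : ∀ i j, ∀ x ∈ U i ∩ U j, Real.exp (-φ i x) * Complex.normSq (f i x * g j x) =
    Real.exp (-φ j x) * Complex.normSq (f j x * g i x)

/-- The functions `g i` are local equations of a divisor `E` with smooth branches; the closed form
with local potentials `ψ i` dominates the curvature, is positive at some point, and its
restriction to each branch of `E` is degenerate at every point. -/
structure Exc (m : ℕ) (U : ι → Set X) (g : ι → X → ℂ) (φ ψ : ι → X → ℝ) : Prop where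
  unit : ∀ i j, ∃ u : X → ℂ, ∀ x ∈ U i ∩ U j, HolAt n 0 u x ∧ u x ≠ 0 ∧ g i x = u x * g j x
  sm : ∀ i, ∀ x ∈ U i, ContDiffAt ℝ (⊤ : ℕ∞) (wtA n 0 (ψ i) x) (chartAt (E n) x x)
  eq : ∀ i j, ∀ x ∈ U i ∩ U j, ∀ v, curvA n 0 (ψ i) x v = curvA n 0 (ψ j) x v
  dom : ∀ i, ∀ x ∈ U i, ∀ v, curvA n m (φ i) x v ≤ curvA n 0 (ψ i) x v
  pos : ∃ i, ∃ x ∈ U i, ∀ v, v ≠ 0 → 0 < curvA n 0 (ψ i) x v
  fac : ∀ i, ∀ x ∈ U i, ∃ (N : ℕ) (h : Fin N → X → ℂ), ∀ᶠ y in 𝓝 x, g i y = ∏ a, h a y ∧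
    ∀ a, HolAt n 0 (h a) y ∧ (h a y = 0 → dAt n (h a) y ≠ 0 ∧
      ∃ v, v ≠ 0 ∧ dAt n (h a) y v = 0 ∧ curvA n 0 (ψ i) y v = 0)

/-- At every point the curvature form vanishes on a subspace of dimension `k`. -/
def NullDirs (m : ℕ) (U : ι → Set X) (φ : ι → X → ℝ) (k : ℕ) : Prop :=
  ∀ i, ∀ x ∈ U i, ∃ F : Submodule ℂ (E n), Module.finrank ℂ F = k ∧
    ∀ v ∈ F, curvA n m (φ i) x v = 0

/-- The Iitaka dimension of `m K + D` is at least `d`: for some `a > 0`, `c > 0` and all large `b`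
the bundle `a b (m K + D)` has at least `c b ^ d` linearly independent holomorphic sections. -/
def PairKod (m : ℕ) (U : ι → Set X) (f : ι → X → ℂ) (d : ℕ) : Prop :=
  ∃ (a : ℕ) (c : ℝ), 0 < a ∧ 0 < c ∧ ∀ᶠ b : ℕ in Filter.atTop,
    ∃ (N : ℕ) (s : Fin N → ι → X → ℂ), c * b ^ d ≤ N ∧
      (∀ l, PairSec n (m * (a * b)) (a * b) U f (s l)) ∧
      ∀ t : Fin N → ℂ, (∀ i, ∀ x ∈ U i, ∑ l, t l * s l i x = 0) → t = 0

end Pool.Agent.Lib.RY
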