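import Pool.Agent.Lib.RY.Top
import Pool.Agent.Lib.RY.SDefs
import Pool.Agent.Lib.KP.B_BRG

/-! Project ra2: from the statement to the manifold layer and back. -/

open scoped Manifold ContDiff

namespace Pool.Agent.Lib.RY

open Pool.Agent.Lib.SV (E)
open Pool.Agent.Lib.HS32 Pool.Agent.Lib.PN Pool.Agent.Lib.UR.M Pool.Agent.Lib.RA
open Pool.Agent.Lib.KP (Klt)

/-- The theorem on the manifold layer. -/
def St_MAIN : Prop := ∀ (n p d r : ℕ) (M : Mf n) [M.Cpt] [SimplyConnectedSpace M.X] (Λ : Type)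
  [Fintype Λ] (g : Λ → Pol (p + n)) (f : M.X → Fin (p + n + 1) → ℂ) (φ : M.Fam ℝ)
  (L LB LE : M.Co) (m : ℕ) (fB gE : M.Fam ℂ) (W : M.Fam (Mat n)), Prj M d g f → Aff M f →
  Su M (fs M f) φ r → M.WtC L φ → Pr M L LB LE m fB gE → Ct M (M.hw φ) W gE → r ≤ n →
  CGrow M (LB.tw m) r

/-- The bridge. -/
def St_BRG : Prop := ∀ (n : ℕ) (X ι : Type) [TopologicalSpace X] [ChartedSpace (E n) X]
  [IsManifold 𝓘(ℂ, E n) ω X] [CompactSpace X] [T2Space X] [SimplyConnectedSpace X] (m : ℕ)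
  (U : ι → Set X) (f g : ι → X → ℂ) (φ ψ : ι → X → ℝ), Projective n X → 0 < m → Klt n m U f →
  PairMetric n m U f g φ → Exc n m U g φ ψ →
  ∃ (M : Mf n) (_ : M.Cpt) (_ : SimplyConnectedSpace M.X) (p l d r : ℕ) (G : Fin l → Pol (p + n))
    (F : M.X → Fin (p + n + 1) → ℂ) (φ' : M.Fam ℝ) (L LB LE : M.Co) (fB gE : M.Fam ℂ)
    (W : M.Fam (Mat n)), Prj M d G F ∧ Aff M F ∧ Su M (fs M F) φ' r ∧ M.WtC L φ' ∧
    Pr M L LB LE m fB gE ∧ Ct M (M.hw φ') W gE ∧ r ≤ n ∧ NullDirs n m U φ (n - r) ∧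
    (CGrow M (LB.tw m) r → PairKod n m U f r)

theorem glue (hB : St_BRG) (hM : St_MAIN) (n : ℕ) (X ι : Type) [TopologicalSpace X]
    [ChartedSpace (E n) X] [IsManifold 𝓘(ℂ, E n) ω X] [CompactSpace X] [T2Space X]
    [SimplyConnectedSpace X] (m : ℕ) (U : ι → Set X) (f g : ι → X → ℂ) (φ ψ : ι → X → ℝ)
    (hX : Projective n X) (hm : 0 < m) (hf : Klt n m U f) (hφ : PairMetric n m U f g φ)
    (hg : Exc n m U g φ ψ) : ∃ k ≤ n, NullDirs n m U φ k ∧ PairKod n m U f (n - k) := by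
  obtain ⟨M, _, _, p, l, d, r, G, F, φ', L, LB, LE, fB, gE, W, h1, h2, h3, h4, h5, h6, h7, h8, h9⟩ :=
    hB n X ι m U f g φ ψ hX hm hf hφ hg
  refine ⟨n - r, Nat.sub_le _ _, h8, ?_⟩
  rw [Nat.sub_sub_self h7]
  exact h9 (hM n p d r M _ G F φ' L LB LE m fB gE W h1 h2 h3 h4 h5 h6 h7)

end Pool.Agent.Lib.RY
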