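import Pool.Agent.Lib.RY.SDefs
import Pool.Agent.Lib.HN.SDefs

/-! Project ra2: the case of the zero divisor. -/

open scoped Topology
open MeasureTheory Filter

namespace Pool.Agent.Lib.RY

open Pool.Agent.Lib.SV Pool.Agent.Lib.KP Pool.Agent.Lib.HN

variable {n m : ℕ} {X ι : Type} [TopologicalSpace X] [ChartedSpace (E n) X] {U : ι → Set X}

theorem klt_one (hU : ∀ i, IsOpen (U i)) (hc : ∀ x, ∃ i, x ∈ U i) :
    Klt n m U fun _ _ => 1 := by
  have h : ∀ x : X, HolAt n 0 (fun _ => 1) x := fun x => by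
    simp only [HolAt, pow_zero, mul_one]
    exact differentiableAt_const _
  refine ⟨hU, hc, fun _ x _ => h x, fun _ _ => ⟨fun _ => 1, fun x _ =>
    ⟨h x, one_ne_zero, (mul_one _).symm⟩⟩, 1 / m + 1, lt_add_one _, fun _ x _ =>
    ⟨_, Metric.ball_mem_nhds _ one_pos, ?_⟩⟩
  simpa using measure_ball_lt_top

theorem kod_one (hm : 0 < m) (hU : ∀ i, IsOpen (U i)) (hc : ∀ x, ∃ i, x ∈ U i) {d : ℕ}
    (h : PairKod n m U (fun _ _ => 1) d) : KodGe n X d := by
  obtain ⟨a, c, a0, c0, h⟩ := h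
  choose j hj using hc
  refine ⟨m * a, c, Nat.mul_pos hm a0, c0, h.mono fun b ⟨N, s, h1, h2, h3⟩ => ?_⟩
  have e : ∀ l i, ∀ x ∈ U i, s l (j x) x = s l i x := fun l i x hx => by
    simpa using (h2 l).glue (j x) i x ⟨hj x, hx⟩
  refine ⟨N, fun l x => s l (j x) x, h1, Fintype.linearIndependent_iff.2 fun t ht =>
    congrFun (h3 t fun i x hx => ?_), fun l x => ?_⟩
  · simpa [e _ i x hx] using congrFun ht x
  · refine ((h2 l).hol (j x) x (hj x)).congr_of_eventuallyEq ?_
    have hx := mem_chart_source (E n) x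
    filter_upwards [((chartAt (E n) x).continuousAt_symm (mem_chart_target (E n) x)).eventually_mem
      ((hU (j x)).mem_nhds (by rw [(chartAt (E n) x).left_inv hx]; exact hj x))] with z hz
    rw [e l _ _ hz, mul_assoc m]

end Pool.Agent.Lib.RY
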